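import Pool.Agent.Lib.MP_9c5702_nt.Cube.Reduce
import Pool.Agent.Shared.PNT.Main

-- part Pool.Agent.Lib.MP_9c5702_nt.Cube.Struct
section

/-! Parametrisation of the solutions. -/

set_option autoImplicit false

namespace Pool.Agent.Lib.MP_9c5702_nt.Cube

open Finset

theorem peel {d m n Q : ℕ} (hd : 0 < d) (h : d * m = n * Q) :
    ∃ k p n' Q', d = k * p ∧ n = k * n' ∧ Q = p * Q' ∧ m = n' * Q' := by
  obtain ⟨k, p, ⟨n', h1⟩, ⟨Q', h2⟩, h3⟩ := exists_dvd_and_dvd_of_dvd_mul (Dvd.intro _ h)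
  refine ⟨k, p, n', Q', h3, h1, h2, Nat.eq_of_mul_eq_mul_left hd ?_⟩
  rw [h, h1, h2, h3]
  ring

theorem split3 {d e f n Q : ℕ} (hd : 0 < d) (he : 0 < e) (hf : 0 < f) (hn : 0 < n)
    (h : 3 * d * e * f = n * Q) :
    ∃ k p, (d = k * p ∨ e = k * p ∨ f = k * p) ∧ k ∣ n ∧ p ∣ Q ∧ k ^ 3 ≤ n := by
  obtain ⟨k1, p1, n1, Q1, a1, a2, a3, a4⟩ := peel (m := e * (f * 3)) (n := n) (Q := Q) hd (by linarith)
  obtain ⟨k2, p2, n2, Q2, b1, b2, b3, b4⟩ := peel he a4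
  obtain ⟨k3, p3, n3, Q3, c1, c2, c3, -⟩ := peel hf b4
  have h1 : n = k1 * k2 * k3 * n3 := by rw [a2, b2, c2]; ring
  have h2 : k1 * k2 * k3 ≤ n := Nat.le_of_dvd hn ⟨n3, h1⟩
  have h3 : Q = p1 * p2 * p3 * Q3 := by rw [a3, b3, c3]; ring
  have cube : ∀ a b c : ℕ, a ≤ b → a ≤ c → a ^ 3 ≤ a * b * c := fun a b c h1 h2 => by
    rw [pow_succ, sq]; gcongr
  rcases le_total k1 k2 with h4 | h4
  · rcases le_total k1 k3 with h5 | h5
    · exact ⟨k1, p1, Or.inl a1, ⟨_, a2⟩, ⟨_, a3⟩, (cube _ _ _ h4 h5).trans h2⟩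
    · exact ⟨k3, p3, Or.inr (Or.inr c1), ⟨k1 * k2 * n3, by rw [h1]; ring⟩,
        ⟨p1 * p2 * Q3, by rw [h3]; ring⟩, (cube _ _ _ h5 (h5.trans h4)).trans (by linarith)⟩
  · rcases le_total k2 k3 with h5 | h5
    · exact ⟨k2, p2, Or.inr (Or.inl b1), ⟨k1 * k3 * n3, by rw [h1]; ring⟩,
        ⟨p1 * p3 * Q3, by rw [h3]; ring⟩, (cube _ _ _ h4 h5).trans (by linarith)⟩
    · exact ⟨k3, p3, Or.inr (Or.inr c1), ⟨k1 * k2 * n3, by rw [h1]; ring⟩,
        ⟨p1 * p2 * Q3, by rw [h3]; ring⟩, (cube _ _ _ (h5.trans h4) h5).trans (by linarith)⟩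

theorem short {p : ℕ} (hp : 0 < p) (w σ : ℤ) : ∃ a b : ℤ, (a ≠ 0 ∨ b ≠ 0) ∧ |a| ≤ p.sqrt ∧
    |b| ≤ p.sqrt ∧ (p : ℤ) ∣ a * w + b * σ := by
  have : NeZero p := ⟨hp.ne'⟩
  obtain ⟨i, hi, j, hj, hij, h⟩ := exists_ne_map_eq_of_card_lt_of_maps_to
    (s := range (p.sqrt + 1) ×ˢ range (p.sqrt + 1)) (t := (univ : Finset (ZMod p)))
    (by simpa [sq] using Nat.lt_succ_sqrt p)
    (f := fun i : ℕ × ℕ => ((i.1 * w + i.2 * σ : ℤ) : ZMod p)) fun _ _ => mem_coe.2 (mem_univ _)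
  simp only [mem_product, mem_range] at hi hj
  refine ⟨j.1 - i.1, j.2 - i.2, ?_, abs_le.2 ⟨by omega, by omega⟩, abs_le.2 ⟨by omega, by omega⟩, ?_⟩
  · by_contra h1
    exact hij (Prod.ext (by omega) (by omega))
  · have := (ZMod.intCast_eq_intCast_iff_dvd_sub _ _ _).1 h
    exact this.trans (Dvd.intro 1 (by ring))

theorem dvd_gcd_mul {p X : ℤ} {σ w : ℕ} (h1 : p ∣ σ * X) (h2 : p ∣ w * X) :
    p ∣ (Nat.gcd σ w : ℤ) * X := by
  rw [Nat.gcd_eq_gcd_ab, add_mul]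
  exact dvd_add (mul_right_comm (σ : ℤ) _ _ ▸ h1.mul_right _) (mul_right_comm (w : ℤ) _ _ ▸ h2.mul_right _)

theorem norm_pos {a b : ℤ} (h : IsCoprime a b) : 0 < a ^ 2 - a * b + b ^ 2 := by
  rcases h.ne_zero_or_ne_zero with h | h
  · nlinarith [sq_nonneg (a - 2 * b), sq_pos_of_ne_zero h]
  · nlinarith [sq_nonneg (2 * a - b), sq_pos_of_ne_zero h]

theorem lattice {p σ w : ℕ} (hp : 0 < p) (hw : 0 < w) (hQ : p ∣ σ ^ 2 + σ * w + w ^ 2) :
    ∃ (a b : ℤ) (c1 c3 : ℕ), IsCoprime a b ∧ |a| ≤ p.sqrt ∧ |b| ≤ p.sqrt ∧ 1 ≤ c1 ∧ 1 ≤ c3 ∧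
      c1 ≤ 3 * Nat.gcd σ w ^ 2 ∧ c3 ≤ 3 * Nat.gcd σ w ^ 2 ∧
      (c1 : ℤ) * p = c3 * (Nat.gcd σ w : ℤ) ^ 2 * (a ^ 2 - a * b + b ^ 2) ∧
      ∃ μ ν : ℤ, a * μ - b * ν = (c1 * Nat.gcd σ w : ℕ) * σ ∧
        a * ν + b * μ - b * ν = -((c1 * Nat.gcd σ w : ℕ) * w) := by
  obtain ⟨a0, b0, h0, ha, hb, h⟩ := short hp w σ
  obtain ⟨g0, a, b, hg0, hab, rfl, rfl⟩ := Int.exists_gcd_one' (Int.gcd_pos_iff.2 h0)
  have hab' : IsCoprime a b := Int.isCoprime_iff_gcd_eq_one.2 hab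
  have h1 : p ∣ g0 * (a * w + b * σ).natAbs := by
    have : (p : ℤ) ∣ g0 * (a * w + b * σ) := h.trans (Dvd.intro 1 (by ring))
    simpa [Int.natAbs_mul] using Int.natAbs_dvd_natAbs.2 this
  obtain ⟨c3, p', h2, h3, rfl⟩ := exists_dvd_and_dvd_of_dvd_mul h1
  have h4 : (p' : ℤ) ∣ a * w + b * σ := Int.natCast_dvd.2 h3
  have h5 : (p' : ℤ) ∣ σ ^ 2 + σ * w + w ^ 2 := by exact_mod_cast (dvd_mul_left _ _).trans hQ
  have hX : (p' : ℤ) ∣ (Nat.gcd σ w : ℤ) * ((a - b) * σ - b * w) := dvd_gcd_mul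
    ((dvd_sub (h5.mul_left a) (h4.mul_left (σ + w))).trans (Dvd.intro 1 (by ring)))
    ((dvd_sub (h4.mul_left σ) (h5.mul_left b)).trans (Dvd.intro 1 (by ring)))
  have hN := norm_pos hab'
  generalize hg : Nat.gcd σ w = g at *
  have hg1 : 0 < g := hg ▸ Nat.gcd_pos_of_pos_right _ hw
  have h6 : (p' : ℤ) ∣ g * (g * (a ^ 2 - a * b + b ^ 2)) := by
    rw [← hg]
    refine dvd_gcd_mul ?_ ?_ <;> rw [hg]
    · exact (dvd_add (hX.mul_left (a - b)) (h4.mul_left (b * g)) |>.add (hX.mul_left b) |>.add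
        (h4.mul_left 0)).trans (Dvd.intro 1 (by ring))
    · exact (dvd_sub (h4.mul_left ((a - b) * g)) (hX.mul_left b)).trans (Dvd.intro 1 (by ring))
  obtain ⟨c, hc⟩ := h6
  have hp' : 0 < p' := Nat.pos_of_mul_pos_left hp
  have hc3 : 0 < c3 := Nat.pos_of_mul_pos_right hp
  have hc0 : 0 < c := pos_of_mul_pos_right (hc ▸ by positivity) (Int.natCast_nonneg p')
  lift c to ℕ using hc0.le
  have hc1 : 0 < c := by exact_mod_cast hc0
  have h7 : c3 ≤ g0 := Nat.le_of_dvd hg0 h2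
  have h8 : (g0 : ℤ) ^ 2 * (a ^ 2 - a * b + b ^ 2) ≤ 3 * (c3 * p') := by
    have h9 : ((c3 * p').sqrt : ℤ) ^ 2 ≤ c3 * p' := by exact_mod_cast Nat.sqrt_le' (c3 * p')
    have h10 := sq_le_sq' (abs_le.1 ha).1 (abs_le.1 ha).2
    have h11 := sq_le_sq' (abs_le.1 hb).1 (abs_le.1 hb).2
    nlinarith [sq_nonneg (a * g0 + b * g0)]
  have h9 : c * g0 ≤ 3 * g ^ 2 := by
    have h10 : (p' * g0 : ℤ) * (c * g0) ≤ (p' * g0 : ℤ) * (3 * g ^ 2) := by
      calc (p' * g0 : ℤ) * (c * g0) = g ^ 2 * (g0 ^ 2 * (a ^ 2 - a * b + b ^ 2)) := by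
            linear_combination (-(g0 : ℤ) ^ 2) * hc
        _ ≤ g ^ 2 * (3 * (g0 * p')) :=
            mul_le_mul_of_nonneg_left (h8.trans (by gcongr)) (by positivity)
        _ = _ := by ring
    exact_mod_cast le_of_mul_le_mul_left h10 (by positivity)
  have habs : ∀ x : ℤ, |x| ≤ |x * g0| := fun x => by
    rw [abs_mul]
    exact le_mul_of_one_le_right (abs_nonneg _) (by rw [Nat.abs_cast]; exact_mod_cast hg0)
  obtain ⟨s, hs⟩ := h4
  obtain ⟨t, ht⟩ := hX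
  refine ⟨a, b, c, c3, hab', (habs a).trans ha, (habs b).trans hb, hc1, hc3,
    (Nat.le_mul_of_pos_right _ hg0).trans h9, h7.trans ((Nat.le_mul_of_pos_left _ hc1).trans h9), ?_,
    g ^ 2 * t, -(g ^ 3 * s), ?_, ?_⟩
  · push_cast
    linear_combination (-(c3 : ℤ)) * hc
  · refine mul_left_cancel₀ (show (p' : ℤ) ≠ 0 by positivity) ?_
    push_cast
    linear_combination (-(a * g ^ 2)) * ht - (b * g ^ 3) * hs + (g * σ) * hc
  · refine mul_left_cancel₀ (show (p' : ℤ) ≠ 0 by positivity) ?_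
    push_cast
    linear_combination (-(b * g ^ 2)) * ht + ((a - b) * g ^ 3) * hs - (g * w) * hc

theorem struct1 {w U σ x y z k p : ℕ} (hg : Good w U σ) (hx : 0 < x) (hy : 0 < y) (hz : 0 < z)
    (h : x ^ 3 + y ^ 3 + z ^ 3 = w ^ 3) (hσ : σ = x + y + z) (hd : x + y = k * p)
    (hk : k ∣ σ - w) (hp : p ∣ σ ^ 2 + σ * w + w ^ 2) :
    ∃ (c c2 : ℕ) (a b : ℤ), 1 ≤ k ∧ 1 ≤ c ∧ c ≤ 3 * U ^ 3 ∧ 1 ≤ c2 ∧
      c2 ≤ 3 * U ^ 5 ∧ |a| ≤ Nat.sqrt (2 * w / k) ∧ |b| ≤ Nat.sqrt (2 * w / k) ∧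
      Rep w σ k c c2 a b := by
  obtain ⟨g1, g2, -, g4, -⟩ := hg
  have h0 : 0 < k * p := by omega
  have hk0 := Nat.pos_of_mul_pos_right h0
  obtain ⟨a, b, c1, c3, a1, a2, a3, a4, a5, a6, a7, a8, a9⟩ :=
    lattice (Nat.pos_of_mul_pos_left h0) (by omega) hp
  have hg0 : 0 < Nat.gcd σ w := Nat.gcd_pos_of_pos_right _ (by omega)
  have hxw : x < w := lt_of_pow_lt_pow_left₀ 3 (by omega) (by have := pow_pos hy 3; omega)
  have hyw : y < w := lt_of_pow_lt_pow_left₀ 3 (by omega) (by have := pow_pos hx 3; omega)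
  have hs : (p.sqrt : ℤ) ≤ Nat.sqrt (2 * w / k) := by
    exact_mod_cast Nat.sqrt_le_sqrt ((Nat.le_div_iff_mul_le hk0).2 (by rw [mul_comm, ← hd]; omega))
  refine ⟨c1 * Nat.gcd σ w, Nat.gcd σ w ^ 3 * c3, a, b, hk0, Nat.mul_pos a4 hg0, ?_, Nat.mul_pos (pow_pos hg0 3) a5,
    ?_, a2.trans hs, a3.trans hs, x, y, z, hx, hy, hz, h, hσ, ?_, a1, ?_, dvd_mul_left _ _, a9⟩
  · calc _ ≤ 3 * U ^ 2 * U := Nat.mul_le_mul (a6.trans (by gcongr)) g4
      _ = _ := by ring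
  · calc _ ≤ U ^ 3 * (3 * U ^ 2) := Nat.mul_le_mul (by gcongr) (a7.trans (by gcongr))
      _ = _ := by ring
  · rw [← Nat.cast_sub g1.le]; exact_mod_cast hk
  · have : (x : ℤ) + y = k * p := by exact_mod_cast hd
    push_cast
    linear_combination (c1 * Nat.gcd σ w : ℤ) * this + (k * Nat.gcd σ w : ℤ) * a8

theorem struct {w U σ x y z : ℕ} (hg : Good w U σ) (hx : 0 < x) (hy : 0 < y) (hz : 0 < z)
    (h : x ^ 3 + y ^ 3 + z ^ 3 = w ^ 3) (hσ : σ = x + y + z) :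
    ∃ (k c c2 : ℕ) (a b : ℤ), 1 ≤ k ∧ k ^ 3 ≤ 2 * w ∧ 1 ≤ c ∧ c ≤ 3 * U ^ 3 ∧ 1 ≤ c2 ∧
      c2 ≤ 3 * U ^ 5 ∧ |a| ≤ Nat.sqrt (2 * w / k) ∧ |b| ≤ Nat.sqrt (2 * w / k) ∧
      Rep w σ k c c2 a b := by
  have g1 := hg.1
  have g2 := hg.2.1
  obtain ⟨k, p, h1, h2, h3, h4⟩ := split3 (d := x + y) (e := y + z) (f := z + x) (n := σ - w)
    (Q := σ ^ 2 + σ * w + w ^ 2) (by omega) (by omega) (by omega) (by omega) (by
      zify [g1.le] at h hσ ⊢
      rw [hσ]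
      linear_combination -h)
  have h5 : k ^ 3 ≤ 2 * w := by omega
  rcases h1 with h1 | h1 | h1
  · obtain ⟨c, c2, a, b, a1, a2⟩ := struct1 hg hx hy hz h hσ h1 h2 h3
    exact ⟨k, c, c2, a, b, a1, h5, a2⟩
  · obtain ⟨c, c2, a, b, a1, a2⟩ := struct1 hg hy hz hx (by omega) (by omega) h1 h2 h3
    exact ⟨k, c, c2, a, b, a1, h5, a2⟩
  · obtain ⟨c, c2, a, b, a1, a2⟩ := struct1 hg hz hx hy (by omega) (by omega) h1 h2 h3
    exact ⟨k, c, c2, a, b, a1, h5, a2⟩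

theorem Rep.neg {w σ k c c2 : ℕ} {a b : ℤ} (h : Rep w σ k c c2 a b) :
    Rep w σ k c c2 (-a) (-b) := by
  obtain ⟨x, y, z, hx, hy, hz, hs, hσ, hk, hab, hcd, hgc, μ, ν, h1, h2⟩ := h
  exact ⟨x, y, z, hx, hy, hz, hs, hσ, hk, hab.neg_neg, by linear_combination hcd, hgc, -μ, -ν,
    by linear_combination h1, by linear_combination h2⟩

theorem Rep.gcd_dvd {w σ k c c2 : ℕ} {a b : ℤ} (h : Rep w σ k c c2 a b) {d : ℤ}
    (h1 : d ∣ k) (h2 : d ∣ a ^ 2 - a * b + b ^ 2) : d ∣ 3 * c ^ 2 * (Nat.gcd σ w : ℤ) ^ 2 := by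
  obtain ⟨x, y, z, -, -, -, -, -, hk, -, -, -, μ, ν, e1, e2⟩ := h
  have h3 : d ∣ (σ : ℤ) - w := h1.trans hk
  have h4 : d ∣ (c : ℤ) ^ 2 * (σ ^ 2 + σ * w + w ^ 2) := h2.trans ⟨μ ^ 2 - μ * ν + ν ^ 2, by
    linear_combination (-(a * μ - b * ν) - c * σ - c * w) * e1 +
      ((a * μ - b * ν) - (a * ν + b * μ - b * ν) + c * w) * e2⟩
  have h5 : d ∣ (w : ℤ) * (w * (3 * c ^ 2)) :=
    (dvd_sub h4 (h3.mul_left (c ^ 2 * (σ + 2 * w)))).trans (Dvd.intro 1 (by ring))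
  have h6 : d ∣ (σ : ℤ) * (w * (3 * c ^ 2)) :=
    (dvd_add h5 (h3.mul_left (3 * c ^ 2 * w))).trans (Dvd.intro 1 (by ring))
  have h7 : d ∣ (σ : ℤ) * (σ * (3 * c ^ 2)) :=
    (dvd_add h6 (h3.mul_left (3 * c ^ 2 * σ))).trans (Dvd.intro 1 (by ring))
  have h8 := dvd_gcd_mul (X := Nat.gcd σ w * (3 * c ^ 2)) (σ := σ) (w := w)
    ((dvd_gcd_mul (w := w) h7 (h6.trans (Dvd.intro 1 (by ring)))).trans (Dvd.intro 1 (by ring)))
    ((dvd_gcd_mul h6 h5).trans (Dvd.intro 1 (by ring)))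
  exact h8.trans (Dvd.intro 1 (by ring))

theorem spacing {w U k c c2 σ τ : ℕ} (hc : 1 ≤ c) {a b : ℤ} (hg : Good w U σ)
    (h : Rep w σ k c c2 a b) (h' : Rep w τ k c c2 a b) (hlt : τ < σ) :
    w ≤ 3 * U ^ 3 * c2 * c ^ 3 * (σ - τ) := by
  have hgd := @Rep.gcd_dvd _ _ _ _ _ _ _ h
  obtain ⟨x, y, z, hx, hy, hz, hs, hσ, hk, hab, hcd, hgc, μ, ν, e1, e2⟩ := h
  obtain ⟨-, -, -, -, -, -, -, -, hk', -, -, -, μ', ν', e3, e4⟩ := h'
  obtain ⟨g1, g2, g3, g4, -⟩ := hg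
  obtain ⟨N, hN⟩ : ∃ N : ℕ, a ^ 2 - a * b + b ^ 2 = N :=
    ⟨_, (Int.toNat_of_nonneg (norm_pos hab).le).symm⟩
  obtain ⟨u, v, huv⟩ := hab
  have h1 : N ∣ c * (σ - τ) := by
    rw [← Int.natCast_dvd_natCast, Nat.cast_mul, Nat.cast_sub hlt.le, ← hN]
    exact ⟨u * (μ - μ') - (u + v) * (ν - ν'), by
      linear_combination (-(c * (σ - τ))) * huv - (u * a + v * b) * (e1 - e3) -
        (u * b - (u + v) * a) * (e2 - e4)⟩
  have h2 : k ∣ c * (σ - τ) := Dvd.dvd.mul_left (by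
    rw [← Int.natCast_dvd_natCast, Nat.cast_sub hlt.le]
    exact (dvd_sub hk hk').trans (Dvd.intro 1 (by ring))) _
  have h3 : Nat.lcm k N ≤ c * (σ - τ) :=
    Nat.le_of_dvd (Nat.mul_pos hc (by omega)) (Nat.lcm_dvd h2 h1)
  have hg0 : 0 < Nat.gcd σ w := Nat.gcd_pos_of_pos_right _ (by omega)
  have h4 : Nat.gcd k N ≤ 3 * c ^ 2 * U ^ 2 := by
    have h5 : Nat.gcd k N ∣ 3 * c ^ 2 * Nat.gcd σ w ^ 2 := by
      exact_mod_cast hgd (Int.natCast_dvd_natCast.2 (Nat.gcd_dvd_left k N))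
        (hN ▸ Int.natCast_dvd_natCast.2 (Nat.gcd_dvd_right k N))
    exact (Nat.le_of_dvd (by positivity) h5).trans (by gcongr)
  have hzw : z < w := lt_of_pow_lt_pow_left₀ 3 (by omega) (by have := pow_pos hx 3; omega)
  have h5 : c * (x + y) = c2 * (k * N) := by
    rw [hN] at hcd
    rw [← mul_assoc]
    exact_mod_cast hcd
  calc w ≤ U * (c * (x + y)) :=
        g3.trans (Nat.mul_le_mul_left _ (le_trans (by omega) (Nat.le_mul_of_pos_left _ hc)))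
    _ = U * (c2 * (Nat.gcd k N * Nat.lcm k N)) := by rw [h5, Nat.gcd_mul_lcm]
    _ ≤ U * (c2 * (3 * c ^ 2 * U ^ 2 * (c * (σ - τ)))) := by gcongr
    _ = _ := by ring

open Classical in
theorem mult (w U k c c2 : ℕ) (hc : 1 ≤ c) (a b : ℤ) :
    ((range (3 * w)).filter fun σ => Good w U σ ∧ Rep w σ k c c2 a b).card ≤
      6 * U ^ 3 * c2 * c ^ 3 + 1 := by
  obtain ⟨X, hX⟩ : ∃ X, X = 3 * U ^ 3 * c2 * c ^ 3 := ⟨_, rfl⟩
  rw [show 6 * U ^ 3 * c2 * c ^ 3 = 2 * X by rw [hX]; ring, ← card_range (2 * X + 1)]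
  have key : ∀ σ τ : ℕ, Good w U σ → w < τ → Rep w σ k c c2 a b → Rep w τ k c c2 a b → τ < σ →
      (τ - w) * X / w < (σ - w) * X / w := by
    intro σ τ h1 h2 h3 h4 h5
    have h6 := hX ▸ spacing hc h1 h3 h4 h5
    have hw : 0 < w := by have := h1.1; have := h1.2.1; omega
    rw [Nat.lt_iff_add_one_le, ← Nat.add_div_right _ hw]
    refine Nat.div_le_div_right ?_
    rw [show σ - w = (τ - w) + (σ - τ) by omega, add_mul, mul_comm (σ - τ)]
    omega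
  refine card_le_card_of_injOn (fun σ => (σ - w) * X / w) (fun σ hσ => ?_) fun σ hσ τ hτ h => ?_
  · obtain ⟨-, ⟨g1, g2, -⟩, -⟩ := mem_filter.1 (mem_coe.1 hσ)
    refine mem_coe.2 (mem_range.2 (Nat.lt_succ_of_le (Nat.div_le_of_le_mul ?_)))
    rw [← mul_assoc]
    exact Nat.mul_le_mul_right _ (by omega)
  · obtain ⟨-, a1, a2⟩ := mem_filter.1 (mem_coe.1 hσ)
    obtain ⟨-, a3, a4⟩ := mem_filter.1 (mem_coe.1 hτ)
    rcases lt_trichotomy σ τ with h1 | h1 | h1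
    · exact absurd h (key τ σ a3 a1.1 a4 a2 h1).ne
    · exact h1
    · exact absurd h (key σ τ a1 a3.1 a2 a4 h1).ne'

end Pool.Agent.Lib.MP_9c5702_nt.Cube
end

-- part Pool.Agent.Lib.MP_9c5702_nt.Cube.TK
section

/-! Almost every pair has a usable direction. -/

set_option autoImplicit false

namespace Pool.Agent.Lib.MP_9c5702_nt.Cube

open Finset

namespace TKA

/-- the number of directions `l < L` with `r ∣ a + l b` -/
noncomputable def nu (L : ℕ) (b : ℤ) (r : ℕ) (a : ℤ) : ℝ :=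
  ∑ l ∈ range L, if (r : ℤ) ∣ a + l * b then 1 else 0

theorem nu_nonneg (L : ℕ) (b : ℤ) (r : ℕ) (a : ℤ) : 0 ≤ nu L b r a :=
  sum_nonneg fun _ _ => by positivity

theorem nu_le {L r : ℕ} {b : ℤ} (hr : r.Prime) (hL : L ≤ r) (hb : ¬ (r : ℤ) ∣ b) (a : ℤ) :
    nu L b r a ≤ 1 := by
  rw [nu, sum_boole, Nat.cast_le_one, card_le_one]
  intro l hl l' hl'
  simp only [mem_filter, mem_range] at hl hl'
  have h : (r : ℤ) ∣ ((l : ℤ) - l') * b := by
    have := dvd_sub hl.2 hl'.2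
    rwa [add_sub_add_left_eq_sub, ← sub_mul] at this
  have := Int.eq_zero_of_abs_lt_dvd (((Nat.prime_iff_prime_int.1 hr).dvd_or_dvd h).resolve_right hb)
    (abs_lt.2 ⟨by omega, by omega⟩)
  omega

theorem nu_per (L : ℕ) (b : ℤ) (r : ℕ) : Function.Periodic (nu L b r) r := fun a => by
  simp only [nu, add_right_comm a (r : ℤ), dvd_add_self_right]

theorem sum_ind {r : ℕ} (hr : 0 < r) (c : ℤ) :
    ∑ x ∈ range r, (if (r : ℤ) ∣ (x : ℤ) + c then (1 : ℝ) else 0) = 1 := by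
  rw [← sum_Ico_period (fun x => if (r : ℤ) ∣ x + c then (1 : ℝ) else 0)
    (fun a => by simp only [add_right_comm a (r : ℤ), dvd_add_self_right]) (-c),
    sum_eq_single (-c)]
  · simp
  · intro x hx hn
    rw [mem_Ico] at hx
    exact if_neg fun h => hn (by
      have := Int.eq_zero_of_abs_lt_dvd h (abs_lt.2 ⟨by omega, by omega⟩)
      omega)
  · intro h
    exact absurd (mem_Ico.2 ⟨le_rfl, by omega⟩) h

theorem sum_nu (L : ℕ) (b : ℤ) {r : ℕ} (hr : 0 < r) : ∑ x ∈ range r, nu L b r x = L := by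
  simp only [nu]
  rw [sum_comm]
  simp only [sum_ind hr]
  simp

theorem sum_nu_le (L : ℕ) (b : ℤ) {r : ℕ} (hr : 0 < r) (a0 : ℤ) (N : ℕ) :
    ∑ a ∈ Ico a0 (a0 + N), nu L b r a ≤ L * ((N : ℝ) / r + 1) := by
  simp only [nu]
  rw [sum_comm]
  refine (sum_le_card_nsmul _ _ ((N : ℝ) / r + 1) fun l _ => ?_).trans_eq
    (by rw [card_range, nsmul_eq_mul])
  rw [sum_boole]
  exact card_dvd_le hr _ _ _

theorem card_ex (D : Finset ℕ) {M : ℕ} (hM : 0 < M) (hD : ∀ δ ∈ D, M ≤ δ) {L N : ℕ} {b a0 : ℤ}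
    {s : Finset ℤ} (hs : ∀ a ∈ s, a ∈ Ico a0 (a0 + N) ∧
      ∃ l ∈ range L, ∃ δ ∈ D, (δ : ℤ) ∣ a + l * b) :
    (s.card : ℝ) ≤ L * D.card * ((N : ℝ) / M + 1) := by
  have h : s ⊆
      (range L ×ˢ D).biUnion fun p => (Ico a0 (a0 + N)).filter fun a => (p.2 : ℤ) ∣ a + p.1 * b := by
    intro a ha
    obtain ⟨h1, l, h2, δ, h3, h4⟩ := hs a ha
    exact mem_biUnion.2 ⟨(l, δ), mem_product.2 ⟨h2, h3⟩, mem_filter.2 ⟨h1, h4⟩⟩
  refine (Nat.cast_le.2 ((card_le_card h).trans card_biUnion_le)).trans ?_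
  rw [Nat.cast_sum]
  refine (sum_le_card_nsmul _ _ ((N : ℝ) / M + 1) fun p hp => ?_).trans_eq
    (by rw [card_product, card_range, nsmul_eq_mul, Nat.cast_mul])
  have h1 := hD _ (mem_product.1 hp).2
  refine (card_dvd_le (hM.trans_le h1) _ _ _).trans ?_
  gcongr

theorem card_small {V : ℕ} (hV : 0 < V) {A L : ℕ} {b : ℤ} {s : Finset ℤ}
    (hs : ∀ a ∈ s, ∃ l ∈ range L, (V : ℤ) * |a + l * b| < A) :
    (s.card : ℝ) ≤ L * (2 * ((A : ℝ) / V) + 1) := by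
  have h : s ⊆
      (range L).biUnion fun l => Icc (-(l * b) - (A / V : ℕ)) (-(l * b) + (A / V : ℕ)) := by
    intro a ha
    obtain ⟨l, h2, h3⟩ := hs a ha
    have h4 : |a + l * b| ≤ (A / V : ℕ) := by
      rw [Int.natCast_div]
      exact Int.le_ediv_of_mul_le (by omega) (by linarith)
    rw [abs_le] at h4
    exact mem_biUnion.2 ⟨l, h2, mem_Icc.2 ⟨by linarith [h4.1], by linarith [h4.2]⟩⟩
  refine (Nat.cast_le.2 ((card_le_card h).trans card_biUnion_le)).trans ?_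
  rw [Nat.cast_sum]
  refine (sum_le_card_nsmul _ _ (2 * ((A : ℝ) / V) + 1) fun l _ => ?_).trans_eq
    (by rw [card_range, nsmul_eq_mul])
  have h1 : (Icc (-(l * b) - (A / V : ℕ)) (-(l * b) + (A / V : ℕ))).card = 2 * (A / V) + 1 := by
    rw [Int.card_Icc]
    omega
  rw [h1]
  push_cast
  linarith [Nat.cast_div_le (α := ℝ) (m := A) (n := V)]

end TKA

open TKA

theorem tk (R : Finset ℕ) {L Y : ℕ} (hR : ∀ r ∈ R, r.Prime ∧ L ≤ r ∧ r ≤ Y) {b : ℤ}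
    (hb : ∀ r ∈ R, ¬ (r : ℤ) ∣ b) (a0 : ℤ) (N : ℕ) :
    (((Ico a0 (a0 + N)).filter fun a => ∀ r ∈ R, ∀ l ∈ range L, ¬ (r : ℤ) ∣ a + l * b).card : ℝ) *
        (∑ r ∈ R, (L : ℝ) / r) ^ 2 ≤
      2 * (∑ r ∈ R, (L : ℝ) / r) * N + L * R.card + R.card ^ 2 * Y ^ 2 := by
  obtain ⟨X, hX⟩ : ∃ X : ℕ → ℤ → ℝ, ∀ r a, X r a = nu L b r a - L / r := ⟨_, fun _ _ => rfl⟩
  have h0 : ∀ r ∈ R, (0 : ℝ) < r := fun r hr => by exact_mod_cast (hR r hr).1.pos
  have h1 : ∀ r ∈ R, (0 : ℝ) ≤ L / r ∧ (L : ℝ) / r ≤ 1 := fun r hr =>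
    ⟨by positivity, (div_le_one (h0 r hr)).2 (by exact_mod_cast (hR r hr).2.1)⟩
  have h2 : ∀ r ∈ R, ∀ a, nu L b r a ≤ 1 := fun r hr =>
    nu_le (hR r hr).1 (hR r hr).2.1 (hb r hr)
  have h3 : ∀ r ∈ R, ∀ a, |X r a| ≤ 1 := fun r hr a => by
    rw [hX, abs_le]
    constructor <;> linarith [h1 r hr, h2 r hr a, nu_nonneg L b r a]
  have h4 : ∀ r : ℕ, Function.Periodic (X r) r := fun r a => by rw [hX, hX, nu_per]
  have h5 : ∀ r ∈ R, ∑ x ∈ range r, X r x = 0 := fun r hr => by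
    have := (h0 r hr).ne'
    simp only [hX, sum_sub_distrib, sum_nu L b (hR r hr).1.pos, sum_const, card_range, nsmul_eq_mul]
    field_simp
    ring
  have h6 : ∀ r ∈ R, ∀ r' ∈ R, ∑ a ∈ Ico a0 (a0 + N), X r a * X r' a ≤
      (if r = r' then 2 * ((L : ℝ) / r) * N + L else 0) + Y ^ 2 := by
    intro r hr r' hr'
    split_ifs with e
    · subst e
      have : ∑ a ∈ Ico a0 (a0 + N), X r a * X r a ≤
          ∑ a ∈ Ico a0 (a0 + N), (nu L b r a + L / r) := sum_le_sum fun a _ => by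
        rw [hX]
        nlinarith [h1 r hr, h2 r hr a, nu_nonneg L b r a]
      rw [sum_add_distrib, sum_const, Int.card_Ico, add_sub_cancel_left, Int.toNat_natCast,
        nsmul_eq_mul] at this
      have h := sum_nu_le L b (hR r hr).1.pos a0 N
      rw [show (L : ℝ) * (N / r + 1) = L / r * N + L by ring] at h
      linarith [sq_nonneg (Y : ℝ)]
    · have hc := (Nat.coprime_primes (hR r hr).1 (hR r' hr').1).2 e
      have := abs_sum_le_of_mean_zero (m := r * r') (K := 1)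
        (Nat.mul_pos (hR r hr).1.pos (hR r' hr').1.pos) (fun a => X r a * X r' a)
        (fun a => by
          have e1 := (h4 r).int_mul r' a
          have e2 := (h4 r').int_mul r a
          simp only [Int.cast_id] at e1 e2
          simp only [Nat.cast_mul]
          rw [e2, mul_comm (r : ℤ), e1])
        (fun a => by
          rw [abs_mul]
          exact mul_le_one₀ (h3 r hr a) (abs_nonneg _) (h3 r' hr' a))
        (by rw [sum_crt hc _ _ (h4 r) (h4 r'), h5 r hr, zero_mul]) a0 N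
      refine ((le_abs_self _).trans this).trans ?_
      rw [mul_one, zero_add, sq, Nat.cast_mul]
      gcongr
      exacts [(hR r hr).2.2, (hR r' hr').2.2]
  calc _ = ∑ a ∈ (Ico a0 (a0 + N)).filter
        fun a => ∀ r ∈ R, ∀ l ∈ range L, ¬ (r : ℤ) ∣ a + l * b, (∑ r ∈ R, X r a) ^ 2 := by
        rw [← nsmul_eq_mul, ← sum_const]
        refine sum_congr rfl fun a ha => ?_
        rw [← neg_sq, ← sum_neg_distrib]
        congr 1
        refine sum_congr rfl fun r hr => ?_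
        rw [hX, nu, sum_eq_zero fun l hl => if_neg ((mem_filter.1 ha).2 r hr l hl), zero_sub]
    _ ≤ ∑ a ∈ Ico a0 (a0 + N), (∑ r ∈ R, X r a) ^ 2 :=
        sum_le_sum_of_subset_of_nonneg (filter_subset _ _) fun _ _ _ => sq_nonneg _
    _ = ∑ r ∈ R, ∑ r' ∈ R, ∑ a ∈ Ico a0 (a0 + N), X r a * X r' a := by
        simp only [sq, sum_mul_sum]
        rw [sum_comm]
        exact sum_congr rfl fun r _ => sum_comm
    _ ≤ ∑ r ∈ R, (2 * ((L : ℝ) / r) * N + L + R.card * Y ^ 2) := sum_le_sum fun r hr => by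
        refine (sum_le_sum (h6 r hr)).trans_eq ?_
        rw [sum_add_distrib, sum_ite_eq, if_pos hr, sum_const, nsmul_eq_mul]
    _ = _ := by
        simp only [sum_add_distrib, sum_const, nsmul_eq_mul, ← sum_mul, ← mul_sum]
        ring

theorem TKA.row {k A V L Y Z T N : ℕ} {u z : ℝ} {R : Finset ℕ} {b a0 : ℤ} (hb0 : b ≠ 0)
    (hR : ∀ r ∈ R, r.Prime ∧ Z ≤ r ∧ r ≤ Y) (hL : L ≤ Z) (hTZ : T ≤ Z) (hRc : 2 * Z ≤ R.card)
    (hk : 0 < k) (hkT : k.divisors.card ≤ T) (hbT : b.natAbs.divisors.card ≤ T) (hV : 0 < V)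
    (hZ : 0 < Z) (hN : (N : ℝ) ≤ 3 * A) (z1 : 1 ≤ z) (hz : z * Y ≤ Z * L) (hu : A ≤ u * z)
    (n1 : (L : ℝ) * Y ≤ u) (n2 : (Y : ℝ) ^ 2 * Y ^ 2 ≤ u) (n3 : (L : ℝ) * Y * (A / Z ^ 2) ≤ u)
    (n4 : (L : ℝ) * T * (A / V) ≤ u) (n5 : (L : ℝ) * T ≤ u) (n6 : (L : ℝ) * (A / V) ≤ u)
    (n7 : (L : ℝ) ≤ u) {s : Finset ℤ}
    (hs : ∀ a ∈ s, a ∈ Ico a0 (a0 + N) ∧ ∀ l ∈ range L, ∀ r ∈ R, ¬ Dir k A V r l a b) :
    (s.card : ℝ) ≤ 19 * u := by
  classical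
  have u0 : 0 ≤ u := le_trans (by positivity) n7
  have hRY : R.card ≤ Y := by
    refine (card_le_card fun r hr => mem_Icc.2 ⟨(hR r hr).1.pos, (hR r hr).2.2⟩).trans_eq ?_
    rw [Nat.card_Icc, Nat.add_sub_cancel]
  have ex : ∀ (D : Finset ℕ) (m M : ℕ), D.card ≤ m → 0 < M → (∀ δ ∈ D, M ≤ δ) →
      (L : ℝ) * m * (A / M) ≤ u → (L : ℝ) * m ≤ u →
      ((s.filter fun a => ∃ l ∈ range L, ∃ δ ∈ D, (δ : ℤ) ∣ a + l * b).card : ℝ) ≤ 4 * u := by
    intro D m M h1 h2 h3 h4 h5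
    refine (card_ex D h2 h3 fun a ha => ⟨(hs a (mem_filter.1 ha).1).1, (mem_filter.1 ha).2⟩).trans ?_
    calc _ ≤ (L : ℝ) * m * (3 * A / M + 1) := by gcongr
      _ = 3 * ((L : ℝ) * m * (A / M)) + L * m := by ring
      _ ≤ 4 * u := by linarith
  set R' := R.filter fun r : ℕ => ¬ (r : ℤ) ∣ b with hR'
  have d1 : ((s.filter fun a => ∀ r ∈ R', ∀ l ∈ range L, ¬ (r : ℤ) ∣ a + l * b).card : ℝ) ≤
      8 * u := by
    have h1 : (R.filter fun r : ℕ => (r : ℤ) ∣ b).card ≤ T :=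
      (card_le_card fun r hr => Nat.mem_divisors.2
        ⟨Int.natCast_dvd.1 (mem_filter.1 hr).2, by omega⟩).trans hbT
    have h2 : Z ≤ R'.card := by
      have e1 := card_filter_add_card_filter_not (s := R) fun r : ℕ => (r : ℤ) ∣ b
      rw [← hR'] at e1
      omega
    have h3 : R'.card ≤ Y := (card_filter_le _ _).trans hRY
    have h4 := tk R' (L := L) (Y := Y) (fun r hr => ⟨(hR r (mem_filter.1 hr).1).1,
      hL.trans (hR r (mem_filter.1 hr).1).2.1, (hR r (mem_filter.1 hr).1).2.2⟩)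
      (fun r hr => (mem_filter.1 hr).2) a0 N
    have h5 : z ≤ ∑ r ∈ R', (L : ℝ) / r := by
      refine le_trans ?_ (card_nsmul_le_sum R' _ ((L : ℝ) / Y) fun r hr => ?_)
      · rw [nsmul_eq_mul, ← mul_div_assoc, le_div_iff₀ (by exact_mod_cast (by omega : 0 < Y))]
        exact hz.trans (by gcongr)
      · exact div_le_div_of_nonneg_left (by positivity)
          (by exact_mod_cast (hR r (mem_filter.1 hr).1).1.pos)
          (by exact_mod_cast (hR r (mem_filter.1 hr).1).2.2)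
    have h6 : (L : ℝ) * R'.card ≤ u := le_trans (by gcongr) n1
    have h7 : (R'.card : ℝ) ^ 2 * (Y : ℝ) ^ 2 ≤ u := le_trans (by gcongr) n2
    refine le_trans (Nat.cast_le.2 (card_le_card (t := (Ico a0 (a0 + N)).filter fun a =>
      ∀ r ∈ R', ∀ l ∈ range L, ¬ (r : ℤ) ∣ a + l * b) fun a ha =>
        mem_filter.2 ⟨(hs a (mem_filter.1 ha).1).1, (mem_filter.1 ha).2⟩)) ?_
    generalize ∑ r ∈ R', (L : ℝ) / r = x at h4 h5
    have s1 : 1 ≤ x := z1.trans h5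
    refine le_of_mul_le_mul_right (h4.trans ?_) (show 0 < x ^ 2 by positivity)
    have k1 : (N : ℝ) ≤ 3 * (u * x) := by linarith [mul_le_mul_of_nonneg_left h5 u0]
    have k2 := mul_le_mul_of_nonneg_left k1 (show 0 ≤ 2 * x by linarith)
    have k3 : u ≤ u * x ^ 2 := le_mul_of_one_le_right u0 (one_le_pow₀ s1)
    linarith
  have d2 := ex (R.image (· ^ 2)) Y (Z ^ 2) (card_image_le.trans hRY) (by positivity)
    (fun δ hδ => by
      obtain ⟨r, hr, rfl⟩ := mem_image.1 hδ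
      exact Nat.pow_le_pow_left (hR r hr).2.1 2) (by rwa [Nat.cast_pow]) n1
  have d3 := ex (k.divisors.filter (V ≤ ·)) T V ((card_filter_le _ _).trans hkT) hV
    (fun δ hδ => (mem_filter.1 hδ).2) n4 n5
  have d4 := card_small hV (A := A) (L := L) (b := b)
    (s := s.filter fun a => ∃ l ∈ range L, (V : ℤ) * |a + l * b| < A) fun a ha => (mem_filter.1 ha).2
  have key : ∀ s1 s2 s3 s4 : Finset ℤ, (s1.card : ℝ) ≤ 8 * u → (s2.card : ℝ) ≤ 4 * u →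
      (s3.card : ℝ) ≤ 4 * u → (s4.card : ℝ) ≤ L * (2 * ((A : ℝ) / V) + 1) →
      s ⊆ (s1 ∪ s2) ∪ (s3 ∪ s4) → (s.card : ℝ) ≤ 19 * u := fun s1 s2 s3 s4 a1 a2 a3 a4 a5 => by
    have : (s.card : ℝ) ≤ s1.card + s2.card + (s3.card + s4.card) := by
      exact_mod_cast (card_le_card a5).trans ((card_union_le _ _).trans
        (add_le_add (card_union_le _ _) (card_union_le _ _)))
    linarith
  refine key _ _ _ _ d1 d2 d3 d4 ?_
  intro a ha
  simp only [mem_union, mem_filter (s := s), ha, true_and]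
  by_contra hc
  simp only [not_or] at hc
  obtain ⟨⟨e1, e2⟩, e3, e4⟩ := hc
  refine e1 fun r hr l hl hd => (hs a ha).2 l hl r (mem_filter.1 hr).1 ⟨hd, fun h => e2
    ⟨l, hl, r ^ 2, mem_image_of_mem _ (mem_filter.1 hr).1, by exact_mod_cast h⟩, ?_,
    not_lt.1 fun h => e4 ⟨l, hl, h⟩⟩
  by_contra h
  exact e3 ⟨l, hl, Int.gcd k (a + l * b), mem_filter.2 ⟨Nat.mem_divisors.2
    ⟨Int.natCast_dvd_natCast.1 (Int.gcd_dvd_left _ _), by omega⟩, (not_le.1 h).le⟩,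
    Int.gcd_dvd_right _ _⟩

theorem TKA.total {A : ℕ} {u y : ℝ} (hA : 1 ≤ A) (u1 : 1 ≤ u) (hy : 100 ≤ y) (P : ℤ × ℤ → Prop)
    [DecidablePred P] (h : ∀ b : ℤ, b ≠ 0 → b.natAbs ≤ A → ∀ s : Finset ℤ,
      (∀ a ∈ s, a ∈ Ico (-(A : ℤ)) (-(A : ℤ) + (2 * A + 1 : ℕ)) ∧ P (a, b)) →
        (s.card : ℝ) ≤ 19 * u) :
    ((((Icc (-(A : ℤ)) A) ×ˢ (Icc (-(A : ℤ)) A)).filter P).card : ℝ) ≤ A * u * y := by
  have hI : Icc (-(A : ℤ)) A = Ico (-(A : ℤ)) (-(A : ℤ) + (2 * A + 1 : ℕ)) := by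
    ext x
    simp only [mem_Icc, mem_Ico]
    omega
  have hc : ((Icc (-(A : ℤ)) A).card : ℝ) ≤ 3 * A := by
    rw [hI, Int.card_Ico, add_sub_cancel_left, Int.toNat_natCast]
    exact_mod_cast (by omega : 2 * A + 1 ≤ 3 * A)
  have row : ∀ b ∈ Icc (-(A : ℤ)) A, (((Icc (-(A : ℤ)) A).filter fun a => P (a, b)).card : ℝ) ≤
      (if b = 0 then 3 * (A : ℝ) else 0) + 19 * u := fun b hb => by
    rw [mem_Icc] at hb
    split_ifs with hb0
    · exact (Nat.cast_le.2 (card_filter_le _ _)).trans (by linarith)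
    · rw [zero_add]
      exact h b hb0 (by omega) _ fun a ha => ⟨hI ▸ (mem_filter.1 ha).1, (mem_filter.1 ha).2⟩
  simp only [card_filter] at row
  rw [card_filter, sum_product_right, Nat.cast_sum]
  refine (sum_le_sum row).trans ?_
  rw [sum_add_distrib, sum_ite_eq', if_pos (mem_Icc.2 ⟨by omega, by omega⟩), sum_const,
    nsmul_eq_mul]
  have e3 := mul_le_mul_of_nonneg_left hy (show 0 ≤ A * u by positivity)
  have e4 := mul_le_mul_of_nonneg_right hc (show 0 ≤ 19 * u by positivity)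
  have e5 := le_mul_of_one_le_right (show (0 : ℝ) ≤ A by positivity) u1
  linarith

theorem TKA.big {t x : ℝ} (ht : 1 ≤ t) {n : ℕ} (hx : t ^ n ≤ x) (j m : ℕ) (h : m + j ≤ n) :
    t ^ m ≤ x / t ^ j := by
  rw [le_div_iff₀ (by positivity), ← pow_add]
  exact (pow_le_pow_right₀ ht h).trans hx

theorem TKA.small {t x : ℝ} (ht : 1 ≤ t) (hx : 0 ≤ x) (j m n : ℕ) (h : m + j ≤ n) :
    t ^ m * (x / t ^ n) ≤ x / t ^ j := by
  rw [← mul_div_assoc, div_le_div_iff₀ (by positivity) (by positivity), mul_right_comm, ← pow_add,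
    mul_comm]
  exact mul_le_mul_of_nonneg_left (pow_le_pow_right₀ ht h) hx

theorem TKA.gen {w T k A j l v z y n : ℕ} (hT : 100 ≤ T) (hdiv : Div w T) (hk : 1 ≤ k)
    (hkw : k ≤ w) (hA : T ^ n ≤ A) (hAw : A ≤ 2 * w) (R : Finset ℕ)
    (hR : ∀ r ∈ R, r.Prime ∧ T ^ z ≤ r ∧ r ≤ T ^ y) (hRc : 2 * T ^ z ≤ R.card)
    (e1 : l ≤ z) (e2 : 1 ≤ z) (e3 : j + 1 + y ≤ z + l) (e4 : l + y + (j + 1) ≤ n)
    (e5 : y * 2 + y * 2 + (j + 1) ≤ n) (e6 : l + y + (j + 1) ≤ z * 2) (e7 : l + 1 + (j + 1) ≤ v)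
    (e8 : l + 1 + (j + 1) ≤ n) (P : ℤ × ℤ → Prop) {_ : DecidablePred P}
    (hP : ∀ p, P p → ∀ i ∈ range (T ^ l), ∀ r ∈ R, ¬ Dir k A (T ^ v) r i p.1 p.2) :
    ((((Icc (-(A : ℤ)) A) ×ˢ (Icc (-(A : ℤ)) A)).filter P).card : ℝ) ≤ (A : ℝ) ^ 2 / T ^ j := by
  have T1 : 1 ≤ T := by omega
  have t100 : (100 : ℝ) ≤ T := by exact_mod_cast hT
  have t1 : (1 : ℝ) ≤ T := by linarith
  have hA' : (T : ℝ) ^ n ≤ A := by exact_mod_cast hA
  have A1 : 1 ≤ A := (Nat.one_le_pow _ _ T1).trans hA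
  have hw : ∀ n, 1 ≤ n → n ≤ 2 * w → n.divisors.card ≤ T := fun n h1 h2 =>
    hdiv n h1 (h2.trans (Nat.mul_le_mul (by norm_num) (Nat.le_self_pow three_ne_zero w)))
  have B := big t1 hA' (j + 1)
  have S := small t1 (Nat.cast_nonneg A) (j + 1)
  refine (total (u := A / T ^ (j + 1)) A1 (by simpa using B 0 (by omega)) t100 P
    fun b hb0 hb s hs => ?_).trans_eq (by field_simp; ring)
  refine row (z := T ^ (j + 1)) hb0 hR (Nat.pow_le_pow_right T1 e1)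
    (Nat.le_self_pow (by omega) T) hRc hk (hw k hk (by omega)) (hw _ (by omega) (by omega))
    (Nat.pow_pos T1) (Nat.pow_pos T1) (by exact_mod_cast (by omega : 2 * A + 1 ≤ 3 * A))
    (one_le_pow₀ t1) ?_ (div_mul_cancel₀ _ (by positivity)).ge ?_ ?_ ?_ ?_ ?_ ?_ ?_
    fun a ha => ⟨(hs a ha).1, hP _ (hs a ha).2⟩ <;>
    simp only [Nat.cast_pow, ← pow_add, ← pow_mul, ← pow_succ]
  exacts [pow_le_pow_right₀ t1 e3, B _ e4, B _ e5, S _ _ e6, S _ _ e7, B _ e8, S _ _ (by omega),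
    B _ (by omega)]

open Classical in
theorem count_bad {w T k A : ℕ} (hT : 100 ≤ T) (hdiv : Div w T) (hk : 1 ≤ k) (hkw : k ≤ w)
    (hA : T ^ 400000 ≤ A) (hAw : A ≤ 2 * w) (R : Finset ℕ)
    (hR : ∀ r ∈ R, r.Prime ∧ T ^ 89999 ≤ r ∧ r ≤ T ^ 90000) (hRc : 2 * T ^ 89999 ≤ R.card) :
    ((((Icc (-(A : ℤ)) A) ×ˢ (Icc (-(A : ℤ)) A)).filter fun p : ℤ × ℤ =>
      ∀ l ∈ range (T ^ 144), ∀ r ∈ R, ¬ Dir k A (T ^ 290) r l p.1 p.2).card : ℝ) ≤
      (A : ℝ) ^ 2 / T ^ 140 :=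
  le_trans (gen (j := 142) (l := 144) (v := 290) hT hdiv hk hkw hA hAw R hR hRc (by omega)
    (by omega) (by omega) (by omega) (by omega) (by omega) (by omega) (by omega) _ fun _ h => h)
    (div_le_div_of_nonneg_left (sq_nonneg _) (pow_pos (Nat.cast_pos.2 (by omega)) _)
      (pow_le_pow_right₀ (Nat.one_le_cast.2 (by omega)) (show 140 ≤ 142 by omega)))

end Pool.Agent.Lib.MP_9c5702_nt.Cube
end

-- part Pool.Agent.Lib.MP_9c5702_nt.Cube.Primes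
section

/-! Supply of primes and the divisor bound. -/

set_option autoImplicit false

namespace Pool.Agent.Lib.MP_9c5702_nt.Cube

open Finset Filter

private theorem log_le_sqrt {x : ℝ} (hx : 0 < x) : Real.log x ≤ 2 * √x := by
  have h1 := Real.log_le_sub_one_of_pos (Real.sqrt_pos.2 hx)
  rw [Real.log_sqrt hx.le] at h1
  linarith

private theorem ev_sqrt (M : ℝ) : ∀ᶠ T : ℕ in atTop, M ≤ √(T : ℝ) :=
  (Real.tendsto_sqrt_atTop.comp tendsto_natCast_atTop_atTop).eventually_ge_atTop M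

theorem primes_supply (d : ℕ) : ∀ᶠ T : ℕ in atTop, ∃ R : Finset ℕ,
    (∀ r ∈ R, r.Prime ∧ r % 3 = 2 ∧ T ^ d < r ∧ r ≤ T ^ (d + 1)) ∧ 3 * T ^ d ≤ R.card := by
  have hu : IsUnit (2 : ZMod 3) := by decide
  have h1 := Pool.Agent.Shared.PNT.pnt_theta_residueClass (q := 3) hu
  have ht : (Nat.totient 3 : ℝ)⁻¹ = 1 / 2 := by
    rw [Nat.totient_prime Nat.prime_three]
    norm_num
  rw [ht] at h1
  have h2 := h1.eventually (lt_mem_nhds (show (1 / 3 : ℝ) < 1 / 2 by norm_num))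
  have h3 : Tendsto (fun T : ℕ => ((T ^ (d + 1) : ℕ) : ℝ)) atTop atTop :=
    tendsto_natCast_atTop_atTop.comp (tendsto_pow_atTop (Nat.succ_ne_zero d))
  filter_upwards [h3.eventually h2, ev_sqrt (24 * (d + 1)), eventually_ge_atTop 2] with T hT hs hT2
  rw [Nat.floor_natCast] at hT
  set P := (Icc 1 (T ^ (d + 1))).filter fun p : ℕ => p.Prime ∧ (p : ZMod 3) = 2 with hP
  have hT0 : (0 : ℝ) < T := by exact_mod_cast (by omega : 0 < T)
  have hx : (0 : ℝ) < ((T ^ (d + 1) : ℕ) : ℝ) := by positivity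
  rw [lt_div_iff₀ hx] at hT
  have hlog : ∑ p ∈ P, Real.log p ≤ P.card * ((d + 1) * (2 * √(T : ℝ))) := by
    have : ∀ p ∈ P, Real.log p ≤ (d + 1) * (2 * √(T : ℝ)) := by
      intro p hp
      obtain ⟨hp1, hp2⟩ := mem_Icc.1 (mem_filter.1 hp).1
      have a1 : Real.log p ≤ Real.log ((T : ℝ) ^ (d + 1)) :=
        Real.log_le_log (by exact_mod_cast hp1) (by exact_mod_cast hp2)
      rw [Real.log_pow] at a1
      push_cast at a1
      exact a1.trans (mul_le_mul_of_nonneg_left (log_le_sqrt hT0) (by positivity))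
    simpa using sum_le_card_nsmul P _ _ this
  refine ⟨P.filter fun p => T ^ d < p, ?_, ?_⟩
  · intro r hr
    obtain ⟨hr1, hr2⟩ := mem_filter.1 hr
    obtain ⟨hr3, hr4, hr5⟩ := mem_filter.1 hr1
    refine ⟨hr4, ?_, hr2, (mem_Icc.1 hr3).2⟩
    have : ((r : ℕ) : ZMod 3) = ((2 : ℕ) : ZMod 3) := hr5
    exact (ZMod.natCast_eq_natCast_iff' r 2 3).1 this
  · have a1 := card_filter_add_card_filter_not (s := P) fun p => T ^ d < p
    have a2 : (P.filter fun p => ¬ T ^ d < p).card ≤ T ^ d := by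
      have : (P.filter fun p => ¬ T ^ d < p) ⊆ Icc 1 (T ^ d) := by
        intro p hp
        obtain ⟨h1, h2⟩ := mem_filter.1 hp
        exact mem_Icc.2 ⟨(mem_Icc.1 (mem_filter.1 h1).1).1, not_lt.1 h2⟩
      simpa using card_le_card this
    have a3 : 4 * T ^ d ≤ P.card := by
      have hs0 : 0 < √(T : ℝ) := Real.sqrt_pos.2 hT0
      have b1 : ((T ^ (d + 1) : ℕ) : ℝ) = (T : ℝ) ^ d * (√(T : ℝ) * √(T : ℝ)) := by
        rw [Real.mul_self_sqrt hT0.le]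
        push_cast
        ring
      have b2 := hT.le.trans hlog
      rw [b1] at b2
      have hd : (0 : ℝ) < (d + 1) * (2 * √(T : ℝ)) := by positivity
      have b3 : 4 * (T : ℝ) ^ d * ((d + 1) * (2 * √(T : ℝ))) ≤
          1 / 3 * ((T : ℝ) ^ d * (√(T : ℝ) * √(T : ℝ))) := by
        have : 0 ≤ (T : ℝ) ^ d * √(T : ℝ) := by positivity
        nlinarith [mul_le_mul_of_nonneg_left hs this]
      have b4 := le_of_mul_le_mul_right (b3.trans b2) hd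
      exact_mod_cast b4
    omega

private theorem divisor_bound {ε : ℝ} (hε : 0 < ε) :
    ∃ C : ℝ, 1 ≤ C ∧ ∀ n : ℕ, n ≠ 0 → (n.divisors.card : ℝ) ≤ C * (n : ℝ) ^ ε := by
  have hl : 0 < Real.log 2 := Real.log_pos (by norm_num)
  set c : ℝ := 1 + 1 / (ε * Real.log 2) with hc
  have hc1 : 1 ≤ c := by rw [hc]; have : 0 < 1 / (ε * Real.log 2) := by positivity
                         linarith
  set L : ℕ := ⌈(2 : ℝ) ^ (1 / ε)⌉₊ with hL
  refine ⟨c ^ L, one_le_pow₀ hc1, fun n hn => ?_⟩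
  have key : ∀ p ∈ n.primeFactors, ((n.factorization p + 1 : ℕ) : ℝ) ≤
      (if p < L then c else 1) * (((p : ℝ) ^ n.factorization p) ^ ε) := by
    intro p hp
    have hp2 : (2 : ℝ) ≤ p := by exact_mod_cast (Nat.prime_of_mem_primeFactors hp).two_le
    set a := n.factorization p
    have ha0 : (0 : ℝ) ≤ a := Nat.cast_nonneg a
    split_ifs with h
    · have h1 : ((2 : ℝ) ^ a) ^ ε ≤ ((p : ℝ) ^ a) ^ ε := by gcongr
      have h2 : 1 + a * (ε * Real.log 2) ≤ ((2 : ℝ) ^ a) ^ ε := by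
        rw [Real.rpow_def_of_pos (by positivity), Real.log_pow]
        have := Real.add_one_le_exp (a * Real.log 2 * ε)
        nlinarith
      have h3 : ((a + 1 : ℕ) : ℝ) ≤ c * (1 + a * (ε * Real.log 2)) := by
        have hx : 0 < ε * Real.log 2 := by positivity
        have : c * (1 + a * (ε * Real.log 2)) =
            1 + a * (ε * Real.log 2) + 1 / (ε * Real.log 2) + a := by rw [hc]; field_simp; ring
        rw [this]; push_cast
        have : 0 < 1 / (ε * Real.log 2) := by positivity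
        nlinarith [mul_nonneg ha0 hx.le]
      exact h3.trans (mul_le_mul_of_nonneg_left (h2.trans h1) (by linarith))
    · have h1 : (2 : ℝ) ^ (1 / ε) ≤ p := by
        have : (L : ℝ) ≤ p := by exact_mod_cast not_lt.mp h
        exact (Nat.le_ceil _).trans this
      have h2 : (2 : ℝ) ≤ (p : ℝ) ^ ε := by
        have := Real.rpow_le_rpow (by positivity) h1 hε.le
        rwa [← Real.rpow_mul (by norm_num), one_div_mul_cancel hε.ne', Real.rpow_one] at this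
      have h3 : ((p : ℝ) ^ a) ^ ε = ((p : ℝ) ^ ε) ^ a := by
        rw [← Real.rpow_natCast, ← Real.rpow_natCast, ← Real.rpow_mul (by positivity),
          ← Real.rpow_mul (by positivity), mul_comm]
      rw [one_mul, h3]
      have h4 : ((a + 1 : ℕ) : ℝ) ≤ 2 ^ a := by exact_mod_cast Nat.lt_two_pow_self
      exact h4.trans (pow_le_pow_left₀ (by norm_num) h2 a)
  rw [Nat.card_divisors hn, Nat.cast_prod]
  refine (Finset.prod_le_prod (fun p _ => by positivity) key).trans ?_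
  rw [Finset.prod_mul_distrib, Real.finsetProd_rpow _ _ (fun p _ => by positivity)]
  have h5 : ∏ p ∈ n.primeFactors, (p : ℝ) ^ n.factorization p = n := by
    have := Nat.prod_factorization_pow_eq_self hn
    rw [Finsupp.prod, Nat.support_factorization] at this
    exact_mod_cast this
  rw [h5]
  refine mul_le_mul_of_nonneg_right ?_ (by positivity)
  rw [← Finset.prod_filter, Finset.prod_const]
  refine pow_le_pow_right₀ hc1 ?_
  calc (n.primeFactors.filter fun p => p < L).card ≤ (Finset.range L).card :=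
        Finset.card_le_card fun p hp => Finset.mem_range.mpr (Finset.mem_filter.mp hp).2
    _ = L := Finset.card_range L

theorem div_supply (N : ℕ) : ∀ᶠ T : ℕ in atTop, ∀ w : ℕ, w ≤ (T + 1) ^ N →
    Div w T ∧ ∑ k ∈ Icc 1 w, (1 : ℝ) / k ≤ T := by
  obtain ⟨C, hC1, hC⟩ := divisor_bound (ε := 1 / (2 * ((3 * N + 3 : ℕ) : ℝ))) (by positivity)
  filter_upwards [ev_sqrt (C + 1), ev_sqrt (2 * N + 2), eventually_ge_atTop 2] with T h1 h2 hT w hw
  have hT0 : (0 : ℝ) ≤ T := Nat.cast_nonneg T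
  have hs : √(T : ℝ) ≤ √((T : ℝ) + 1) := Real.sqrt_le_sqrt (by linarith)
  set s := √((T : ℝ) + 1) with hsdef
  have hss : s * s = T + 1 := Real.mul_self_sqrt (by linarith)
  have hN : (0 : ℝ) ≤ N := Nat.cast_nonneg N
  constructor
  · intro n hn1 hn2
    have a1 : n ≤ (T + 1) ^ (3 * N + 3) := by
      have b1 : w ^ 3 ≤ ((T + 1) ^ N) ^ 3 := Nat.pow_le_pow_left hw 3
      have b2 : 3 ^ 3 ≤ (T + 1) ^ 3 := Nat.pow_le_pow_left (by omega) 3
      calc n ≤ 27 * w ^ 3 := hn2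
        _ ≤ (T + 1) ^ 3 * ((T + 1) ^ N) ^ 3 := Nat.mul_le_mul b2 b1
        _ = _ := by ring
    have a2 : (n : ℝ) ^ (1 / (2 * ((3 * N + 3 : ℕ) : ℝ))) ≤ s := by
      have b1 : (n : ℝ) ≤ ((T : ℝ) + 1) ^ (3 * N + 3) := by exact_mod_cast a1
      refine (Real.rpow_le_rpow (Nat.cast_nonneg n) b1 (by positivity)).trans (le_of_eq ?_)
      rw [← Real.rpow_natCast, ← Real.rpow_mul (by linarith), hsdef, Real.sqrt_eq_rpow]
      congr 1
      have : (0 : ℝ) < ((3 * N + 3 : ℕ) : ℝ) := by positivity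
      field_simp
    have a3 := (hC n (by omega)).trans (mul_le_mul_of_nonneg_left a2 (by linarith))
    have a4 : C * s ≤ T := by nlinarith
    exact_mod_cast a3.trans a4
  · rcases Nat.eq_zero_or_pos w with rfl | hw0
    · simp
    have a1 := harmonic_le_one_add_log w
    rw [harmonic_eq_sum_Icc] at a1
    push_cast at a1
    have a2 : Real.log w ≤ N * (2 * s) := by
      have b1 : (w : ℝ) ≤ ((T : ℝ) + 1) ^ N := by exact_mod_cast hw
      have b2 := Real.log_le_log (by exact_mod_cast hw0) b1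
      rw [Real.log_pow] at b2
      exact b2.trans (mul_le_mul_of_nonneg_left (log_le_sqrt (by linarith)) hN)
    simp only [one_div]
    nlinarith

end Pool.Agent.Lib.MP_9c5702_nt.Cube
end
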