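import Pool.Agent.Lib.MP_9c5702_nt.Cube.Reduce
import Pool.Agent.Lib.MP_9c5702_nt.Cube.Primes

-- part Pool.Agent.Lib.MP_9c5702_nt.Cube.Fourier
section

/-! The off-diagonal terms of the square sieve. -/

set_option autoImplicit false

namespace Pool.Agent.Lib.MP_9c5702_nt.Cube

open Finset

namespace Fou

theorem expand {M : ℕ} (hM : 0 < M) (g : ℤ → ℂ) (hg : Function.Periodic g M) (h0 x : ℤ) :
    (M : ℂ) * g x
      = ∑ h ∈ Ico h0 (h0 + M), ec M (h * x) * ∑ y ∈ range M, g y * ec M (-(h * y)) := by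
  have e1 : ∀ h : ℤ, ec M (h * x) * ∑ y ∈ range M, g y * ec M (-(h * y))
      = ∑ y ∈ range M, g y * ec M (h * (x - y)) := by
    intro h
    rw [mul_sum]
    refine sum_congr rfl fun y _ => ?_
    rw [show h * (x - y) = h * x + -(h * y) by ring, ec_add]
    ring
  simp only [e1]
  rw [sum_comm]
  simp only [← mul_sum, ec_orth hM]
  have hM' : (0 : ℤ) < M := by exact_mod_cast hM
  have a1 := Int.emod_nonneg x hM'.ne'
  have a2 := Int.emod_lt_of_pos x hM'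
  have a3 : (((x % M).toNat : ℕ) : ℤ) = x % M := Int.toNat_of_nonneg a1
  rw [sum_eq_single (x % M).toNat]
  · rw [a3, if_pos (Int.dvd_self_sub_emod), mul_comm]
    congr 1
    have := hg.int_mul (x / M) (x % M)
    rw [← this]
    congr 1
    have := Int.emod_add_mul_ediv x M
    simp only [Int.cast_id]
    linarith
  · intro y hy hne
    rw [if_neg, mul_zero]
    intro hd
    apply hne
    have hy' : (y : ℤ) < M := by exact_mod_cast mem_range.1 hy
    have : x % M = y := by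
      have h1 : x % M = (y : ℤ) % M := (Int.emod_emod_of_dvd x dvd_rfl).symm.trans
        (by rw [Int.emod_emod_of_dvd x dvd_rfl]; exact Int.emod_eq_emod_iff_emod_sub_eq_zero.2
              (Int.emod_eq_zero_of_dvd hd))
      rw [h1, Int.emod_eq_of_lt (by positivity) hy']
    omega
  · intro h
    exact absurd (mem_range.2 (by omega)) h

theorem double {M : ℕ} (hM : 0 < M) (g : ℤ → ℂ) (hg : Function.Periodic g M) (h0 : ℤ) (E : ℕ) :
    ∑ e1 ∈ range E, ∑ e2 ∈ range E, g (e1 - e2)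
      = ∑ h ∈ Ico h0 (h0 + M), ((‖∑ e ∈ range E, ec M (h * e)‖ ^ 2 / M : ℝ) : ℂ)
          * ∑ y ∈ range M, g y * ec M (-(h * y)) := by
  have hM' : (M : ℂ) ≠ 0 := by exact_mod_cast hM.ne'
  apply mul_left_cancel₀ hM'
  simp only [mul_sum (range E), expand hM g hg h0]
  rw [mul_sum]
  simp only [sum_comm (s := range E) (t := Ico h0 (h0 + M))]
  refine sum_congr rfl fun h _ => ?_
  simp only [← sum_mul]
  rw [← mul_assoc]
  congr 1
  have e : (((‖∑ e ∈ range E, ec M (h * e)‖ ^ 2 : ℝ)) : ℂ)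
      = (∑ e ∈ range E, ec M (h * e)) * starRingEnd ℂ (∑ e ∈ range E, ec M (h * e)) := by
    rw [Complex.mul_conj, Complex.normSq_eq_norm_sq]
  rw [Complex.ofReal_div, e, map_sum, sum_mul_sum]
  simp only [conj_ec, ← ec_add]
  push_cast
  field_simp
  refine sum_congr rfl fun e1 _ => sum_congr rfl fun e2 _ => ?_
  congr 1
  ring

theorem tail_aux (H0 : ℕ) (h0 : 1 ≤ H0) (n : ℕ) :
    ∑ h ∈ Icc (-((H0 + n : ℕ) : ℤ)) ((H0 + n : ℕ) : ℤ),
      (if (H0 : ℤ) < |h| then 1 / (h : ℝ) ^ 2 else 0) ≤ 2 / H0 - 2 / ((H0 + n : ℕ) : ℝ) := by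
  induction n with
  | zero =>
    rw [sum_eq_zero]
    · simp
    · intro h hh
      rw [mem_Icc] at hh
      rw [if_neg]
      rw [not_lt, abs_le]
      simpa using hh
  | succ n ih =>
    set K := H0 + n with hK
    have e : Icc (-((H0 + (n + 1) : ℕ) : ℤ)) ((H0 + (n + 1) : ℕ) : ℤ)
        = insert (-((K : ℤ) + 1)) (insert ((K : ℤ) + 1) (Icc (-(K : ℤ)) K)) := by
      ext x
      simp only [mem_Icc, mem_insert]
      omega
    rw [e, sum_insert (by simp only [mem_Icc, mem_insert]; omega),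
      sum_insert (by simp only [mem_Icc]; omega), abs_neg,
      if_pos (by rw [abs_of_nonneg (by omega)]; omega),
      if_pos (by rw [abs_of_nonneg (by omega)]; omega)]
    have hK1 : (1 : ℝ) ≤ K := by exact_mod_cast (by omega : 1 ≤ K)
    have e2 : ((H0 + (n + 1) : ℕ) : ℝ) = K + 1 := by rw [hK]; push_cast; ring
    rw [e2]
    push_cast
    have : 1 / ((K : ℝ) + 1) ^ 2 ≤ 1 / K - 1 / (K + 1) := by
      rw [div_sub_div _ _ (by positivity) (by positivity), div_le_div_iff₀ (by positivity)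
        (by positivity)]
      nlinarith
    rw [neg_sq]
    have e3 : (2 : ℝ) / K = 2 * (1 / K) := by ring
    have e4 : (2 : ℝ) / (K + 1) = 2 * (1 / (K + 1)) := by ring
    linarith

theorem tail (H0 : ℕ) (h0 : 1 ≤ H0) (F : Finset ℤ) :
    ∑ h ∈ F, (if (H0 : ℤ) < |h| then 1 / (h : ℝ) ^ 2 else 0) ≤ 2 / (H0 : ℝ) := by
  have hs : F ⊆ Icc (-((H0 + F.sup Int.natAbs : ℕ) : ℤ)) ((H0 + F.sup Int.natAbs : ℕ) : ℤ) := by
    intro x hx
    have := le_sup (f := Int.natAbs) hx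
    rw [mem_Icc]
    omega
  refine (sum_le_sum_of_subset_of_nonneg hs fun x _ _ => ?_).trans
    ((tail_aux H0 h0 _).trans (sub_le_self _ (by positivity)))
  split_ifs
  · positivity
  · exact le_rfl

theorem weights {M : ℕ} (hM : 0 < M) (E H0 : ℕ) (h0 : 1 ≤ H0) (X : ℤ → ℂ) (B : ℝ) (c : ℤ → ℝ)
    (X0 : X 0 = 0) (hB : ∀ h, ‖X h‖ ≤ B) (c0 : ∀ h, 0 ≤ c h)
    (hc : ∀ h ∈ (Icc (-(H0 : ℤ)) H0).erase 0, (E : ℝ) ^ 2 / M * ‖X h‖ ≤ c h) :
    ‖∑ h ∈ Ico (-((M / 2 : ℕ) : ℤ)) (-((M / 2 : ℕ) : ℤ) + M),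
        ((‖∑ e ∈ range E, ec M (h * e)‖ ^ 2 / M : ℝ) : ℂ) * X h‖
      ≤ ∑ h ∈ (Icc (-(H0 : ℤ)) H0).erase 0, c h + M * B / (2 * H0) := by
  have hM' : (0 : ℝ) < M := by exact_mod_cast hM
  have B0 : 0 ≤ B := (norm_nonneg _).trans (hB 0)
  set F := Ico (-((M / 2 : ℕ) : ℤ)) (-((M / 2 : ℕ) : ℤ) + M)
  set G := (Icc (-(H0 : ℤ)) H0).erase 0
  have key : ∀ h ∈ F, ‖((‖∑ e ∈ range E, ec M (h * e)‖ ^ 2 / M : ℝ) : ℂ) * X h‖
      ≤ (if h ∈ G then c h else 0)
        + M * B / 4 * (if (H0 : ℤ) < |h| then 1 / (h : ℝ) ^ 2 else 0) := by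
    intro h hh
    rw [norm_mul, Complex.norm_real, Real.norm_of_nonneg (by positivity)]
    by_cases hz : h = 0
    · subst hz
      rw [X0, norm_zero, mul_zero]
      have := c0 0
      positivity
    by_cases hG : h ∈ G
    · have hn : ¬ (H0 : ℤ) < |h| := by
        rw [not_lt, abs_le]
        exact mem_Icc.1 (mem_of_mem_erase hG)
      rw [if_pos hG, if_neg hn, mul_zero, add_zero]
      refine le_trans (mul_le_mul_of_nonneg_right ?_ (norm_nonneg _)) (hc h hG)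
      have : ‖∑ e ∈ range E, ec M (h * e)‖ ≤ E := by
        refine (norm_sum_le _ _).trans ?_
        simp [norm_ec]
      gcongr
    · have hn : (H0 : ℤ) < |h| := by
        by_contra hn
        rw [not_lt, abs_le] at hn
        exact hG (mem_erase.2 ⟨hz, mem_Icc.2 hn⟩)
      rw [if_neg hG, if_pos hn, zero_add]
      have h2 : 2 * |h| ≤ M := by
        have := mem_Ico.1 hh
        rcases abs_cases h with h1 | h1 <;> omega
      have h3 := ec_geom hz h2 E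
      have hr : (h : ℝ) ≠ 0 := by exact_mod_cast hz
      have ha : 0 < |(h : ℝ)| := abs_pos.2 hr
      calc _ ≤ (M / (2 * |(h : ℝ)|)) ^ 2 / M * B := by gcongr; exact hB h
        _ = M * B / 4 * (1 / (h : ℝ) ^ 2) := by
          rw [← sq_abs (h : ℝ)]
          field_simp
          ring
  refine (norm_sum_le _ _).trans ((sum_le_sum key).trans ?_)
  rw [sum_add_distrib, ← mul_sum]
  refine add_le_add ?_ ?_
  · rw [sum_ite_mem]
    exact sum_le_sum_of_subset_of_nonneg inter_subset_right fun x _ _ => c0 x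
  · have hH : (0 : ℝ) < H0 := by exact_mod_cast h0
    calc _ ≤ M * B / 4 * (2 / H0) := by gcongr; exact tail H0 h0 F
      _ = M * B / (2 * H0) := by field_simp; ring

theorem shift (p f : ℤ → ℂ) (δ H N : ℕ) (a0 : ℤ) (K : ℝ) (hp : ∀ a, ‖p a‖ ≤ K)
    (hf : ∀ a, ‖f a‖ ≤ 1) (hper : ∀ a (t : ℕ), p (a + δ * t) = p a) :
    H * ‖∑ a ∈ Ico a0 (a0 + N), p a * f a‖
      ≤ K * ∑ a ∈ Ico a0 (a0 + N), ‖∑ t ∈ range H, f (a + δ * t)‖ + H * (2 * (δ * H) * K) := by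
  have K0 : 0 ≤ K := (norm_nonneg _).trans (hp 0)
  have hb : ∀ a, ‖p a * f a‖ ≤ K := fun a => by
    rw [norm_mul]
    calc _ ≤ K * 1 := mul_le_mul (hp a) (hf a) (norm_nonneg _) K0
      _ = K := mul_one K
  set X := ∑ a ∈ Ico a0 (a0 + N), p a * f a
  have e : (H : ℂ) * X = ∑ a ∈ Ico a0 (a0 + N), p a * ∑ t ∈ range H, f (a + δ * t)
      + ∑ t ∈ range H, (X - ∑ a ∈ Ico a0 (a0 + N), p a * f (a + δ * t)) := by
    simp only [mul_sum (range H)]
    rw [sum_comm, ← sum_add_distrib]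
    simp
  have e2 : H * ‖X‖ = ‖(H : ℂ) * X‖ := by rw [norm_mul, Complex.norm_natCast]
  rw [e2, e]
  refine (norm_add_le _ _).trans (add_le_add ?_ ?_)
  · rw [mul_sum]
    refine (norm_sum_le _ _).trans (sum_le_sum fun a _ => ?_)
    rw [norm_mul]
    exact mul_le_mul_of_nonneg_right (hp a) (norm_nonneg _)
  · refine (norm_sum_le _ _).trans ?_
    have : ∀ t ∈ range H, ‖X - ∑ a ∈ Ico a0 (a0 + N), p a * f (a + δ * t)‖
        ≤ 2 * (δ * H) * K := by
      intro t ht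
      have h1 := norm_sum_shift (fun a => p a * f a) hb a0 N (δ * t)
      simp only [Nat.cast_mul, hper] at h1
      refine h1.trans ?_
      have : (t : ℝ) ≤ H := by exact_mod_cast (mem_range.1 ht).le
      gcongr
    simpa using sum_le_card_nsmul _ _ _ this

open Classical in
/-- indicator of the condition modulo `s` -/
noncomputable def iS (W s a e : ℤ) : ℂ := if CondS W s a e then 1 else 0

open Classical in
/-- indicator of the condition modulo `m` -/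
noncomputable def iM (m l W b a e : ℤ) : ℂ := if CondM m l W b a e then 1 else 0

theorem iS_per (W : ℤ) (s : ℕ) (a : ℤ) : Function.Periodic (iS W s a) s := by
  intro e
  have : CondS W s a (e + s) ↔ CondS W s a e := by
    unfold CondS
    rw [show a * (e + s) + W = a * e + W + s * a by ring, dvd_add_left (dvd_mul_right _ _)]
  unfold iS
  rw [this]

theorem iS_shift (W s a j e : ℤ) : iS W s (a + s * j) e = iS W s a e := by
  have : CondS W s (a + s * j) e ↔ CondS W s a e := by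
    unfold CondS
    rw [show (a + s * j) * e + W = a * e + W + s * (j * e) by ring,
      dvd_add_left (dvd_mul_right _ _), IsCoprime.add_mul_left_left_iff]
  unfold iS
  rw [this]

theorem iM_per (m : ℕ) (l W b a : ℤ) : Function.Periodic (iM m l W b a) m := by
  intro e
  have : CondM m l W b a (e + m) ↔ CondM m l W b a e := by
    unfold CondM
    rw [show nf l b a * (e + m) - W * lf l b a = nf l b a * e - W * lf l b a + m * nf l b a by
      ring, dvd_add_left (dvd_mul_right _ _)]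
  unfold iM
  rw [this]

theorem iS_sum (W : ℤ) (s : ℕ) (a : ℤ) : ∑ y ∈ range s, ‖iS W s a y‖ ≤ 1 := by
  classical
  have e : ∀ y : ℕ, ‖iS W s a y‖ = if CondS W s a y then 1 else 0 := fun y => by
    unfold iS
    split_ifs <;> simp
  simp only [e]
  rw [sum_boole]
  have : ((range s).filter fun y : ℕ => CondS W s a y).card ≤ 1 := by
    rw [card_le_one]
    intro x hx y hy
    rw [mem_filter, mem_range] at hx hy
    have h1 : (s : ℤ) ∣ a * (x - y) := by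
      have := dvd_sub hx.2.2 hy.2.2
      rwa [show a * x + W - (a * y + W) = a * (x - y) by ring] at this
    have h2 : (s : ℤ) ∣ (x : ℤ) - y := hx.2.1.symm.dvd_of_dvd_mul_left h1
    have := Int.eq_zero_of_abs_lt_dvd h2 (by rw [abs_lt]; omega)
    omega
  exact_mod_cast this

theorem phi_eq (m : ℕ) [NeZero m] (l r q s W a h u v : ℤ) (huv : u * m + v * (s * q) = 1) :
    ∑ y ∈ range m, iM m l W (r * s) a y * ec m (-(h * y) * v) = ph m l r q (-(h * W)) s a := by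
  have cn : ((nf l (r * s) a : ℤ) : ZMod m) = nf (l : ZMod m) (r * s) a := by simp [nf]
  have cl : ((lf l (r * s) a : ℤ) : ZMod m) = lf (l : ZMod m) (r * s) a := by simp [lf]
  have cu : IsUnit (nf (l : ZMod m) (r * s) a) ↔ IsCoprime (nf l (r * s) a) m := by
    rw [← cn, ZMod.coe_int_isUnit_iff_isCoprime, isCoprime_comm]
  have hv : ((s : ZMod m) * q) * v = 1 := by
    have := congrArg (Int.cast : ℤ → ZMod m) huv
    push_cast at this
    rw [ZMod.natCast_self, mul_zero, zero_add, mul_comm] at this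
    exact this
  have hv' : Ring.inverse ((s : ZMod m) * q) = v := by
    have hu : IsUnit ((s : ZMod m) * q) := IsUnit.of_mul_eq_one _ hv
    calc _ = Ring.inverse ((s : ZMod m) * q) * (((s : ZMod m) * q) * v) := by rw [hv, mul_one]
      _ = v := Ring.inverse_mul_cancel_left _ _ hu
  unfold ph
  split_ifs with hU
  · set y0 : ZMod m := W * lf (l : ZMod m) (r * s) a * Ring.inverse (nf (l : ZMod m) (r * s) a)
      with hy0
    have cm : ∀ y : ℕ, CondM m l W (r * s) a y ↔ (y : ZMod m) = y0 := by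
      intro y
      unfold CondM
      rw [← ZMod.intCast_zmod_eq_zero_iff_dvd, ← cu]
      push_cast
      rw [cn, cl, sub_eq_zero, hy0, Ring.eq_mul_inverse_iff_mul_eq _ _ _ hU,
        mul_comm (y : ZMod m)]
      exact and_iff_right hU
    rw [sum_eq_single y0.val]
    · rw [iM, if_pos ((cm _).2 (ZMod.natCast_zmod_val y0)), one_mul, ec_std, hv']
      congr 1
      push_cast
      rw [ZMod.natCast_zmod_val, hy0]
      ring
    · intro y hy hne
      rw [iM, if_neg, zero_mul]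
      rw [cm]
      intro e
      apply hne
      rw [← e, ZMod.val_natCast_of_lt (mem_range.1 hy)]
    · intro hn
      exact absurd (mem_range.2 (ZMod.val_lt y0)) hn
  · refine sum_eq_zero fun y _ => ?_
    rw [iM, if_neg, zero_mul]
    exact fun hc => hU (cu.2 hc.1)

open Classical in
theorem one_s {m : ℕ} [NeZero m] {r l q s H H0 S N E Z : ℕ} {W : ℤ} (a0 : ℤ)
    (hq : q.Coprime m) (q0 : 0 < q) (h0 : 1 ≤ H0) (hH : 0 < H) (s1 : 1 ≤ s) (sS : s ≤ S)
    (hs : s.Coprime m) (hsq : s.Coprime q) (hE : E ≤ Z * (s * m)) (hE' : s * m ≤ E)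
    (Φ : ℤ → ℤ → ℝ) (hΦ : ∀ a e, |Φ a e| ≤ 1) (hΦa : ∀ a e, Φ (a + q) e = Φ a e)
    (hΦe : ∀ a e, Φ a (e + q) = Φ a e) (hΦ0 : ∀ a, ∑ e ∈ range q, Φ a e = 0) :
    |∑ a ∈ Ico a0 (a0 + N), ∑ e1 ∈ range (2 * E), ∑ e2 ∈ range (2 * E),
        if CondS W s a (e1 - e2) ∧ CondM m l W (r * s) a (e1 - e2)
          then Φ a (e1 - e2) else 0| ≤
      ∑ h ∈ (Icc (-(H0 : ℤ)) H0).erase 0,
        (4 * E * Z / H * ∑ a ∈ Ico a0 (a0 + N),
            ‖∑ t ∈ range H, ph m l r q (-(h * W)) s (a + s * q * t)‖ + 8 * E * Z * q * S * H)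
        + E * (q ^ 2 * N / (2 * H0)) := by
  have m0 : 0 < m := Nat.pos_of_ne_zero (NeZero.ne m)
  have n0 : 0 < s * q := Nat.mul_pos s1 q0
  have M0 : 0 < s * q * m := Nat.mul_pos n0 m0
  have cop : (s * q).Coprime m := Nat.Coprime.mul_left hs hq
  obtain ⟨v, u, huv⟩ := Nat.isCoprime_iff_coprime.2 cop
  have huv1 : u * m + v * ((s * q : ℕ) : ℤ) = 1 := by linarith
  have huv2 : u * m + v * ((s : ℤ) * q) = 1 := by push_cast at huv1; exact huv1
  let P : ℤ → ℤ → ℂ := fun a e => iS W s a e * (Φ a e : ℂ)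
  have Φper : ∀ a, Function.Periodic (fun e => (Φ a e : ℂ)) q := fun a e => by
    simp only [hΦe]
  have Pper : ∀ a, Function.Periodic (P a) ((s * q : ℕ) : ℤ) := fun a e => by
    have a1 := (iS_per W s a).int_mul q e
    have a2 := (Φper a).int_mul s e
    simp only [Int.cast_id] at a1 a2
    simp only [P]
    push_cast
    rw [a2, mul_comm (s : ℤ), a1]
  let g : ℤ → ℤ → ℂ := fun a e => P a e * iM m l W (r * s) a e
  have gper : ∀ a, Function.Periodic (g a) ((s * q * m : ℕ) : ℤ) := fun a e => by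
    have a1 := (Pper a).int_mul m e
    have a2 := (iM_per m l W (r * s) a).int_mul ((s * q : ℕ) : ℤ) e
    simp only [Int.cast_id] at a1 a2
    simp only [g]
    rw [Nat.cast_mul (s * q), a2, mul_comm ((s * q : ℕ) : ℤ), a1]
  let p : ℤ → ℤ → ℂ := fun h a => ∑ y ∈ range (s * q), P a y * ec (s * q) (-(h * y) * u)
  have hat : ∀ h a, ∑ y ∈ range (s * q * m), g a y * ec (s * q * m) (-(h * y))
      = p h a * ph m l r q (-(h * W)) s a := by
    intro h a
    rw [← phi_eq m l r q s W a h u v huv2]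
    have := sum_crt cop (fun y => P a y * ec (s * q) (-(h * y) * u))
      (fun y => iM m l W (r * s) a y * ec m (-(h * y) * v))
      (fun e => by
        simp only [Pper a e]
        congr 1
        exact ec_congr ⟨-(h * u), by ring⟩)
      (fun e => by
        simp only [iM_per m l W (r * s) a e]
        congr 1
        exact ec_congr ⟨-(h * v), by ring⟩)
    rw [← this]
    refine sum_congr rfl fun y _ => ?_
    rw [ec_split n0 m0 huv1]
    simp only [g]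
    ring
  have pb : ∀ h a, ‖p h a‖ ≤ q := by
    intro h a
    refine (norm_sum_le _ _).trans ?_
    have a1 : ∀ y ∈ range (s * q), ‖P a y * ec (s * q) (-(h * y) * u)‖ ≤ ‖iS W s a y‖ * 1 := by
      intro y _
      simp only [P, norm_mul, norm_ec, mul_one, Complex.norm_real, Real.norm_eq_abs]
      exact mul_le_of_le_one_right (norm_nonneg _) (hΦ _ _)
    refine (sum_le_sum a1).trans ?_
    rw [sum_crt hsq (fun y => ‖iS W s a y‖) (fun _ => (1 : ℝ))
      (fun e => by simp only [iS_per W s a e]) (fun _ => rfl)]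
    simp only [sum_const, card_range, nsmul_eq_mul, mul_one]
    exact mul_le_of_le_one_left (by positivity) (iS_sum W s a)
  have p0 : ∀ a, p 0 a = 0 := by
    intro a
    simp only [p, zero_mul, neg_zero, ec_zero, mul_one, P]
    rw [sum_crt hsq (iS W s a) (fun e => (Φ a e : ℂ)) (iS_per W s a) (Φper a)]
    rw [← Complex.ofReal_sum, hΦ0]
    simp
  have pper : ∀ h a (t : ℕ), p h (a + ((s * q : ℕ) : ℤ) * t) = p h a := by
    intro h a t
    refine sum_congr rfl fun y _ => ?_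
    have a1 : Function.Periodic (fun a => Φ a y) (q : ℤ) := fun a => hΦa a y
    have a2 := a1.int_mul (s * t) a
    simp only [Int.cast_id] at a2
    simp only [P]
    rw [show a + ((s * q : ℕ) : ℤ) * t = a + s * (q * t) by push_cast; ring, iS_shift,
      show a + (s : ℤ) * (q * t) = a + s * t * q by ring, a2]
  let X : ℤ → ℂ := fun h => ∑ a ∈ Ico a0 (a0 + N), p h a * ph m l r q (-(h * W)) s a
  have main : ((∑ a ∈ Ico a0 (a0 + N), ∑ e1 ∈ range (2 * E), ∑ e2 ∈ range (2 * E),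
        if CondS W s a (e1 - e2) ∧ CondM m l W (r * s) a (e1 - e2)
          then Φ a (e1 - e2) else 0 : ℝ) : ℂ)
      = ∑ h ∈ Ico (-((s * q * m / 2 : ℕ) : ℤ)) (-((s * q * m / 2 : ℕ) : ℤ) + (s * q * m : ℕ)),
        ((‖∑ e ∈ range (2 * E), ec (s * q * m) (h * e)‖ ^ 2 / (s * q * m : ℕ) : ℝ) : ℂ) * X h := by
    simp only [X, mul_sum (Ico a0 (a0 + N))]
    rw [Complex.ofReal_sum, sum_comm (t := Ico a0 (a0 + N))]
    refine sum_congr rfl fun a _ => ?_
    simp only [← hat]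
    rw [← double M0 (g a) (gper a), Complex.ofReal_sum]
    refine sum_congr rfl fun e1 _ => ?_
    rw [Complex.ofReal_sum]
    refine sum_congr rfl fun e2 _ => ?_
    simp only [g, P, iS, iM]
    by_cases c1 : CondS W s a (e1 - e2) <;> by_cases c2 : CondM m l W (r * s) a (e1 - e2) <;>
      simp [c1, c2]
  rw [← Real.norm_eq_abs, ← Complex.norm_real, main]
  have qr : (0 : ℝ) < q := by exact_mod_cast q0
  have Hr : (0 : ℝ) < H := by exact_mod_cast hH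
  have Mr : (0 : ℝ) < (s * q * m : ℕ) := by exact_mod_cast M0
  refine (weights M0 (2 * E) H0 h0 X (q * N) _ ?_ ?_ ?_ ?_).trans (add_le_add le_rfl ?_)
  · simp [X, p0]
  · intro h
    refine (norm_sum_le _ _).trans ?_
    have : ∀ a ∈ Ico a0 (a0 + N), ‖p h a * ph m l r q (-(h * W)) s a‖ ≤ q := fun a _ => by
      rw [norm_mul]
      calc _ ≤ (q : ℝ) * 1 := mul_le_mul (pb h a) (norm_ph_le _ _ _ _ _ _ _) (norm_nonneg _) qr.le
        _ = q := mul_one _
    have := sum_le_card_nsmul _ _ _ this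
    simpa [mul_comm] using this
  · intro h
    positivity
  · intro h _
    have a1 := shift (p h) (ph m l r q (-(h * W)) s) (s * q) H N a0 q (pb h)
      (norm_ph_le _ _ _ _ _ _) (pper h)
    simp only [Nat.cast_mul] at a1
    set A := ∑ a ∈ Ico a0 (a0 + N), ‖∑ t ∈ range H, ph m l r q (-(h * W)) s (a + s * q * t)‖
    have A0 : 0 ≤ A := sum_nonneg fun _ _ => norm_nonneg _
    have a2 : ‖X h‖ ≤ q * (A / H + 2 * q * S * H) := by
      have sr : (s : ℝ) ≤ S := by exact_mod_cast sS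
      have : (H : ℝ) * ‖X h‖ ≤ H * (q * (A / H + 2 * q * S * H)) := by
        refine a1.trans ?_
        have e : (H : ℝ) * (q * (A / H + 2 * q * S * H)) = q * A + H * (2 * (S * q * H) * q) := by
          field_simp
        rw [e]
        gcongr
      exact le_of_mul_le_mul_left this Hr
    have a3 : (((2 * E : ℕ) : ℝ)) ^ 2 / (s * q * m : ℕ) ≤ 4 * E * Z / q := by
      rw [div_le_div_iff₀ Mr qr]
      have : (E : ℝ) ≤ Z * (s * m) := by exact_mod_cast hE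
      push_cast
      have E0 : (0 : ℝ) ≤ E := by positivity
      calc ((2 : ℝ) * E) ^ 2 * q = 4 * E * q * E := by ring
        _ ≤ 4 * E * q * (Z * (s * m)) := by gcongr
        _ = _ := by ring
    calc _ ≤ 4 * E * Z / q * (q * (A / H + 2 * q * S * H)) := by gcongr
      _ = _ := by field_simp; ring
  · have : ((s * q * m : ℕ) : ℝ) ≤ E * q := by
      have : ((s * m : ℕ) : ℝ) ≤ E := by exact_mod_cast hE'
      push_cast at this ⊢
      nlinarith
    have hH0 : (0 : ℝ) < H0 := by exact_mod_cast h0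
    calc _ ≤ (E : ℝ) * q * (q * N) / (2 * H0) := by gcongr
      _ = _ := by ring

end Fou

open Classical in
theorem offdiag {r k : ℕ} (hr : r.Prime) (hk : Squarefree k) (hrk : r.Coprime k)
    {l q H H0 Y T : ℕ} {W : ℤ} (hW : IsCoprime W ((r * k : ℕ) : ℤ)) (hq : q.Coprime (r * k))
    (h0 : 1 ≤ H0) (hh : H0 < r) (hl : l ^ 2 + l + 1 < r) (hH4 : 4 ≤ H) (hH : H ≤ r) (hrY : r ≤ Y)
    (hqY : q ≤ Y) (hT : 2 ^ (r * k).primeFactors.card ≤ T) (S N E Z : ℕ) (a0 : ℤ) {β : ℝ}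
    (hβ0 : 0 ≤ β)
    (hβ : ((S : ℝ) / (r * k) + 1) * ((N : ℝ) / (r * k) + 1) * T * (r * k) *
        (4 ^ 8 * H ^ 4 * (r * k) + H ^ 8 * T ^ 4 * (min k (Y ^ 65) : ℕ)) ≤ S * N * H ^ 8 * β ^ 8)
    (Ss : Finset ℕ)
    (hS : ∀ s ∈ Ss, 1 ≤ s ∧ s ≤ S ∧ s.Coprime (r * k) ∧ s.Coprime q ∧ E ≤ Z * (s * (r * k)) ∧
      s * (r * k) ≤ E)
    (Φ : ℕ → ℤ → ℤ → ℝ) (hΦ : ∀ s a e, |Φ s a e| ≤ 1) (hΦa : ∀ s a e, Φ s (a + q) e = Φ s a e)
    (hΦe : ∀ s a e, Φ s a (e + q) = Φ s a e) (hΦ0 : ∀ s a, ∑ e ∈ range q, Φ s a e = 0) :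
    |∑ s ∈ Ss, ∑ a ∈ Ico a0 (a0 + N), ∑ e1 ∈ range (2 * E), ∑ e2 ∈ range (2 * E),
        if CondS W s a (e1 - e2) ∧ CondM (r * k : ℕ) l W (r * s) a (e1 - e2)
          then Φ s a (e1 - e2) else 0| ≤
      E * S * (8 * H0 * Z * β * N + 16 * H0 * Z * q * S * H + q ^ 2 * N / (2 * H0)) := by
  have : NeZero (r * k) := ⟨Nat.mul_ne_zero hr.ne_zero hk.ne_zero⟩
  have q0 : 0 < q := by
    rcases Nat.eq_zero_or_pos q with rfl | h
    · rw [Nat.coprime_zero_left] at hq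
      exact absurd (Nat.eq_one_of_mul_eq_one_right hq) hr.one_lt.ne'
    · exact h
  have hsub : Ss ⊆ (Icc 1 S).filter (fun s : ℕ => s.Coprime (r * k)) := fun s hs =>
    mem_filter.2 ⟨mem_Icc.2 ⟨(hS s hs).1, (hS s hs).2.1⟩, (hS s hs).2.2.1⟩
  have cS : Ss.card ≤ S := by
    have := (card_le_card hsub).trans (card_filter_le _ _)
    simpa using this
  have cS' : (Ss.card : ℝ) ≤ S := by exact_mod_cast cS
  have Hr : (0 : ℝ) < H := by exact_mod_cast (by omega : 0 < H)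
  set G := (Icc (-(H0 : ℤ)) H0).erase 0 with hG
  have cG : (G.card : ℝ) = 2 * H0 := by
    have : G.card = 2 * H0 := by
      rw [hG, card_erase_of_mem (by simp), Int.card_Icc]
      omega
    exact_mod_cast this
  have hol : ∀ h ∈ G, ∑ s ∈ Ss, ∑ a ∈ Ico a0 (a0 + N),
      ‖∑ t ∈ range H, ph (r * k) l r q (-(h * W)) s (a + s * q * t)‖ ≤ S * N * H * β := by
    intro h hh'
    have hz : h ≠ 0 := ne_of_mem_erase hh'
    have ha : |h| < r := by
      have := mem_Icc.1 (mem_of_mem_erase hh')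
      rw [abs_lt]
      omega
    have m1 := (moment hr hk hrk hW hq hz ha hl hH4 hH hrY hqY hT S N a0).trans hβ
    have m2 : ∑ s ∈ Ss, ∑ a ∈ Ico a0 (a0 + N),
        ‖∑ t ∈ range H, ph (r * k) l r q (-(h * W)) s (a + s * q * t)‖ ^ 8
          ≤ S * N * H ^ 8 * β ^ 8 :=
      (sum_le_sum_of_subset_of_nonneg hsub fun _ _ _ =>
        sum_nonneg fun _ _ => by positivity).trans m1
    rw [← sum_product'] at m2 ⊢
    have m3 := pow_sum_le_card_mul_sum_pow (s := Ss ×ˢ Ico a0 (a0 + N))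
      (f := fun x => ‖∑ t ∈ range H, ph (r * k) l r q (-(h * W)) x.1 (x.2 + x.1 * q * t)‖)
      (fun _ _ => norm_nonneg _) 7
    have m4 : ((Ss ×ˢ Ico a0 (a0 + N)).card : ℝ) ≤ S * N := by
      rw [card_product, Int.card_Ico]
      simp only [add_sub_cancel_left, Int.toNat_natCast, Nat.cast_mul]
      gcongr
    refine le_of_pow_le_pow_left₀ (n := 8) (by norm_num) (by positivity) (m3.trans ?_)
    calc _ ≤ ((S : ℝ) * N) ^ 7 * (S * N * H ^ 8 * β ^ 8) := by gcongr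
      _ = _ := by ring
  refine (abs_sum_le_sum_abs _ _).trans ((sum_le_sum fun s hs =>
    Fou.one_s (m := r * k) (r := r) (l := l) (H := H) (S := S) (Z := Z) (W := W) a0 hq q0 h0
      (by omega) (hS s hs).1 (hS s hs).2.1 (hS s hs).2.2.1 (hS s hs).2.2.2.1
      (hS s hs).2.2.2.2.1 (hS s hs).2.2.2.2.2 (Φ s) (hΦ s) (hΦa s) (hΦe s) (hΦ0 s)).trans ?_)
  rw [sum_add_distrib, sum_comm]
  have b1 : ∀ h ∈ G, ∑ s ∈ Ss, (4 * E * Z / H * ∑ a ∈ Ico a0 (a0 + N),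
      ‖∑ t ∈ range H, ph (r * k) l r q (-(h * W)) s (a + s * q * t)‖ + 8 * E * Z * q * S * H)
      ≤ 4 * E * Z * S * N * β + S * (8 * E * Z * q * S * H) := by
    intro h hh'
    rw [sum_add_distrib, ← mul_sum, sum_const, nsmul_eq_mul]
    refine add_le_add ?_ (by gcongr)
    calc _ ≤ 4 * E * Z / H * (S * N * H * β) := by gcongr; exact hol h hh'
      _ = _ := by field_simp
  have b2 := sum_le_card_nsmul _ _ _ b1
  rw [nsmul_eq_mul, cG] at b2
  rw [sum_const, nsmul_eq_mul]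
  have b3 : (Ss.card : ℝ) * (E * (q ^ 2 * N / (2 * H0))) ≤ S * (E * (q ^ 2 * N / (2 * H0))) := by
    gcongr
  refine (add_le_add b2 b3).trans (le_of_eq ?_)
  ring

end Pool.Agent.Lib.MP_9c5702_nt.Cube
end

-- part Pool.Agent.Lib.MP_9c5702_nt.Cube.Sieve
section

/-! The square sieve. -/

set_option autoImplicit false

namespace Pool.Agent.Lib.MP_9c5702_nt.Cube

open Finset

private theorem pairs (E : ℕ) (g : ℤ → ℝ) (hg : ∀ e, 0 ≤ g e) :
    E * ∑ e ∈ Icc (-(E : ℤ)) E, g e ≤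
      ∑ e1 ∈ range (2 * E), ∑ e2 ∈ range (2 * E), g (e1 - e2) := by
  classical
  have h1 : (E : ℝ) * ∑ e ∈ Icc (-(E : ℤ)) E, g e =
      ∑ p ∈ Icc (-(E : ℤ)) E ×ˢ range E, g p.1 := by
    rw [sum_product, mul_sum]
    refine sum_congr rfl fun e _ => ?_
    simp only [sum_const, card_range, nsmul_eq_mul]
  have h2 := sum_image (s := Icc (-(E : ℤ)) E ×ˢ range E)
    (g := fun p : ℤ × ℕ => (p.2 + p.1.toNat, p.2 + (-p.1).toNat))
    (f := fun p : ℕ × ℕ => g (p.1 - p.2)) fun p _ p' _ h => by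
      simp only [Prod.mk.injEq] at h
      exact Prod.ext (by omega) (by omega)
  rw [h1, ← sum_product' (f := fun e1 e2 : ℕ => g (e1 - e2))]
  refine le_trans (le_of_eq ?_) (h2.ge.trans (sum_le_sum_of_subset_of_nonneg (fun x hx => ?_)
    fun _ _ _ => hg _))
  · refine sum_congr rfl fun p _ => congrArg g ?_
    push_cast
    omega
  · obtain ⟨p, hp, rfl⟩ := mem_image.1 hx
    simp only [mem_product, mem_Icc, mem_range] at hp ⊢
    omega

private theorem cond_dvd {s m : ℕ} (hc : s.Coprime m) {l W b a e e' : ℤ}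
    (h : CondS W s a e ∧ CondM m l W b a e) (h' : CondS W s a e' ∧ CondM m l W b a e') :
    ((s * m : ℕ) : ℤ) ∣ e - e' := by
  have h1 := dvd_sub h.1.2 h'.1.2
  have h2 := dvd_sub h.2.2 h'.2.2
  rw [add_sub_add_right_eq_sub, ← mul_sub] at h1
  rw [sub_sub_sub_cancel_right, ← mul_sub] at h2
  push_cast
  exact (Nat.isCoprime_iff_coprime.2 hc).mul_dvd (h.1.1.symm.dvd_of_dvd_mul_left h1)
    (h.2.1.symm.dvd_of_dvd_mul_left h2)

private theorem diag {s m E Z : ℕ} (hc : s.Coprime m) (h0 : 0 < s * m) (hE : E ≤ Z * (s * m))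
    {l W b a e1 : ℤ} (φ : ℕ → ℝ) (hφ : ∀ e, φ e ≤ 1)
    [∀ e : ℕ, Decidable (CondS W s a (e1 - e) ∧ CondM m l W b a (e1 - e))] :
    (∑ e2 ∈ range (2 * E), if CondS W s a (e1 - e2) ∧ CondM m l W b a (e1 - e2) then φ e2
      else 0) ≤ 2 * Z + 1 := by
  rw [← sum_filter]
  refine (sum_le_card_nsmul _ _ 1 fun e _ => hφ e).trans ?_
  rw [nsmul_eq_mul, mul_one]
  rcases ((range (2 * E)).filter fun e2 : ℕ => CondS W s a (e1 - e2) ∧
    CondM m l W b a (e1 - e2)).eq_empty_or_nonempty with h | ⟨e0, h⟩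
  · rw [h, card_empty, Nat.cast_zero]
    positivity
  have h1 := card_dvd_le h0 (-e0) 0 (2 * E)
  have h2 := card_le_card_of_injOn (s := (range (2 * E)).filter fun e2 : ℕ =>
      CondS W s a (e1 - e2) ∧ CondM m l W b a (e1 - e2))
    (t := (Ico (0 : ℤ) (0 + (2 * E : ℕ))).filter fun x => ((s * m : ℕ) : ℤ) ∣ x + -e0)
    (fun e : ℕ => (e : ℤ)) (fun e he => by
      obtain ⟨k1, k2⟩ := mem_filter.1 (mem_coe.1 he)
      have k3 := cond_dvd hc (mem_filter.1 h).2 k2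
      rw [sub_sub_sub_cancel_left, sub_eq_add_neg] at k3
      have k4 := mem_range.1 k1
      have k5 : (0 : ℤ) ≤ e := by omega
      have k6 : (e : ℤ) < 0 + (2 * E : ℕ) := by omega
      exact mem_coe.2 (mem_filter.2 ⟨mem_Ico.2 ⟨k5, k6⟩, k3⟩))
    fun _ _ _ _ h => Int.natCast_inj.1 h
  have h3 : ((2 * E : ℕ) : ℝ) / (s * m : ℕ) ≤ 2 * Z := by
    rw [div_le_iff₀ (by exact_mod_cast h0)]
    exact_mod_cast (by linarith : 2 * E ≤ 2 * Z * (s * m))
  have h4 := (Nat.cast_le (α := ℝ)).2 h2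
  linarith

theorem sieve {r k : ℕ} (hr : r.Prime) (hk : Squarefree k) (hrk : r.Coprime k)
    {l Q H H0 Y T : ℕ} {W : ℤ} (hW : IsCoprime W ((r * k : ℕ) : ℤ))
    (h0 : 1 ≤ H0) (hh : H0 < r) (hl : l ^ 2 + l + 1 < r) (hH4 : 4 ≤ H) (hH : H ≤ r) (hrY : r ≤ Y)
    (hQY : Q ^ 2 ≤ Y) (hT : 2 ^ (r * k).primeFactors.card ≤ T) (S N E Z : ℕ) (a0 : ℤ) {β : ℝ}
    (hβ0 : 0 ≤ β)
    (hβ : ((S : ℝ) / (r * k) + 1) * ((N : ℝ) / (r * k) + 1) * T * (r * k) *
        (4 ^ 8 * H ^ 4 * (r * k) + H ^ 8 * T ^ 4 * (min k (Y ^ 65) : ℕ)) ≤ S * N * H ^ 8 * β ^ 8)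
    (Qs : Finset ℕ) (hQ0 : Qs.Nonempty) (hQs : ∀ q ∈ Qs, q.Prime ∧ q ≤ Q)
    (χ : ℕ → ℕ → ℤ → ℤ → ℝ) (hχ : ∀ q s a e, |χ q s a e| ≤ 1)
    (hχa : ∀ q s a e, χ q s (a + q) e = χ q s a e) (hχe : ∀ q s a e, χ q s a (e + q) = χ q s a e)
    (hχ0 : ∀ q ∈ Qs, ∀ s a, ∑ e ∈ range q, χ q s a e = 0)
    (hχc : ∀ q ∈ Qs, ∀ s a e, q ∣ s * (r * k) → χ q s a e = 0)
    (Ts : Finset (ℕ × ℤ × ℤ))
    (hTs : ∀ τ ∈ Ts, 1 ≤ τ.1 ∧ τ.1 ≤ S ∧ τ.1.Coprime (r * k) ∧ E ≤ Z * (τ.1 * (r * k)) ∧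
      τ.1 * (r * k) ≤ E ∧ τ.2.1 ∈ Ico a0 (a0 + N) ∧ |τ.2.2| ≤ E ∧ CondS W τ.1 τ.2.1 τ.2.2 ∧
      CondM (r * k : ℕ) l W (r * τ.1) τ.2.1 τ.2.2 ∧
      (Qs.card : ℝ) ≤ 2 * ∑ q ∈ Qs, χ q τ.1 τ.2.1 τ.2.2) :
    (Ts.card : ℝ) ≤ S * (8 * N * (2 * Z + 1) / Qs.card +
      4 * (8 * H0 * Z * β * N + 16 * H0 * Z * Q ^ 2 * S * H + Q ^ 4 * N / (2 * H0))) := by
  classical
  have hm : 0 < r * k := Nat.mul_pos hr.pos (Nat.pos_of_ne_zero hk.ne_zero)
  have hQc : (0 : ℝ) < Qs.card := by exact_mod_cast hQ0.card_pos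
  rcases Ts.eq_empty_or_nonempty with rfl | ⟨τ0, hτ0⟩
  · rw [card_empty, Nat.cast_zero]
    positivity
  have hE : (0 : ℝ) < E := by
    have := (Nat.mul_pos (hTs τ0 hτ0).1 hm).trans_le (hTs τ0 hτ0).2.2.2.2.1
    exact_mod_cast this
  obtain ⟨Ss, hSs⟩ : ∃ Ss : Finset ℕ, Ss = (Icc 1 S).filter fun s =>
    s.Coprime (r * k) ∧ E ≤ Z * (s * (r * k)) ∧ s * (r * k) ≤ E := ⟨_, rfl⟩
  have mS : ∀ s, s ∈ Ss ↔ (1 ≤ s ∧ s ≤ S) ∧
      s.Coprime (r * k) ∧ E ≤ Z * (s * (r * k)) ∧ s * (r * k) ≤ E := fun s => by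
    rw [hSs, mem_filter, mem_Icc]
  have cS : (Ss.card : ℝ) ≤ S := by
    have := card_filter_le (Icc 1 S) fun s =>
      s.Coprime (r * k) ∧ E ≤ Z * (s * (r * k)) ∧ s * (r * k) ≤ E
    rw [← hSs, Nat.card_Icc, Nat.add_sub_cancel] at this
    exact_mod_cast this
  obtain ⟨B, hB⟩ : ∃ B : ℝ, B = 8 * H0 * Z * β * N + 16 * H0 * Z * Q ^ 2 * S * H +
    Q ^ 4 * N / (2 * H0) := ⟨_, rfl⟩
  have B0 : 0 ≤ E * S * B := by rw [hB]; positivity
  let G : ℕ → ℕ → ℕ → ℤ → ℤ → ℝ := fun q1 q2 s a e =>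
    if CondS W s a e ∧ CondM (r * k : ℕ) l W (r * s) a e then χ q1 s a e * χ q2 s a e else 0
  let F : ℕ → ℤ → ℤ → ℝ := fun s a e =>
    if CondS W s a e ∧ CondM (r * k : ℕ) l W (r * s) a e then (∑ q ∈ Qs, χ q s a e) ^ 2 else 0
  have F0 : ∀ s a e, 0 ≤ F s a e := fun s a e => by
    simp only [F]
    split_ifs
    · positivity
    · exact le_rfl
  have FG : ∀ s a e, F s a e = ∑ p ∈ Qs ×ˢ Qs, G p.1 p.2 s a e := fun s a e => by
    simp only [F, G]
    split_ifs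
    · rw [sq, sum_mul_sum, sum_product]
    · rw [sum_const_zero]
  have low : (Ts.card : ℝ) * (Qs.card / 2) ^ 2 ≤
      ∑ s ∈ Ss, ∑ a ∈ Ico a0 (a0 + N), ∑ e ∈ Icc (-(E : ℤ)) E, F s a e := by
    have h1 := card_nsmul_le_sum Ts (fun τ => F τ.1 τ.2.1 τ.2.2) (((Qs.card : ℝ) / 2) ^ 2)
      fun τ hτ => by
        obtain ⟨-, -, -, -, -, -, -, k1, k2, k3⟩ := hTs τ hτ
        simp only [F]
        rw [if_pos ⟨k1, k2⟩]
        exact pow_le_pow_left₀ (by positivity) (by linarith) 2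
    rw [nsmul_eq_mul] at h1
    refine h1.trans ((sum_le_sum_of_subset_of_nonneg
      (t := Ss ×ˢ Ico a0 (a0 + N) ×ˢ Icc (-(E : ℤ)) E) (fun τ hτ => ?_)
      fun _ _ _ => F0 _ _ _).trans (le_of_eq ?_))
    · obtain ⟨k1, k2, k3, k4, k5, k6, k7, -⟩ := hTs τ hτ
      exact mem_product.2 ⟨(mS _).2 ⟨⟨k1, k2⟩, k3, k4, k5⟩,
        mem_product.2 ⟨k6, mem_Icc.2 (abs_le.1 k7)⟩⟩
    · rw [sum_product]
      exact sum_congr rfl fun s _ => sum_product _ _ _
  have mid : (E : ℝ) * ∑ s ∈ Ss, ∑ a ∈ Ico a0 (a0 + N), ∑ e ∈ Icc (-(E : ℤ)) E, F s a e ≤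
      ∑ p ∈ Qs ×ˢ Qs, ∑ s ∈ Ss, ∑ a ∈ Ico a0 (a0 + N), ∑ e1 ∈ range (2 * E),
        ∑ e2 ∈ range (2 * E), G p.1 p.2 s a (e1 - e2) := by
    rw [sum_comm (s := Qs ×ˢ Qs), mul_sum]
    refine sum_le_sum fun s _ => ?_
    rw [sum_comm (s := Qs ×ˢ Qs), mul_sum]
    refine sum_le_sum fun a _ => (pairs E _ (F0 s a)).trans (le_of_eq ?_)
    rw [sum_comm (s := Qs ×ˢ Qs)]
    refine sum_congr rfl fun e1 _ => ?_
    rw [sum_comm (s := Qs ×ˢ Qs)]
    exact sum_congr rfl fun e2 _ => FG _ _ _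
  have dg : ∀ q, ∑ s ∈ Ss, ∑ a ∈ Ico a0 (a0 + N), ∑ e1 ∈ range (2 * E),
      ∑ e2 ∈ range (2 * E), G q q s a (e1 - e2) ≤ S * (N * (2 * E * (2 * Z + 1))) := fun q => by
    refine le_trans (sum_le_card_nsmul _ _ (N * (2 * E * (2 * Z + 1)) : ℝ) fun s hs => ?_) ?_
    · obtain ⟨⟨k1, -⟩, k2, k3, -⟩ := (mS s).1 hs
      refine le_trans (sum_le_card_nsmul _ _ (2 * E * (2 * Z + 1) : ℝ) fun a _ => ?_)
        (le_of_eq ?_)
      · refine le_trans (sum_le_card_nsmul _ _ (2 * Z + 1 : ℝ) fun e1 _ => ?_) (le_of_eq ?_)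
        · refine diag k2 (Nat.mul_pos k1 hm) k3
            (fun e : ℕ => χ q s a (e1 - e) * χ q s a (e1 - e)) fun e => (le_abs_self _).trans ?_
          rw [abs_mul]
          exact mul_le_one₀ (hχ _ _ _ _) (abs_nonneg _) (hχ _ _ _ _)
        · rw [card_range, nsmul_eq_mul]
          push_cast
          rfl
      · rw [Int.card_Ico, add_sub_cancel_left, Int.toNat_natCast, nsmul_eq_mul]
    · rw [nsmul_eq_mul]
      exact mul_le_mul_of_nonneg_right cS (by positivity)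
  have od : ∀ q1 ∈ Qs, ∀ q2 ∈ Qs, q1 ≠ q2 → ∑ s ∈ Ss, ∑ a ∈ Ico a0 (a0 + N),
      ∑ e1 ∈ range (2 * E), ∑ e2 ∈ range (2 * E), G q1 q2 s a (e1 - e2) ≤ E * S * B := by
    intro q1 h1 q2 h2 hne
    obtain ⟨p1, l1⟩ := hQs q1 h1
    obtain ⟨p2, l2⟩ := hQs q2 h2
    have zero : ∀ s, ¬ (s * (r * k)).Coprime (q1 * q2) → ∑ a ∈ Ico a0 (a0 + N),
        ∑ e1 ∈ range (2 * E), ∑ e2 ∈ range (2 * E), G q1 q2 s a (e1 - e2) = 0 := fun s hs => by
      refine sum_eq_zero fun a _ => sum_eq_zero fun e1 _ => sum_eq_zero fun e2 _ => ?_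
      rw [Nat.coprime_mul_iff_right, not_and_or, Nat.coprime_comm, p1.coprime_iff_not_dvd,
        Nat.coprime_comm, p2.coprime_iff_not_dvd, not_not, not_not] at hs
      simp only [G]
      rcases hs with hs | hs
      · rw [hχc q1 h1 _ _ _ hs, zero_mul, ite_self]
      · rw [hχc q2 h2 _ _ _ hs, mul_zero, ite_self]
    by_cases hq : (q1 * q2).Coprime (r * k)
    swap
    · rw [sum_eq_zero fun s _ => zero s fun h => hq (Nat.Coprime.coprime_mul_left h).symm]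
      exact B0
    have hqQ : q1 * q2 ≤ Q ^ 2 := by
      rw [sq]
      exact Nat.mul_le_mul l1 l2
    have per : ∀ f : ℤ → ℝ, ∀ q q' : ℕ, (∀ x, f (x + q) = f x) →
        (∀ x, f (x + (q * q' : ℕ)) = f x) ∧ ∀ x, f (x + (q' * q : ℕ)) = f x := fun f q q' h => by
      have := Function.Periodic.nat_mul (f := f) (c := (q : ℤ)) h q'
      push_cast
      exact ⟨fun x => by rw [mul_comm]; exact this x, this⟩
    have key := offdiag hr hk hrk hW hq h0 hh hl hH4 hH hrY (hqQ.trans hQY) hT S N E Z a0 hβ0 hβ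
      (Ss.filter fun s => s.Coprime (q1 * q2)) (fun s hs => by
        obtain ⟨k0, k5⟩ := mem_filter.1 hs
        obtain ⟨⟨k1, k1'⟩, k2, k3, k4⟩ := (mS s).1 k0
        exact ⟨k1, k1', k2, k5, k3, k4⟩)
      (fun s a e => χ q1 s a e * χ q2 s a e) (fun s a e => by
        rw [abs_mul]
        exact mul_le_one₀ (hχ _ _ _ _) (abs_nonneg _) (hχ _ _ _ _))
      (fun s a e => by
        rw [(per (fun a => χ q1 s a e) q1 q2 fun x => hχa q1 s x e).1 a,
          (per (fun a => χ q2 s a e) q2 q1 fun x => hχa q2 s x e).2 a])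
      (fun s a e => by
        rw [(per (χ q1 s a) q1 q2 (hχe q1 s a)).1 e, (per (χ q2 s a) q2 q1 (hχe q2 s a)).2 e])
      fun s a => by
        rw [sum_crt ((Nat.coprime_primes p1 p2).2 hne) (χ q1 s a) (χ q2 s a) (hχe q1 s a)
          (hχe q2 s a), hχ0 q1 h1, zero_mul]
    rw [← sum_filter_of_ne (p := fun s => s.Coprime (q1 * q2)) fun s _ hs => by
      by_contra hc
      exact hs (zero s fun h => hc (Nat.Coprime.coprime_mul_right h))]
    refine ((le_abs_self _).trans key).trans ?_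
    have hqQ' : ((q1 * q2 : ℕ) : ℝ) ≤ Q ^ 2 := by exact_mod_cast hqQ
    rw [hB, show (Q : ℝ) ^ 4 = (Q ^ 2) ^ 2 by ring]
    gcongr
  have up : ∑ p ∈ Qs ×ˢ Qs, ∑ s ∈ Ss, ∑ a ∈ Ico a0 (a0 + N), ∑ e1 ∈ range (2 * E),
      ∑ e2 ∈ range (2 * E), G p.1 p.2 s a (e1 - e2) ≤
      Qs.card * (S * (N * (2 * E * (2 * Z + 1))) + Qs.card * (E * S * B)) := by
    rw [sum_product, ← nsmul_eq_mul]
    refine sum_le_card_nsmul _ _ _ fun q1 h1 => ?_
    rw [← add_sum_erase _ _ h1]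
    refine add_le_add (dg q1) ((sum_le_card_nsmul _ _ (E * S * B) fun q2 h2 =>
      od q1 h1 q2 (mem_of_mem_erase h2) (ne_of_mem_erase h2).symm).trans ?_)
    rw [nsmul_eq_mul]
    exact mul_le_mul_of_nonneg_right (by exact_mod_cast card_erase_le) B0
  have fin := (mul_le_mul_of_nonneg_left low hE.le).trans (mid.trans up)
  rw [← hB]
  refine le_of_mul_le_mul_left (a := (E : ℝ) * ((Qs.card : ℝ) / 2) ^ 2) ?_ (by positivity)
  refine le_trans (le_of_eq ?_) (fin.trans (le_of_eq ?_))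
  · ring
  · field_simp
    ring

end Pool.Agent.Lib.MP_9c5702_nt.Cube
end

-- part Pool.Agent.Lib.MP_9c5702_nt.Cube.Num
section

/-! The square sieve with all parameters chosen as powers of `T`. -/

set_option autoImplicit false

namespace Pool.Agent.Lib.MP_9c5702_nt.Cube

open Finset

theorem beta_cond {S N m H t y A G β r : ℝ} (hS : 0 ≤ S) (hm : 0 < m) (ht : 0 ≤ t)
    (hA : 0 ≤ A) (hG : 0 ≤ G) (hr : 0 < r) (hy : 1 ≤ y) (h1 : m ≤ y * A) (h2 : A ≤ y * S)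
    (h3 : A ≤ N) (hG1 : G * r ≤ m) (hG2 : G * y ^ 3 ≤ A) (h4 : 8 * 4 ^ 8 * y ^ 3 * t ≤ H ^ 4 * β ^ 8)
    (h5 : r ≤ y) (h6 : 8 * t ^ 5 ≤ r * β ^ 8) :
    (S / m + 1) * (N / m + 1) * t * m * (4 ^ 8 * H ^ 4 * m + H ^ 8 * t ^ 4 * G) ≤
      S * N * H ^ 8 * β ^ 8 := by
  have hN : 0 ≤ N := hA.trans h3
  have hy0 : 0 < y := by linarith
  have e1 : (S / m + 1) * (N / m + 1) * t * m * (4 ^ 8 * H ^ 4 * m + H ^ 8 * t ^ 4 * G) =
      (S + m) * (N + m) * (4 ^ 8 * t * H ^ 4) +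
        (S * N * (G / m) + (S * G + N * G + m * G)) * (H ^ 8 * t ^ 5) := by
    field_simp
    ring
  have a1 : S + m ≤ 2 * y ^ 2 * S := by
    have : m ≤ y ^ 2 * S := by nlinarith [mul_le_mul_of_nonneg_left h2 hy0.le]
    have : S ≤ y ^ 2 * S := le_mul_of_one_le_left hS (one_le_pow₀ hy)
    linarith
  have a2 : N + m ≤ 2 * y * N := by
    have : m ≤ y * N := h1.trans (mul_le_mul_of_nonneg_left h3 hy0.le)
    have : N ≤ y * N := le_mul_of_one_le_left hN hy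
    linarith
  have b1 : (S + m) * (N + m) * (4 ^ 8 * t * H ^ 4) ≤ S * N * H ^ 8 * β ^ 8 / 2 := by
    calc (S + m) * (N + m) * (4 ^ 8 * t * H ^ 4)
        ≤ (2 * y ^ 2 * S) * (2 * y * N) * (4 ^ 8 * t * H ^ 4) := by gcongr
      _ = S * N * H ^ 4 * (8 * 4 ^ 8 * y ^ 3 * t) / 2 := by ring
      _ ≤ S * N * H ^ 4 * (H ^ 4 * β ^ 8) / 2 := by gcongr
      _ = _ := by ring
  have hGy : G ≤ A / y ^ 3 := by rw [le_div_iff₀ (by positivity)]; exact hG2
  have hSN : 0 ≤ S * N := mul_nonneg hS hN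
  have c0 : S * N / y ≤ S * N / r := by gcongr
  have c1 : S * N * (G / m) ≤ S * N / r := by
    have : G / m ≤ 1 / r := by rw [div_le_div_iff₀ hm hr]; linarith
    calc S * N * (G / m) ≤ S * N * (1 / r) := by gcongr
      _ = _ := by ring
  have c2 : S * G ≤ S * N / y := by
    calc S * G ≤ S * (N / y) := by
          gcongr
          refine hGy.trans ?_
          gcongr
          exact le_self_pow₀ hy (by norm_num)
      _ = _ := by ring
  have c3 : N * G ≤ S * N / y := by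
    calc N * G ≤ N * (y * S / y ^ 3) := by gcongr; exact hGy.trans (by gcongr)
      _ = S * N / y ^ 2 := by field_simp
      _ ≤ _ := by gcongr; exact le_self_pow₀ hy (by norm_num)
  have c4 : m * G ≤ S * N / y := by
    calc m * G ≤ (y * (y * S)) * (N / y ^ 3) := by
          gcongr
          · exact h1.trans (by gcongr)
          · exact hGy.trans (by gcongr)
      _ = _ := by field_simp
  have b2 : (S * N * (G / m) + (S * G + N * G + m * G)) * (H ^ 8 * t ^ 5) ≤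
      S * N * H ^ 8 * β ^ 8 / 2 := by
    have h7 : t ^ 5 ≤ r * β ^ 8 / 8 := by linarith
    calc _ ≤ (4 * (S * N / r)) * (H ^ 8 * (r * β ^ 8 / 8)) := by
          gcongr
          linarith
      _ = _ := by field_simp; ring
  rw [e1]
  linarith

theorem final_cond {t S N A Qc : ℝ} (ht : 100 ≤ t) (hA : 0 ≤ A) (hN : 2 * A ≤ N)
    (hS : S * t ^ 89999 ≤ t ^ 144 * A) (hQ : t ^ 1142 ≤ Qc) :
    8 * N * (2 * t ^ 799 + 1) / Qc + 4 * (8 * t ^ 4915 * t ^ 799 * (1 / t ^ 6058) * N +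
      16 * t ^ 4915 * t ^ 799 * (t ^ 1143) ^ 2 * S * t ^ 81511 +
        (t ^ 1143) ^ 4 * N / (2 * t ^ 4915)) ≤ N / t ^ 342 := by
  have h0 : 0 < t := by linarith
  have h1 : 1 ≤ t := by linarith
  have hN0 : 0 ≤ N := by linarith
  obtain ⟨u, hu⟩ : ∃ u, u = t ^ 343 := ⟨_, rfl⟩
  have hu0 : 0 < u := by rw [hu]; positivity
  have a1 : 8 * N * (2 * t ^ 799 + 1) / Qc ≤ 24 * (N / u) := by
    have : 2 * t ^ 799 + 1 ≤ 3 * t ^ 799 := by linarith [one_le_pow₀ (n := 799) h1]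
    calc _ ≤ 8 * N * (3 * t ^ 799) / t ^ 1142 := by gcongr
      _ = _ := by
        rw [hu, show t ^ 1142 = t ^ 799 * t ^ 343 by rw [← pow_add]]
        generalize ha : t ^ 799 = a
        have : 0 < a := by rw [← ha]; positivity
        field_simp
        ring
  have a2 : 8 * t ^ 4915 * t ^ 799 * (1 / t ^ 6058) * N ≤ N / u := by
    have e : t ^ 6058 = t ^ 4915 * t ^ 799 * u * t := by rw [hu, ← pow_add, ← pow_add, ← pow_succ]
    rw [e]
    generalize ha : t ^ 4915 = a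
    generalize hb : t ^ 799 = b
    have : 0 < a := by rw [← ha]; positivity
    have : 0 < b := by rw [← hb]; positivity
    calc _ = N / u * (8 / t) := by field_simp
      _ ≤ N / u * 1 := by gcongr; rw [div_le_one h0]; linarith
      _ = _ := mul_one _
  have a3 : 16 * t ^ 4915 * t ^ 799 * (t ^ 1143) ^ 2 * S * t ^ 81511 ≤ N / u := by
    have e : t ^ 89999 = t ^ 89511 * (t ^ 144 * u * t) := by
      rw [hu, ← pow_add, ← pow_succ, ← pow_add]
    have e2 : 16 * t ^ 4915 * t ^ 799 * (t ^ 1143) ^ 2 * S * t ^ 81511 = 16 * S * t ^ 89511 := by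
      rw [show t ^ 89511 = t ^ 4915 * t ^ 799 * (t ^ 1143) ^ 2 * t ^ 81511 by
        rw [← pow_mul, ← pow_add, ← pow_add, ← pow_add]]
      generalize t ^ 4915 = a
      generalize t ^ 799 = b
      generalize t ^ 1143 = c
      generalize t ^ 81511 = d
      ring
    rw [e2, le_div_iff₀ hu0]
    rw [e] at hS
    generalize t ^ 89511 = a at *
    generalize hb : t ^ 144 = b at *
    have hb0 : 0 < b := by rw [← hb]; positivity
    have h2 : S * a * u * t ≤ A := by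
      refine le_of_mul_le_mul_left ?_ hb0
      linarith
    by_cases h3 : 0 ≤ S * a * u
    · nlinarith
    · nlinarith
  have a4 : (t ^ 1143) ^ 4 * N / (2 * t ^ 4915) = N / u / 2 := by
    rw [show t ^ 4915 = (t ^ 1143) ^ 4 * u by rw [hu, ← pow_mul, ← pow_add]]
    generalize ha : t ^ 1143 = a
    have : 0 < a := by rw [← ha]; positivity
    field_simp
  have a5 : 34 * (N / u) ≤ N / t ^ 342 := by
    rw [hu, pow_succ t 342]
    generalize ha : t ^ 342 = a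
    have : 0 < a := by rw [← ha]; positivity
    calc _ = N / a * (34 / t) := by field_simp
      _ ≤ N / a * 1 := by gcongr; rw [div_le_one h0]; linarith
      _ = _ := mul_one _
  rw [a4]
  linarith

theorem sieve_T {T r k A l : ℕ} (hT : 100 ≤ T) (hr : r.Prime) (hk : Squarefree k)
    (hrk : r.Coprime k) (hkA : k ≤ A) (hA : T ^ 6120000 ≤ A) (hl : l < T ^ 144)
    (hr1 : T ^ 89999 ≤ r) (hr2 : r ≤ T ^ 90000) {W : ℤ} (hW : IsCoprime W ((r * k : ℕ) : ℤ))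
    (hω : 2 ^ (r * k).primeFactors.card ≤ T) (E : ℕ) (Qs : Finset ℕ)
    (hQs : ∀ q ∈ Qs, q.Prime ∧ q ≤ T ^ 1143) (hQc : T ^ 1142 ≤ Qs.card)
    (χ : ℕ → ℕ → ℤ → ℤ → ℝ) (hχ : ∀ q s a e, |χ q s a e| ≤ 1)
    (hχa : ∀ q s a e, χ q s (a + q) e = χ q s a e) (hχe : ∀ q s a e, χ q s a (e + q) = χ q s a e)
    (hχ0 : ∀ q ∈ Qs, ∀ s a, ∑ e ∈ range q, χ q s a e = 0)
    (hχc : ∀ q ∈ Qs, ∀ s a e, q ∣ s * (r * k) → χ q s a e = 0)
    (Ts : Finset (ℕ × ℤ × ℤ))
    (hTs : ∀ τ ∈ Ts, 1 ≤ τ.1 ∧ τ.1 ≤ T ^ 144 * A / r ∧ τ.1.Coprime (r * k) ∧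
      E ≤ T ^ 799 * (τ.1 * (r * k)) ∧ τ.1 * (r * k) ≤ E ∧
      τ.2.1 ∈ Ico (-(A : ℤ)) (-(A : ℤ) + (2 * A + 1 : ℕ)) ∧ |τ.2.2| ≤ E ∧
      CondS W τ.1 τ.2.1 τ.2.2 ∧ CondM (r * k : ℕ) l W (r * τ.1) τ.2.1 τ.2.2 ∧
      (Qs.card : ℝ) ≤ 2 * ∑ q ∈ Qs, χ q τ.1 τ.2.1 τ.2.2) :
    (Ts.card : ℝ) ≤ (A : ℝ) ^ 2 / (r * T ^ 197) := by
  have pw : ∀ a b : ℕ, a ≤ b → T ^ a ≤ T ^ b := fun a b h => Nat.pow_le_pow_right (by omega) h
  have pw' : ∀ a b : ℕ, a < b → T ^ a < T ^ b := fun a b h => Nat.pow_lt_pow_right (by omega) h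
  have ht : (100 : ℝ) ≤ T := by exact_mod_cast hT
  have h0 : (0 : ℝ) < T := by linarith
  have h1 : (1 : ℝ) ≤ T := by linarith
  have hr0 : (0 : ℝ) < r := by exact_mod_cast hr.pos
  have hk0 : 0 < k := Nat.pos_of_ne_zero hk.ne_zero
  have hn : l ^ 2 + l + 1 < r := by
    have : l ^ 2 + l + 1 ≤ (T ^ 144) ^ 2 := by nlinarith
    rw [← pow_mul] at this
    exact this.trans_lt ((pw' _ _ (by norm_num)).trans_le hr1)
  have hA1 : 1 ≤ A := (Nat.one_le_pow _ _ (by omega)).trans hA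
  obtain ⟨S, hS⟩ : ∃ S, S = T ^ 144 * A / r := ⟨_, rfl⟩
  have hS1 : S * r ≤ T ^ 144 * A := hS ▸ Nat.div_mul_le_self _ _
  have hS2 : A ≤ T ^ 90000 * S := by
    have h3 : T ^ 144 * A < r * (S + 1) := hS ▸ Nat.lt_mul_div_succ _ hr.pos
    have h4 : r ≤ A := hr2.trans ((pw _ _ (by norm_num)).trans hA)
    have h5 : 2 * A ≤ T ^ 144 * A :=
      Nat.mul_le_mul_right _ ((show 2 ≤ T ^ 1 by rw [pow_one]; omega).trans (pw _ _ (by norm_num)))
    have h6 : r * S ≤ T ^ 90000 * S := Nat.mul_le_mul_right _ hr2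
    generalize T ^ 90000 * S = X at *
    generalize T ^ 144 * A = X' at *
    rw [mul_add_one] at h3
    omega
  rw [← hS] at hTs
  have key := sieve (Q := T ^ 1143) (H := T ^ 81511) (H0 := T ^ 4915) (Y := T ^ 90000) (T := T)
    hr hk hrk hW (Nat.one_le_pow _ _ (by omega)) ((pw' _ _ (by norm_num)).trans_le hr1) hn
    ((show 4 ≤ T ^ 1 by rw [pow_one]; omega).trans (pw _ _ (by norm_num))) ((pw _ _ (by norm_num)).trans hr1) hr2
    (by rw [← pow_mul]; exact pw _ _ (by norm_num)) hω S (2 * A + 1) E (T ^ 799) (-(A : ℤ))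
    (β := 1 / (T : ℝ) ^ 6058) (by positivity) ?_ Qs
    (card_pos.1 ((Nat.one_le_pow _ _ (by omega)).trans hQc)) hQs χ hχ hχa hχe hχ0 hχc Ts hTs
  · have h2 := final_cond (S := S) (N := (2 * A + 1 : ℕ)) (A := A) (Qc := Qs.card) ht (by positivity)
      (by push_cast; linarith)
      (by exact_mod_cast (Nat.mul_le_mul_left S hr1).trans hS1) (by exact_mod_cast hQc)
    simp only [Nat.cast_pow] at key
    refine key.trans ((mul_le_mul_of_nonneg_left h2 (by positivity)).trans ?_)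
    have h3 : (S : ℝ) ≤ T ^ 144 * A / r := by
      rw [le_div_iff₀ hr0]; exact_mod_cast hS1
    have h4 : ((2 * A + 1 : ℕ) : ℝ) ≤ T * A := by
      have : 2 * A + 1 ≤ T * A := by nlinarith
      exact_mod_cast this
    calc _ ≤ (T ^ 144 * A / r : ℝ) * (T * A / T ^ 342) := by gcongr
      _ = _ := by
        rw [show (T : ℝ) ^ 342 = T ^ 144 * T * T ^ 197 by rw [← pow_succ, ← pow_add]]
        generalize ha : (T : ℝ) ^ 144 = a
        generalize hb : (T : ℝ) ^ 197 = b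
        have : 0 < a := by rw [← ha]; positivity
        have : 0 < b := by rw [← hb]; positivity
        field_simp
  · have rp : ∀ a b : ℕ, a ≤ b → (T : ℝ) ^ a ≤ T ^ b := fun a b h => pow_le_pow_right₀ h1 h
    refine beta_cond (y := (T ^ 90000 : ℕ)) (A := A) (r := r) (by positivity) (by positivity)
      h0.le (by positivity) (by positivity) hr0
      (by exact_mod_cast Nat.one_le_pow _ _ (by omega))
      (by exact_mod_cast Nat.mul_le_mul hr2 hkA) (by exact_mod_cast hS2) (by push_cast; linarith [h0])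
      ?_ ?_ ?_ (by exact_mod_cast hr2) ?_
    · have : min k ((T ^ 90000) ^ 65) * r ≤ r * k := by
        rw [mul_comm]; exact Nat.mul_le_mul_left _ (min_le_left _ _)
      exact_mod_cast this
    · have : min k ((T ^ 90000) ^ 65) * (T ^ 90000) ^ 3 ≤ A := by
        refine (Nat.mul_le_mul_right _ (min_le_right _ _)).trans ?_
        rw [← pow_add, ← pow_mul]
        exact hA
      exact_mod_cast this
    · rw [Nat.cast_pow, Nat.cast_pow, div_pow, one_pow, mul_one_div, ← pow_mul, ← pow_mul,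
        ← pow_mul, le_div_iff₀ (by positivity)]
      have h5 : (8 * 4 ^ 8 : ℝ) ≤ T ^ 3 := le_trans (by norm_num) (pow_le_pow_left₀ (by norm_num) ht 3)
      calc _ ≤ (T : ℝ) ^ 3 * T ^ (90000 * 3) * T * T ^ (6058 * 8) := by gcongr
        _ ≤ _ := by rw [← pow_add, ← pow_succ, ← pow_add]; exact rp _ _ (by norm_num)
    · rw [div_pow, one_pow, mul_one_div, ← pow_mul, le_div_iff₀ (by positivity)]
      calc _ ≤ (T : ℝ) * T ^ 5 * T ^ (6058 * 8) := by gcongr; linarith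
        _ ≤ T ^ 89999 := by rw [← pow_succ', ← pow_add]; exact rp _ _ (by norm_num)
        _ ≤ _ := by exact_mod_cast hr1

end Pool.Agent.Lib.MP_9c5702_nt.Cube
end

-- part Pool.Agent.Lib.MP_9c5702_nt.Cube.Dir
section

/-! The count for one direction and one prime. -/

set_option autoImplicit false

namespace Pool.Agent.Lib.MP_9c5702_nt.Cube

open Finset

theorem kprime {k U c B V : ℕ} (hk : 1 ≤ k) (hc : 1 ≤ c) (hU : ∀ j, j ^ 2 ∣ k → j ≤ U)
    (hV : Nat.gcd k B ≤ V) :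
    ∃ k', k' ∣ k ∧ Squarefree k' ∧ k'.Coprime (3 * c * B) ∧ k ≤ U ^ 2 * (3 * c) * V * k' := by
  obtain ⟨i, j, hij, hi⟩ := Nat.sq_mul_squarefree k
  obtain ⟨k', hk'⟩ := Nat.gcd_dvd_left i (3 * c * B)
  have hik : i ∣ k := ⟨j ^ 2, by rw [← hij, mul_comm]⟩
  have hk'i : k' ∣ i := ⟨_, hk'.trans (mul_comm _ _)⟩
  refine ⟨k', hk'i.trans hik, hi.squarefree_of_dvd hk'i, ?_, ?_⟩
  · have h1 : (Nat.gcd i (3 * c * B)).Coprime k' := Nat.coprime_of_squarefree_mul (hk' ▸ hi)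
    refine Nat.coprime_of_dvd fun p hp h2 h3 => ?_
    exact hp.one_lt.ne' (Nat.eq_one_of_dvd_coprimes h1 (Nat.dvd_gcd (h2.trans hk'i) h3) h2)
  · have h1 : Nat.gcd i (3 * c * B) ≤ 3 * c * V := by
      have h2 : Nat.gcd i (3 * c * B) ∣ Nat.gcd i (3 * c) * Nat.gcd i B :=
        Nat.gcd_mul_right_dvd_mul_gcd _ _ _
      have h3 : 0 < i := Nat.pos_of_ne_zero hi.ne_zero
      refine (Nat.le_of_dvd (by positivity) h2).trans (Nat.mul_le_mul
        (Nat.gcd_le_right _ (by omega)) (le_trans ?_ hV))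
      exact Nat.le_of_dvd (Nat.gcd_pos_of_pos_left _ hk) (Nat.gcd_dvd_gcd_of_dvd_left _ hik)
    have h2 : j ≤ U := hU j ⟨i, hij.symm⟩
    calc k = j ^ 2 * (Nat.gcd i (3 * c * B) * k') := by rw [← hk', hij]
      _ ≤ U ^ 2 * (3 * c * V * k') := by gcongr
      _ = _ := by ring

theorem isCoprime_of_prime {x : ℤ} {m : ℕ} (h : ∀ p : ℕ, p.Prime → p ∣ m → ¬ (p : ℤ) ∣ x) :
    IsCoprime x (m : ℤ) := by
  rw [Int.isCoprime_iff_gcd_eq_one, Int.gcd_eq_natAbs, Int.natAbs_natCast]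
  exact Nat.coprime_of_dvd fun p hp h1 h2 => h p hp h2 (Int.natCast_dvd.2 h1)

/-- the sum of the solution recovered from the parameters -/
def sig (c w l r : ℤ) (τ : ℕ × ℤ × ℤ) : ℕ :=
  ((nf l (r * τ.1) τ.2.1 * τ.2.2 - c * w * ((l + 1) * (r * τ.1) - (l ^ 2 + l + 1) * τ.2.1)) /
    (c * (r * τ.1))).toNat

/-- the conditions of the sieve -/
def Trip (w T k k' c c2 l r A : ℕ) (ε : ℤ) (Qs : Finset ℕ) (τ : ℕ × ℤ × ℤ) : Prop :=
  1 ≤ τ.1 ∧ τ.1 ≤ T ^ 144 * A / r ∧ τ.1.Coprime (r * k') ∧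
    T ^ 192 * A * k ≤ T ^ 799 * (τ.1 * (r * k')) ∧ τ.1 * (r * k') ≤ T ^ 192 * A * k ∧
    τ.2.1 ∈ Ico (-(A : ℤ)) (-(A : ℤ) + (2 * A + 1 : ℕ)) ∧ |τ.2.2| ≤ (T ^ 192 * A * k : ℕ) ∧
    CondS (c * w) τ.1 τ.2.1 τ.2.2 ∧ CondM (r * k' : ℕ) l (c * w) (r * τ.1) τ.2.1 τ.2.2 ∧
    (Qs.card : ℝ) ≤ 2 * ∑ q ∈ Qs, (jacobiSym (gpar ε c c2 k w l r τ.1 τ.2.1 τ.2.2) q : ℝ)

theorem e_bound {N e c u w B σ A L U c2 k d : ℤ} (hN : 0 < N) (he : N * e = c * (u * w + B * σ))
    (hc : 1 ≤ c) (hw : 0 ≤ w) (hu : |u| ≤ (L + 1) * A) (hB0 : 0 ≤ B) (hB : B ≤ L * A) (hσ0 : 0 ≤ σ)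
    (hσ : σ ≤ 3 * w) (hd : w ≤ U * d) (hd0 : 0 ≤ d) (hU : 0 ≤ U) (hcd : c * d = c2 * k * N) :
    |e| ≤ c * (4 * L + 1) * U * c2 * A * k := by
  have h0 : 0 ≤ (4 * L + 1) * A := by linarith [abs_nonneg u]
  have h1 : |u * w + B * σ| ≤ (4 * L + 1) * A * w := by
    refine (abs_add_le _ _).trans ?_
    rw [abs_mul, abs_of_nonneg hw, abs_of_nonneg (mul_nonneg hB0 hσ0)]
    have := mul_le_mul_of_nonneg_right hu hw
    have := mul_le_mul hB hσ hσ0 (hB0.trans hB)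
    linarith
  have h2 : w ≤ U * (c2 * k * N) := by
    rw [← hcd]
    exact hd.trans (mul_le_mul_of_nonneg_left (le_mul_of_one_le_left hd0 hc) hU)
  refine le_of_mul_le_mul_left ?_ hN
  calc N * |e| = c * |u * w + B * σ| := by
        rw [← abs_of_pos hN, ← abs_mul, he, abs_mul, abs_of_nonneg (by linarith : 0 ≤ c)]
    _ ≤ c * ((4 * L + 1) * A * (U * (c2 * k * N))) := by
        refine mul_le_mul_of_nonneg_left (h1.trans ?_) (by linarith)
        exact mul_le_mul_of_nonneg_left h2 h0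
    _ = _ := by ring

theorem gq_square {x y z w : ℕ} (h : x ^ 3 + y ^ 3 + z ^ 3 = w ^ 3) (hx : 0 < x) (hz : 0 < z)
    (hy : 0 < y) (c B : ℕ) :
    ∃ ε ∈ ({0, 1} : Finset ℤ), ∃ n0 n4 : ℕ, (n0 = 3 ∨ n0 = 6) ∧ 1 ≤ n4 ∧ n4 ≤ x + y + z ∧
      gq ε (c * (x + y) * B) (c * B * (x + y + z : ℕ)) (c * w * B) =
        ((n0 * (c * B) ^ 2 * (x + y) * n4 : ℕ) : ℤ) ^ 2 := by
  have h' : (x : ℤ) ^ 3 + y ^ 3 + z ^ 3 = w ^ 3 := by exact_mod_cast h
  rcases eq_or_ne x y with rfl | hxy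
  · refine ⟨0, by simp, 6, x + z, Or.inr rfl, by omega, by omega, ?_⟩
    unfold gq
    push_cast
    linear_combination (24 * (c * B : ℤ) ^ 4 * x) * h'
  · refine ⟨1, by simp, 3, ((x : ℤ) - y).natAbs, Or.inl rfl, by omega, by omega, ?_⟩
    unfold gq
    push_cast
    rw [mul_pow _ |_|, sq_abs]
    linear_combination (-12 * (c * B : ℤ) ^ 4 * (x + y)) * h'

theorem le_cube (w : ℕ) : 3 * w ≤ 27 * w ^ 3 := by
  nlinarith [Nat.le_self_pow (show 3 ≠ 0 by norm_num) w]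

theorem n_le {l L : ℕ} (h : l < L) : l ^ 2 + l + 1 ≤ L ^ 2 := by nlinarith

theorem five_le {T X : ℕ} (hT : 100 ≤ T) (hX : 1 ≤ X) : 4 * X + 1 ≤ T * X := by nlinarith

theorem triple {w T k c c2 l r A σ : ℕ} {a b : ℤ} (hT : 100 ≤ T) (hdiv : Div w T) (Qs : Finset ℕ)
    (hQs : ∀ q ∈ Qs, q.Prime ∧ 3 < q) (hQc : 8 * T ≤ Qs.card) (hk : 1 ≤ k)
    (hA : T ^ 144 ≤ A) (hAw : A ^ 2 ≤ 2 * w) (hc : 1 ≤ c) (hc' : c ≤ T ^ 16) (hc2 : c2 ≤ T ^ 26)
    (hl : l < T ^ 144) (hr : r.Prime) (hr1 : T ^ 289 ≤ r) (hrw : ¬ r ∣ w)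
    (hg : Good w (T ^ 5) σ) (ha : |a| ≤ A) (hb : |b| ≤ A) (hrep : Rep w σ k c c2 a b)
    (hdir : Dir k A (T ^ 290) r l a b) (hpos : 0 < a + l * b) :
    ∃ k' ∈ k.divisors, ∃ ε ∈ ({0, 1} : Finset ℤ), Squarefree k' ∧ r.Coprime k' ∧
      IsCoprime (c * w : ℤ) ((r * k' : ℕ) : ℤ) ∧
      ∃ τ, Trip w T k k' c c2 l r A ε Qs τ ∧ σ = sig c w l r τ := by
  have pw : ∀ a b : ℕ, a ≤ b → T ^ a ≤ T ^ b := fun a b h => Nat.pow_le_pow_right (by omega) h
  have pw' : ∀ a b : ℕ, a < b → T ^ a < T ^ b := fun a b h => Nat.pow_lt_pow_right (by omega) h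
  have hgd := @Rep.gcd_dvd _ _ _ _ _ _ _ hrep
  obtain ⟨x, y, z, hx, hy, hz, hs, hσ, hkσ, hab, hcd, hgc, μ, ν, h1, h2⟩ := hrep
  obtain ⟨g1, g2, g3, -, g5⟩ := hg
  obtain ⟨d1, d2, d3, d4⟩ := hdir
  obtain ⟨B, hB⟩ : ∃ B : ℕ, a + l * b = B := ⟨_, (Int.toNat_of_nonneg hpos.le).symm⟩
  rw [hB] at d1 d2 d3 d4 hpos
  obtain ⟨s, hs'⟩ := Int.natCast_dvd_natCast.1 d1
  have hB0 : 0 < B := by exact_mod_cast hpos
  have hkσ' : k ∣ σ - w := by
    rw [← Int.natCast_dvd_natCast, Nat.cast_sub g1.le]; exact hkσ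
  obtain ⟨k', hk'k, hsq, hcop, hkk⟩ := kprime (U := T ^ 5) (c := c) (B := B) (V := T ^ 290) hk hc
    (fun j hj => g5 j (hj.trans hkσ')) (by simpa using d3)
  have hBA : B ≤ T ^ 144 * A := by
    have h3 : (B : ℤ) ≤ A + l * A := by
      rw [← hB]
      exact add_le_add (le_of_abs_le ha) (mul_le_mul_of_nonneg_left (le_of_abs_le hb) (by positivity))
    have h4 : B ≤ (l + 1) * A := by zify; linarith
    exact h4.trans (Nat.mul_le_mul_right _ hl)
  have hw : 1 ≤ w := by omega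
  have hw3 := le_cube w
  have hA1 : 1 ≤ A := (Nat.one_le_pow _ _ (by omega)).trans hA
  have hzw : z < w := lt_of_pow_lt_pow_left₀ 3 (by omega) (by have := pow_pos hx 3; omega)
  obtain ⟨ε, hε, n0, n4, hn0, hn4, hn4', hsqr⟩ := gq_square hs hx hz hy c B
  have hn : l ^ 2 + l + 1 < r := by
    have := n_le hl
    rw [← pow_mul] at this
    exact this.trans_lt ((pw' _ _ (by norm_num)).trans_le hr1)
  have hrB : r ∣ B := ⟨s, hs'⟩
  have hsB : s ∣ B := ⟨r, hs'.trans (mul_comm _ _)⟩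
  have hk'B : k'.Coprime B := hcop.coprime_dvd_right (dvd_mul_left _ _)
  have hk'c : ∀ p : ℕ, p.Prime → p ∣ k' → ¬ p ∣ 3 * c := fun p hp h3 h4 =>
    hp.one_lt.ne' (Nat.eq_one_of_dvd_coprimes hcop h3 (h4.mul_right _))
  have hrk : r.Coprime k' := (hk'B.coprime_dvd_right hrB).symm
  have hbB : IsCoprime b (B : ℤ) := by
    rw [← hB, mul_comm]; exact hab.symm.add_mul_left_right _
  have hBs : (r : ℤ) * s = B := by exact_mod_cast hs'.symm
  have hN : nf (l : ℤ) B b = a ^ 2 - a * b + b ^ 2 := by rw [← hB]; unfold nf; ring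
  have hN0 : 0 < a ^ 2 - a * b + b ^ 2 := by
    have h3 : 0 < (c : ℤ) * (x + y) := by positivity
    rw [hcd] at h3
    exact pos_of_mul_pos_right h3 (by positivity)
  have he : (a ^ 2 - a * b + b ^ 2) * (μ - (l + 1) * ν) =
      c * (((l + 1) * a - b) * w + B * σ) := by
    rw [← hB]
    linear_combination (a + l * b) * h1 + (b - (l + 1) * a) * h2
  have hu : (l + 1 : ℤ) * B - (l ^ 2 + l + 1) * b = (l + 1) * a - b := by rw [← hB]; ring
  refine ⟨k', Nat.mem_divisors.2 ⟨hk'k, by omega⟩, ε, hε, hsq, hrk, ?_, (s, b, μ - (l + 1) * ν),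
    ⟨?_, ?_, ?_, ?_, ?_, ?_, ?_, ⟨?_, ?_⟩, ⟨?_, ?_⟩, ?_⟩, ?_⟩
  · refine isCoprime_of_prime fun p hp h3 h4 => ?_
    have h5 : p ∣ c * w := by exact_mod_cast h4
    rcases (hp.dvd_mul).1 h3 with h6 | h6
    · obtain rfl := (Nat.prime_dvd_prime_iff_eq hp hr).1 h6
      rcases (hp.dvd_mul).1 h5 with h7 | h7
      · exact absurd (Nat.le_of_dvd hc h7)
          (not_le.2 (hc'.trans_lt ((pw' _ _ (by norm_num)).trans_le hr1)))
      · exact hrw h7
    · refine hk'c p hp h6 (Dvd.dvd.mul_left ?_ _)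
      rcases (hp.dvd_mul).1 h5 with h7 | h7
      · exact h7
      · refine (Nat.dvd_gcd ?_ h7).trans hgc
        have := Nat.dvd_add (h6.trans (hk'k.trans hkσ')) h7
        rwa [Nat.sub_add_cancel g1.le] at this
  · exact Nat.pos_of_dvd_of_pos hsB hB0
  · exact (Nat.le_div_iff_mul_le hr.pos).2 (by rw [mul_comm s r, ← hs']; exact hBA)
  · refine Nat.Coprime.mul_right ?_ (hk'B.coprime_dvd_right hsB).symm
    refine ((Nat.Prime.coprime_iff_not_dvd hr).2 fun ⟨t, ht⟩ => d2 ⟨t, ?_⟩).symm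
    rw [← hBs, show s = r * t from ht]; push_cast; ring
  · have h3 : A ≤ T ^ 290 * B := by
      rw [abs_of_pos hpos] at d4
      exact_mod_cast d4
    have h4 : 3 * c ≤ T ^ 17 := by
      rw [pow_succ' T 16]; exact Nat.mul_le_mul (by omega) hc'
    calc T ^ 192 * A * k ≤ T ^ 192 * (T ^ 290 * B) * ((T ^ 5) ^ 2 * T ^ 17 * T ^ 290 * k') := by
          gcongr
          exact hkk.trans (by gcongr)
      _ = T ^ 799 * (s * (r * k')) := by
          rw [hs', show T ^ 799 = T ^ 192 * T ^ 290 * ((T ^ 5) ^ 2 * T ^ 17 * T ^ 290) by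
            rw [← pow_mul, ← pow_add, ← pow_add, ← pow_add, ← pow_add]]
          generalize T ^ 192 = X1
          generalize T ^ 290 = X2
          ring
  · calc s * (r * k') = B * k' := by rw [hs']; ring
      _ ≤ T ^ 192 * A * k := Nat.mul_le_mul
        (hBA.trans (Nat.mul_le_mul_right _ (pw _ _ (by norm_num)))) (Nat.le_of_dvd hk hk'k)
  · have := abs_le.1 hb
    rw [mem_Ico]
    push_cast
    constructor <;> linarith
  · have h3 := e_bound (L := (T ^ 144 : ℕ)) (A := A) (U := (T ^ 5 : ℕ)) hN0 he (by exact_mod_cast hc)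
      (by positivity) ?_ hpos.le (by exact_mod_cast hBA) (by positivity) (by exact_mod_cast g2.le)
      ?_ (by positivity) (by positivity) hcd
    · refine h3.trans ?_
      have h4 : c * (4 * T ^ 144 + 1) * T ^ 5 * c2 ≤ T ^ 192 := by
        have h5 : 4 * T ^ 144 + 1 ≤ T ^ 145 := by
          rw [pow_succ' T 144]
          exact five_le hT (Nat.one_le_pow 144 T (by omega))
        calc _ ≤ T ^ 16 * T ^ 145 * T ^ 5 * T ^ 26 := by gcongr
          _ = _ := by rw [← pow_add, ← pow_add, ← pow_add]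
      exact_mod_cast Nat.mul_le_mul_right k (Nat.mul_le_mul_right A h4)
    · refine (abs_sub _ _).trans ?_
      rw [abs_mul, abs_of_nonneg (by positivity : (0 : ℤ) ≤ l + 1)]
      have h4 : (l + 1 : ℤ) ≤ (T ^ 144 : ℕ) := by exact_mod_cast hl
      have := mul_le_mul h4 ha (abs_nonneg _) (by positivity)
      linarith
    · have : w ≤ T ^ 5 * (x + y) := g3.trans (Nat.mul_le_mul_left _ (by omega))
      exact_mod_cast this
  · exact hbB.of_isCoprime_of_dvd_right (Int.natCast_dvd_natCast.2 hsB)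
  · refine (Int.natCast_dvd_natCast.2 hsB).trans ⟨-ν, ?_⟩
    rw [← hB]
    linear_combination h2
  · dsimp only
    rw [hBs]
    refine isCoprime_of_prime fun p hp h3 h4 => ?_
    have hp' := Nat.prime_iff_prime_int.1 hp
    rcases (hp.dvd_mul).1 h3 with h6 | h6
    · obtain rfl := (Nat.prime_dvd_prime_iff_eq hp hr).1 h6
      have h7 : (p : ℤ) ∣ (l ^ 2 + l + 1) * b ^ 2 := by
        have := dvd_sub h4 (d1.mul_right (B - (2 * l + 1) * b))
        rwa [show nf (l : ℤ) B b - B * (B - (2 * l + 1) * b) = (l ^ 2 + l + 1) * b ^ 2 by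
          unfold nf; ring] at this
      rcases hp'.dvd_or_dvd h7 with h8 | h8
      · have h9 : p ∣ l ^ 2 + l + 1 := by exact_mod_cast h8
        exact absurd (Nat.le_of_dvd (by omega) h9) (not_le.2 hn)
      · exact hp'.not_isUnit (hbB.isUnit_of_dvd' (hp'.dvd_of_dvd_pow h8) d1)
    · rw [hN] at h4
      have h7 := hgd (Int.natCast_dvd_natCast.2 (h6.trans hk'k)) h4
      have h8 : p ∣ 3 * c ^ 2 * Nat.gcd σ w ^ 2 := by exact_mod_cast h7
      have h9 : p ∣ (3 * c) ^ 4 := h8.trans <| by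
        obtain ⟨t, ht⟩ := hgc
        exact ⟨27 * t ^ 2, by generalize Nat.gcd σ w = g at ht ⊢; subst ht; ring⟩
      exact hk'c p hp h6 (hp.dvd_of_dvd_pow h9)
  · dsimp only
    rw [hBs, hN, he]
    have h3 : ((r * k' : ℕ) : ℤ) ∣ B * (σ - w) := by
      push_cast
      exact mul_dvd_mul d1 ((Int.natCast_dvd_natCast.2 hk'k).trans hkσ)
    refine (h3.mul_left c).trans (Dvd.intro 1 ?_)
    unfold lf
    linear_combination (c * w : ℤ) * hu
  · have h3 : gpar ε c c2 k w l r s b (μ - (l + 1) * ν) =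
        ((n0 * (c * B) ^ 2 * (x + y) * n4 : ℕ) : ℤ) ^ 2 := by
      rw [← hsqr, gpar, hBs, hN, he, hu, ← hcd, ← hσ]
      congr 1
      ring
    have h4 := chi_sq hdiv Qs hQs (n1 := c) (n2 := B) (n3 := x + y) (n4 := n4)
      ⟨hc, ((hc'.trans ((pw 16 144 (by norm_num)).trans hA)).trans
        ((Nat.le_self_pow (by norm_num) A).trans hAw)).trans (by omega)⟩
      ⟨hB0, (hBA.trans ((Nat.mul_le_mul_right A hA).trans (sq A ▸ hAw))).trans (by omega)⟩
      ⟨by omega, by omega⟩ ⟨hn4, by omega⟩ hn0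
    dsimp only
    rw [h3]
    have h5 : (Qs.card : ℤ) ≤
        2 * ∑ q ∈ Qs, jacobiSym (((n0 * (c * B) ^ 2 * (x + y) * n4 : ℕ) : ℤ) ^ 2) q := by omega
    exact_mod_cast h5
  · unfold sig
    dsimp only
    rw [hBs, hN, he, hu, show (c : ℤ) * (((l + 1) * a - b) * w + B * σ) - c * w * ((l + 1) * a - b) =
      c * B * σ by ring, Int.mul_ediv_cancel_left _ (by positivity), Int.toNat_natCast]

theorem two_pow_le {m : ℕ} (hm : Squarefree m) : 2 ^ m.primeFactors.card ≤ m.divisors.card := by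
  rw [Nat.card_divisors hm.ne_zero, ← prod_const]
  refine prod_le_prod' fun p hp => ?_
  have := (Nat.prime_of_mem_primeFactors hp).factorization_pos_of_dvd hm.ne_zero
    (Nat.dvd_of_mem_primeFactors hp)
  omega

open Classical in
theorem count_dir {w T : ℕ} (hT : 100 ≤ T) (hdiv : Div w T) (Qs : Finset ℕ)
    (hQs : ∀ q ∈ Qs, q.Prime ∧ q % 3 = 2 ∧ 3 < q ∧ q ≤ T ^ 1143) (hQc : T ^ 1142 ≤ Qs.card)
    {k c c2 l r A : ℕ} (hk : 1 ≤ k) (hkA : k ≤ A) (hA : T ^ 6120000 ≤ A) (hAw : A ^ 2 ≤ 2 * w)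
    (hc : 1 ≤ c) (hc' : c ≤ T ^ 16) (hc2 : c2 ≤ T ^ 26) (hl : l < T ^ 144) (hr : r.Prime)
    (hr1 : T ^ 89999 ≤ r) (hr2 : r ≤ T ^ 90000) (hrw : ¬ r ∣ w) :
    (((range (3 * w)).filter fun σ => Good w (T ^ 5) σ ∧ ∃ a b : ℤ, |a| ≤ A ∧ |b| ≤ A ∧
      Rep w σ k c c2 a b ∧ Dir k A (T ^ 290) r l a b).card : ℝ) ≤
      (A : ℝ) ^ 2 / (r * T ^ 194) := by
  have pw : ∀ a b : ℕ, a ≤ b → T ^ a ≤ T ^ b := fun a b h => Nat.pow_le_pow_right (by omega) h
  have hA1 : 1 ≤ A := hk.trans hkA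
  have hA2 : A ≤ 2 * w := (Nat.le_self_pow (by norm_num) A).trans hAw
  have hw3 : 2 * w ≤ 27 * w ^ 3 := le_trans (by omega) (le_cube w)
  obtain ⟨E, hE⟩ : ∃ E, E = T ^ 192 * A * k := ⟨_, rfl⟩
  let Ts : ℕ × ℤ → Finset (ℕ × ℤ × ℤ) := fun i =>
    (Icc 1 (T ^ 144 * A / r) ×ˢ Ico (-(A : ℤ)) (-(A : ℤ) + (2 * A + 1 : ℕ)) ×ˢ
      Icc (-(E : ℤ)) E).filter fun τ => (Squarefree i.1 ∧ r.Coprime i.1 ∧
        IsCoprime (c * w : ℤ) ((r * i.1 : ℕ) : ℤ)) ∧ Trip w T k i.1 c c2 l r A i.2 Qs τ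
  have hTs : ∀ i ∈ k.divisors ×ˢ ({0, 1} : Finset ℤ),
      ((Ts i).card : ℝ) ≤ (A : ℝ) ^ 2 / (r * T ^ 197) := by
    rintro ⟨k', ε⟩ hi
    obtain ⟨hi1, hi2⟩ := mem_product.1 hi
    have hk' : k' ∣ k := Nat.dvd_of_mem_divisors hi1
    rcases (Ts (k', ε)).eq_empty_or_nonempty with h | ⟨τ, hτ⟩
    · rw [h, card_empty, Nat.cast_zero]; positivity
    obtain ⟨h1, h2, h3⟩ := (mem_filter.1 hτ).2.1
    have hsq : Squarefree (r * k') := (Nat.squarefree_mul h2).2 ⟨hr.squarefree, h1⟩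
    have hk'A := (Nat.le_of_dvd hk hk').trans hkA
    refine sieve_T hT hr h1 h2 hk'A hA hl hr1 hr2 h3
      ((two_pow_le hsq).trans (hdiv _ (Nat.pos_of_ne_zero hsq.ne_zero) (le_trans ?_ hw3))) _ Qs
      (fun q hq => ⟨(hQs q hq).1, (hQs q hq).2.2.2⟩) hQc
      (fun q s a e => jacobiSym (gpar ε c c2 k w l r s a e) q) (fun q s a e => ?_)
      (fun q s a e => by rw [chi_a]) (fun q s a e => by rw [chi_e]) (fun q hq s a => ?_)
      (fun q hq s a e h => ?_) _ fun τ hτ => (mem_filter.1 hτ).2.2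
    · exact le_trans (sq A ▸ Nat.mul_le_mul (hr2.trans ((pw _ _ (by norm_num)).trans hA)) hk'A) hAw
    · rcases jacobiSym.trichotomy (gpar ε c c2 k w l r s a e) q with h | h | h <;> simp [h]
    · have := chi_sum (ε := ε) (by simpa using hi2) c c2 k w l r s a (hQs q hq).1 (hQs q hq).2.1
        (hQs q hq).2.2.1
      exact_mod_cast this
    · have h4 : q ∣ k * r * s := h.trans <| by
        obtain ⟨t, rfl⟩ := hk'
        exact ⟨t, by ring⟩
      rw [chi_dvd _ _ _ _ _ _ _ _ _ _ (hQs q hq).1 (by exact_mod_cast h4), Int.cast_zero]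
  have hsub : ((range (3 * w)).filter fun σ => Good w (T ^ 5) σ ∧ ∃ a b : ℤ, |a| ≤ A ∧ |b| ≤ A ∧
      Rep w σ k c c2 a b ∧ Dir k A (T ^ 290) r l a b) ⊆
      (k.divisors ×ˢ ({0, 1} : Finset ℤ)).biUnion fun i => (Ts i).image (sig c w l r) := by
    intro σ hσ
    obtain ⟨hg, a, b, ha, hb, hrep, hdir⟩ := (mem_filter.1 hσ).2
    have hQ8 : 8 * T ≤ Qs.card := le_trans (sq T ▸ Nat.mul_le_mul_right T (by omega)) ((pw 2 _ (by norm_num)).trans hQc)
    have key := fun a b : ℤ => triple (a := a) (b := b) hT hdiv Qs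
      (fun q hq => ⟨(hQs q hq).1, (hQs q hq).2.2.1⟩) hQ8 hk ((pw _ _ (by norm_num)).trans hA) hAw hc
      hc' hc2 hl hr ((pw _ _ (by norm_num)).trans hr1) hrw hg
    have : ∃ k' ∈ k.divisors, ∃ ε ∈ ({0, 1} : Finset ℤ), Squarefree k' ∧ r.Coprime k' ∧
        IsCoprime (c * w : ℤ) ((r * k' : ℕ) : ℤ) ∧
        ∃ τ, Trip w T k k' c c2 l r A ε Qs τ ∧ σ = sig c w l r τ := by
      rcases lt_trichotomy 0 (a + l * b) with h | h | h
      · exact key a b ha hb hrep hdir h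
      · exact absurd (h ▸ dvd_zero _) hdir.2.1
      · have e : -a + l * -b = -(a + l * b) := by ring
        refine key (-a) (-b) (by rwa [abs_neg]) (by rwa [abs_neg]) hrep.neg ?_ (by linarith)
        unfold Dir at hdir ⊢
        rwa [e, dvd_neg, dvd_neg, Int.gcd_neg, abs_neg]
    obtain ⟨k', h1, ε, h2, h3, h4, h5, τ, h6, rfl⟩ := this
    refine mem_biUnion.2 ⟨(k', ε), mem_product.2 ⟨h1, h2⟩, mem_image_of_mem _ (mem_filter.2
      ⟨mem_product.2 ⟨mem_Icc.2 ⟨h6.1, h6.2.1⟩, mem_product.2 ⟨h6.2.2.2.2.2.1, ?_⟩⟩, ⟨h3, h4, h5⟩, h6⟩)⟩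
    rw [mem_Icc, hE]
    exact abs_le.1 h6.2.2.2.2.2.2.1
  have h1 := (card_le_card hsub).trans (card_biUnion_le.trans (sum_le_sum fun i _ => card_image_le))
  have h2 : ((k.divisors ×ˢ ({0, 1} : Finset ℤ)).card : ℝ) ≤ T ^ 3 := by
    have := hdiv k hk (by omega)
    rw [card_product, card_pair (by norm_num)]
    have h3 : k.divisors.card * 2 ≤ T ^ 3 :=
      (sq T ▸ Nat.mul_le_mul this (by omega) : _ ≤ T ^ 2).trans (pw _ _ (by norm_num))
    exact_mod_cast h3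
  have h0 : (0 : ℝ) < T := by exact_mod_cast (by omega : 0 < T)
  have hr0 : (0 : ℝ) < r := by exact_mod_cast hr.pos
  calc _ ≤ ∑ i ∈ k.divisors ×ˢ ({0, 1} : Finset ℤ), ((Ts i).card : ℝ) := by exact_mod_cast h1
    _ ≤ (k.divisors ×ˢ ({0, 1} : Finset ℤ)).card • ((A : ℝ) ^ 2 / (r * T ^ 197)) :=
      sum_le_card_nsmul _ _ _ hTs
    _ ≤ T ^ 3 * ((A : ℝ) ^ 2 / (r * T ^ 197)) := by rw [nsmul_eq_mul]; gcongr
    _ = _ := by
      rw [show (T : ℝ) ^ 197 = T ^ 3 * T ^ 194 by rw [← pow_add]]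
      generalize ha : (T : ℝ) ^ 194 = a
      have : 0 < a := by rw [← ha]; positivity
      field_simp

end Pool.Agent.Lib.MP_9c5702_nt.Cube
end
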