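import Mathlib
import Pool.Agent.Lib.MP_9c5702_nt.Defs

-- part Pool.Agent.Lib.MP_9c5702_nt.Cube.Defs
section

/-! Definitions for the power saving for representations of a cube as a sum of three cubes. -/

set_option autoImplicit false

namespace Pool.Agent.Lib.MP_9c5702_nt.Cube

open Finset

/-- the additive character `k ↦ exp (2 π i k / M)` -/
noncomputable def ec (M : ℕ) (k : ℤ) : ℂ := Complex.exp (2 * Real.pi * Complex.I * k / M)

/-- the norm form of `(b - l a) + a ω` -/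
def nf {R : Type*} [CommRing R] (l b a : R) : R :=
  b ^ 2 - (2 * l + 1) * a * b + (l ^ 2 + l + 1) * a ^ 2

/-- the linear form in the congruence modulo `m` -/
def lf {R : Type*} [CommRing R] (l b a : R) : R := (l + 2) * b - (l ^ 2 + l + 1) * a

/-- the condition modulo `s` -/
def CondS (W s a e : ℤ) : Prop := IsCoprime a s ∧ s ∣ a * e + W

/-- the condition modulo `m` -/
def CondM (m l W b a e : ℤ) : Prop := IsCoprime (nf l b a) m ∧ m ∣ nf l b a * e - W * lf l b a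

/-- the phase modulo `m` -/
noncomputable def ph (m : ℕ) [NeZero m] (l r q κ s a : ℤ) : ℂ :=
  open Classical in
  if IsUnit (nf (l : ZMod m) (r * s) a) then
    ZMod.stdAddChar ((κ : ZMod m) * lf (l : ZMod m) (r * s) a *
      Ring.inverse (nf (l : ZMod m) (r * s) a) * Ring.inverse ((s : ZMod m) * q))
  else 0

/-- the quartic form of the square sieve, `ε = 0` or `1` -/
def gq (ε D S W : ℤ) : ℤ := 12 * (1 - 2 * ε) * D * ((S - ε * D) ^ 3 - W ^ 3) - 3 * ε * D ^ 4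

/-- the sieving polynomial in the parameters `s, a, e` -/
def gpar (ε c c2 k w l r s a e : ℤ) : ℤ :=
  gq ε (c2 * k * nf l (r * s) a * (r * s))
    (nf l (r * s) a * e - c * w * ((l + 1) * (r * s) - (l ^ 2 + l + 1) * a)) (c * w * (r * s))

/-- `σ` is the sum of a solution, parametrised by `k, c, c2` and `a + b ω` -/
def Rep (w σ k c c2 : ℕ) (a b : ℤ) : Prop :=
  ∃ x y z : ℕ, 0 < x ∧ 0 < y ∧ 0 < z ∧ x ^ 3 + y ^ 3 + z ^ 3 = w ^ 3 ∧ σ = x + y + z ∧
    (k : ℤ) ∣ (σ : ℤ) - w ∧ IsCoprime a b ∧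
    (c : ℤ) * (x + y) = c2 * k * (a ^ 2 - a * b + b ^ 2) ∧ Nat.gcd σ w ∣ c ∧
    ∃ μ ν : ℤ, a * μ - b * ν = c * σ ∧ a * ν + b * μ - b * ν = -(c * w)

/-- the arithmetic conditions on `σ` that hold outside a small exceptional set -/
def Good (w U σ : ℕ) : Prop :=
  w < σ ∧ σ < 3 * w ∧ w ≤ U * (σ - w) ∧ Nat.gcd σ w ≤ U ∧ ∀ j : ℕ, j ^ 2 ∣ σ - w → j ≤ U

/-- `a + l b` is a usable modulus -/
def Dir (k A V r l : ℕ) (a b : ℤ) : Prop :=
  (r : ℤ) ∣ a + l * b ∧ ¬ (r : ℤ) ^ 2 ∣ a + l * b ∧ Int.gcd k (a + l * b) ≤ V ∧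
    (A : ℤ) ≤ V * |a + l * b|

/-- the divisor bound with constant `T` below `27 w ^ 3` -/
def Div (w T : ℕ) : Prop := ∀ n : ℕ, 1 ≤ n → n ≤ 27 * w ^ 3 → n.divisors.card ≤ T

end Pool.Agent.Lib.MP_9c5702_nt.Cube
end

-- part Pool.Agent.Lib.MP_9c5702_nt.Cube.Basic
section

/-! Additive characters and sums of periodic functions. -/

set_option autoImplicit false

namespace Pool.Agent.Lib.MP_9c5702_nt.Cube

open Finset

theorem ec_add (M : ℕ) (j k : ℤ) : ec M (j + k) = ec M j * ec M k := by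
  rw [ec, ec, ec, ← Complex.exp_add]
  congr 1
  push_cast
  ring

theorem ec_zero (M : ℕ) : ec M 0 = 1 := by
  simp [ec]

theorem norm_ec (M : ℕ) (k : ℤ) : ‖ec M k‖ = 1 := by
  have : ec M k = Complex.exp (((2 * Real.pi * k / M : ℝ) : ℂ) * Complex.I) := by
    rw [ec]
    congr 1
    push_cast
    ring
  rw [this, Complex.norm_exp_ofReal_mul_I]

theorem ec_of_dvd {M : ℕ} {k : ℤ} (h : (M : ℤ) ∣ k) : ec M k = 1 := by
  obtain ⟨j, rfl⟩ := h
  rcases Nat.eq_zero_or_pos M with rfl | hM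
  · simp [ec]
  · have h0 : (M : ℂ) ≠ 0 := Nat.cast_ne_zero.2 hM.ne'
    rw [ec, ← Complex.exp_int_mul_two_pi_mul_I j]
    congr 1
    push_cast
    field_simp

theorem ec_congr {M : ℕ} {j k : ℤ} (h : (M : ℤ) ∣ j - k) : ec M j = ec M k := by
  rw [show j = (j - k) + k by ring, ec_add, ec_of_dvd h, one_mul]

theorem conj_ec (M : ℕ) (k : ℤ) : (starRingEnd ℂ) (ec M k) = ec M (-k) := by
  rw [ec, ec, ← Complex.exp_conj]
  congr 1
  simp only [map_div₀, map_mul, Complex.conj_I, Complex.conj_ofReal, map_natCast, map_intCast,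
    map_ofNat]
  push_cast
  ring

theorem ec_split {n m : ℕ} (hn : 0 < n) (hm : 0 < m) {u v : ℤ} (h : u * m + v * n = 1) (k : ℤ) :
    ec (n * m) k = ec n (k * u) * ec m (k * v) := by
  have h1 : (n : ℂ) ≠ 0 := Nat.cast_ne_zero.2 hn.ne'
  have h2 : (m : ℂ) ≠ 0 := Nat.cast_ne_zero.2 hm.ne'
  have h3 : (u : ℂ) * m + v * n = 1 := by exact_mod_cast h
  rw [ec, ec, ec, ← Complex.exp_add]
  congr 1
  push_cast
  field_simp
  linear_combination (-(k : ℂ)) * h3

private theorem per_emod {R : Type*} {m : ℕ} {f : ℤ → R} (hf : Function.Periodic f m) (x : ℤ) :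
    f (x % m) = f x := by
  have := hf.int_mul (x / m) (x % m)
  rw [Int.cast_id, mul_comm, Int.emod_add_mul_ediv] at this
  exact this.symm

private theorem per_congr {R : Type*} {m : ℕ} {f : ℤ → R} (hf : Function.Periodic f m) {x y : ℤ}
    (h : x % m = y % m) : f x = f y := by
  rw [← per_emod hf x, h, per_emod hf y]

private theorem sip {R : Type*} [AddCommMonoid R] {m : ℕ} (f : ℤ → R)
    (hf : Function.Periodic f m) (a : ℤ) :
    ∑ x ∈ Ico a (a + m), f x = ∑ x ∈ range m, f x := by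
  rcases Nat.eq_zero_or_pos m with rfl | hm
  · simp
  have h0 : (0 : ℤ) < m := by exact_mod_cast hm
  refine sum_nbij' (fun x => (x % m).toNat) (fun y => a + (y - a) % m) (fun x _ => ?_)
    (fun y _ => ?_) (fun x hx => ?_) (fun y hy => ?_) fun x _ => ?_
  · have := Int.emod_nonneg x h0.ne'
    have := Int.emod_lt_of_pos x h0
    rw [mem_range]
    omega
  · have := Int.emod_nonneg (y - a) h0.ne'
    have := Int.emod_lt_of_pos (y - a) h0
    rw [mem_Ico]
    omega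
  · rw [mem_Ico] at hx
    rw [Int.toNat_of_nonneg (Int.emod_nonneg x h0.ne'), Int.emod_sub_emod,
      Int.emod_eq_of_lt (by omega) (by omega)]
    ring
  · rw [mem_range] at hy
    rw [Int.add_emod_emod, add_sub_cancel, Int.emod_eq_of_lt (by omega) (by omega),
      Int.toNat_natCast]
  · rw [Int.toNat_of_nonneg (Int.emod_nonneg x h0.ne'), per_emod hf]

private theorem ec_pow (M : ℕ) (x : ℤ) (e : ℕ) : ec M (e * x) = ec M x ^ e := by
  induction e with
  | zero => simp [ec_zero]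
  | succ e ih => rw [Nat.cast_succ, add_mul, one_mul, ec_add, ih, pow_succ]

private theorem ec_ne_one {M : ℕ} (hM : 0 < M) {x : ℤ} (h : ¬ (M : ℤ) ∣ x) : ec M x ≠ 1 := by
  intro h1
  obtain ⟨j, hj⟩ := Complex.exp_eq_one_iff.1 h1
  have h0 : (M : ℂ) ≠ 0 := Nat.cast_ne_zero.2 hM.ne'
  have h2 : (Real.pi : ℂ) ≠ 0 := Complex.ofReal_ne_zero.2 Real.pi_ne_zero
  have h3 := Complex.I_ne_zero
  refine h ⟨j, ?_⟩
  field_simp at hj
  exact_mod_cast hj

theorem ec_orth {M : ℕ} (hM : 0 < M) (a x : ℤ) :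
    ∑ h ∈ Ico a (a + M), ec M (h * x) = if (M : ℤ) ∣ x then (M : ℂ) else 0 := by
  split_ifs with h
  · rw [sum_congr rfl fun y _ => ec_of_dvd (h.mul_left y)]
    simp
  · rw [sip (fun y => ec M (y * x)) fun y => ec_congr ⟨x, by ring⟩]
    simp only [ec_pow]
    rw [geom_sum_eq (ec_ne_one hM h), ← ec_pow, ec_of_dvd (dvd_mul_right _ _), sub_self, zero_div]

theorem ec_geom {M : ℕ} {h : ℤ} (h0 : h ≠ 0) (h2 : 2 * |h| ≤ M) (E : ℕ) :
    ‖∑ e ∈ range E, ec M (h * e)‖ ≤ M / (2 * |(h : ℝ)|) := by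
  have h1 : 0 < |h| := abs_pos.2 h0
  have hM : 0 < M := by omega
  have hM' : (0 : ℝ) < M := by exact_mod_cast hM
  have h1' : (0 : ℝ) < |(h : ℝ)| := by exact_mod_cast h1
  have h2' : 2 * |(h : ℝ)| ≤ M := by exact_mod_cast h2
  have hd : ¬ (M : ℤ) ∣ h := fun hd => by
    have := Int.le_of_dvd h1 ((dvd_abs _ _).2 hd)
    omega
  have e1 : ec M h = Complex.exp (Complex.I * ((2 * Real.pi * h / M : ℝ) : ℂ)) := by
    rw [ec]
    congr 1
    push_cast
    ring
  have e2 : |2 * Real.pi * h / M / 2| = Real.pi * |(h : ℝ)| / M := by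
    rw [show 2 * Real.pi * h / M / 2 = Real.pi * h / M by ring, abs_div, abs_mul,
      abs_of_pos Real.pi_pos, abs_of_pos hM']
  have e3 : 4 * |(h : ℝ)| / M ≤ ‖ec M h - 1‖ := by
    have := Real.mul_abs_le_abs_sin (x := 2 * Real.pi * h / M / 2) (by
      rw [e2, div_le_div_iff₀ hM' two_pos]
      nlinarith [Real.pi_pos])
    rw [e2, show 2 / Real.pi * (Real.pi * |(h : ℝ)| / M) = 2 * |(h : ℝ)| / M by
      field_simp] at this
    rw [e1, Complex.norm_exp_I_mul_ofReal_sub_one, Real.norm_eq_abs, abs_mul, abs_two]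
    rw [show 4 * |(h : ℝ)| / M = 2 * (2 * |(h : ℝ)| / M) by ring]
    linarith
  simp only [mul_comm h, ec_pow]
  rw [geom_sum_eq (ec_ne_one hM hd), norm_div]
  have e4 : ‖ec M h ^ E - 1‖ ≤ 2 := by
    refine (norm_sub_le _ _).trans ?_
    rw [norm_pow, norm_ec]
    norm_num
  refine (div_le_div₀ two_pos.le e4 (by positivity) e3).trans (le_of_eq ?_)
  field_simp
  norm_num

theorem ec_std (m : ℕ) [NeZero m] (k : ℤ) : ec m k = ZMod.stdAddChar (k : ZMod m) := by
  rw [ZMod.stdAddChar_coe, ec]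

theorem sum_crt {R : Type*} [CommSemiring R] {n m : ℕ} (hc : n.Coprime m) (f g : ℤ → R)
    (hf : Function.Periodic f n) (hg : Function.Periodic g m) :
    ∑ x ∈ range (n * m), f x * g x = (∑ x ∈ range n, f x) * ∑ x ∈ range m, g x := by
  rcases Nat.eq_zero_or_pos n with rfl | hn
  · simp
  rcases Nat.eq_zero_or_pos m with rfl | hm
  · simp
  rw [sum_mul_sum, ← sum_product']
  refine sum_bij (fun x _ => (x % n, x % m)) (fun x _ => ?_) (fun x hx y hy h => ?_)
    (fun p hp => ?_) fun x _ => ?_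
  · exact mem_product.2 ⟨mem_range.2 (Nat.mod_lt _ hn), mem_range.2 (Nat.mod_lt _ hm)⟩
  · exact ((Nat.modEq_and_modEq_iff_modEq_mul hc).1
      ⟨congrArg Prod.fst h, congrArg Prod.snd h⟩).eq_of_lt_of_lt (mem_range.1 hx) (mem_range.1 hy)
  · obtain ⟨h1, h2⟩ := mem_product.1 hp
    exact ⟨Nat.chineseRemainder hc p.1 p.2, mem_range.2
      (Nat.chineseRemainder_lt_mul hc _ _ hn.ne' hm.ne'), Prod.ext
      (Eq.trans (Nat.chineseRemainder hc p.1 p.2).2.1 (Nat.mod_eq_of_lt (mem_range.1 h1)))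
      (Eq.trans (Nat.chineseRemainder hc p.1 p.2).2.2 (Nat.mod_eq_of_lt (mem_range.1 h2)))⟩
  · simp only [Int.natCast_mod, per_emod hf, per_emod hg]

theorem sum_Ico_period {R : Type*} [AddCommMonoid R] {m : ℕ} (f : ℤ → R)
    (hf : Function.Periodic f m) (a : ℤ) :
    ∑ x ∈ Ico a (a + m), f x = ∑ x ∈ range m, f x := by
  exact sip f hf a

private theorem sum_consec {R : Type*} [AddCommMonoid R] (f : ℤ → R) {a b c : ℤ} (h1 : a ≤ b)
    (h2 : b ≤ c) : ∑ x ∈ Ico a c, f x = ∑ x ∈ Ico a b, f x + ∑ x ∈ Ico b c, f x := by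
  rw [← Ico_union_Ico_eq_Ico h1 h2, sum_union (Ico_disjoint_Ico_consecutive a b c)]

private theorem sum_periods {m : ℕ} (f : ℤ → ℝ) (hf : Function.Periodic f m) (a : ℤ) (j : ℕ) :
    ∑ x ∈ Ico a (a + (m * j : ℕ)), f x = j * ∑ x ∈ range m, f x := by
  induction j with
  | zero => simp
  | succ j ih =>
    rw [sum_consec f (b := a + (m * j : ℕ)) (by omega) (by rw [Nat.mul_succ]; omega), ih,
      show a + (m * (j + 1) : ℕ) = a + (m * j : ℕ) + m by push_cast; ring, sip f hf]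
    push_cast
    ring

theorem sum_le_periods {m : ℕ} (hm : 0 < m) (f : ℤ → ℝ) (hf : Function.Periodic f m)
    (h0 : ∀ x, 0 ≤ f x) (a : ℤ) (N : ℕ) :
    ∑ x ∈ Ico a (a + N), f x ≤ ((N : ℝ) / m + 1) * ∑ x ∈ range m, f x := by
  have h1 : N ≤ m * (N / m + 1) := (Nat.lt_mul_div_succ N hm).le
  calc ∑ x ∈ Ico a (a + N), f x ≤ ∑ x ∈ Ico a (a + (m * (N / m + 1) : ℕ)), f x :=
        sum_le_sum_of_subset_of_nonneg (Ico_subset_Ico_right (by omega)) fun x _ _ => h0 x
    _ = (N / m + 1 : ℕ) * ∑ x ∈ range m, f x := sum_periods f hf a _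
    _ ≤ _ := by
        refine mul_le_mul_of_nonneg_right ?_ (sum_nonneg fun x _ => h0 x)
        push_cast
        linarith [Nat.cast_div_le (α := ℝ) (m := N) (n := m)]

theorem abs_sum_le_of_mean_zero {m : ℕ} (hm : 0 < m) (f : ℤ → ℝ) (hf : Function.Periodic f m)
    {K : ℝ} (hK : ∀ x, |f x| ≤ K) (h0 : ∑ x ∈ range m, f x = 0) (a : ℤ) (N : ℕ) :
    |∑ x ∈ Ico a (a + N), f x| ≤ m * K := by
  have h1 := Nat.div_add_mod N m
  have h2 := Nat.mod_lt N hm
  have h3 : 0 ≤ K := (abs_nonneg _).trans (hK 0)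
  rw [sum_consec f (b := a + (m * (N / m) : ℕ)) (by omega) (by omega), sum_periods f hf, h0,
    mul_zero, zero_add]
  refine (abs_sum_le_sum_abs _ _).trans ((sum_le_card_nsmul _ _ K fun x _ => hK x).trans ?_)
  rw [nsmul_eq_mul, Int.card_Ico]
  refine mul_le_mul_of_nonneg_right (Nat.cast_le.2 ?_) h3
  omega

theorem card_dvd_le {δ : ℕ} (hδ : 0 < δ) (c a : ℤ) (N : ℕ) :
    (((Ico a (a + N)).filter fun x => (δ : ℤ) ∣ x + c).card : ℝ) ≤ (N : ℝ) / δ + 1 := by
  have hp : Function.Periodic (fun x : ℤ => if (δ : ℤ) ∣ x + c then (1 : ℝ) else 0) δ :=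
    fun x => by simp only [add_right_comm x, dvd_add_self_right]
  have h1 := sum_le_periods hδ _ hp (fun x => by positivity) a N
  rw [← sip _ hp (-c), sum_boole, sum_boole] at h1
  refine h1.trans (mul_le_of_le_one_right (by positivity) ?_)
  refine Nat.cast_le_one.2 (card_le_one_iff_subset_singleton.2 ⟨-c, fun x hx => ?_⟩)
  obtain ⟨h2, h3⟩ := mem_filter.1 hx
  rw [mem_Ico] at h2
  have := Int.eq_zero_of_dvd_of_nonneg_of_lt (by omega) (by omega) h3
  rw [mem_singleton]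
  omega

theorem norm_sum_shift (f : ℤ → ℂ) {K : ℝ} (hK : ∀ x, ‖f x‖ ≤ K) (a : ℤ) (N δ : ℕ) :
    ‖∑ x ∈ Ico a (a + N), f x - ∑ x ∈ Ico a (a + N), f (x + δ)‖ ≤ 2 * δ * K := by
  have h1 : ∑ x ∈ Ico a (a + N), f (x + δ) = ∑ x ∈ Ico (a + δ) (a + N + δ), f x := by
    rw [← Finset.map_add_right_Ico, sum_map]
    rfl
  have h2 := sum_consec f (a := a) (b := a + N) (c := a + N + δ) (by omega) (by omega)
  have h3 := sum_consec f (a := a) (b := a + δ) (c := a + N + δ) (by omega) (by omega)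
  have h4 (b : ℤ) : ‖∑ x ∈ Ico b (b + δ), f x‖ ≤ δ * K := by
    refine (norm_sum_le _ _).trans ((sum_le_card_nsmul _ _ K fun x _ => hK x).trans ?_)
    simp
  rw [h1, show ∑ x ∈ Ico a (a + N), f x - ∑ x ∈ Ico (a + δ) (a + N + δ), f x =
    ∑ x ∈ Ico a (a + δ), f x - ∑ x ∈ Ico (a + N) (a + N + δ), f x by linear_combination h3 - h2]
  refine (norm_sub_le _ _).trans ?_
  linarith [h4 a, h4 (a + N)]

end Pool.Agent.Lib.MP_9c5702_nt.Cube
end

-- part Pool.Agent.Lib.MP_9c5702_nt.Cube.Poly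
section

/-! Roots of polynomial congruences to squarefree moduli. -/

set_option autoImplicit false

namespace Pool.Agent.Lib.MP_9c5702_nt.Cube

open Finset Polynomial

private theorem card_roots_prime {p : ℕ} (hp : p.Prime) (P : ℤ[X]) {D : ℕ}
    (hD : P.natDegree ≤ D) (h : P.map (Int.castRingHom (ZMod p)) ≠ 0) :
    ((range p).filter fun u : ℕ => (p : ℤ) ∣ P.eval (u : ℤ)).card ≤ D := by
  classical
  have := Fact.mk hp
  set Q := P.map (Int.castRingHom (ZMod p)) with hQ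
  have h1 : ((range p).filter fun u : ℕ => (p : ℤ) ∣ P.eval (u : ℤ)).card ≤
      Q.roots.toFinset.card := by
    refine card_le_card_of_injOn (fun u : ℕ => (u : ZMod p)) ?_ ?_
    · intro u hu
      have hu2 := (mem_filter.1 (mem_coe.1 hu)).2
      simp only [mem_coe, Multiset.mem_toFinset]
      rw [mem_roots h, IsRoot.def, hQ]
      have e : ((u : ℕ) : ZMod p) = Int.castRingHom (ZMod p) (u : ℤ) := by simp
      rw [e, eval_map, eval₂_hom]
      exact (ZMod.intCast_zmod_eq_zero_iff_dvd _ _).2 hu2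
    · intro u hu v hv huv
      have hu1 := mem_range.1 (mem_filter.1 (mem_coe.1 hu)).1
      have hv1 := mem_range.1 (mem_filter.1 (mem_coe.1 hv)).1
      have := (ZMod.natCast_eq_natCast_iff' u v p).1 huv
      rwa [Nat.mod_eq_of_lt hu1, Nat.mod_eq_of_lt hv1] at this
  calc _ ≤ Q.roots.toFinset.card := h1
    _ ≤ Multiset.card Q.roots := Multiset.toFinset_card_le _
    _ ≤ Q.natDegree := card_roots' Q
    _ ≤ P.natDegree := natDegree_map_le
    _ ≤ D := hD

theorem card_roots_sqfree {m : ℕ} (hm : Squarefree m) (P : ℤ[X]) {D : ℕ} (hD1 : 1 ≤ D)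
    (hD : P.natDegree ≤ D) (Ξ : ℤ)
    (hΞ : ∀ p : ℕ, p.Prime → p ∣ m → ¬ (p : ℤ) ∣ Ξ → P.map (Int.castRingHom (ZMod p)) ≠ 0) :
    ((range m).filter fun u : ℕ => (m : ℤ) ∣ P.eval (u : ℤ)).card ≤
      D ^ m.primeFactors.card * Int.gcd m Ξ := by
  classical
  have hm0 : m ≠ 0 := hm.ne_zero
  set R : ℕ → Finset ℕ := fun p => (range p).filter fun u : ℕ => (p : ℤ) ∣ P.eval (u : ℤ)
    with hR
  have h1 : ((range m).filter fun u : ℕ => (m : ℤ) ∣ P.eval (u : ℤ)).card ≤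
      (m.primeFactors.pi R).card := by
    refine card_le_card_of_injOn (fun (u : ℕ) (p : ℕ) (_ : p ∈ m.primeFactors) => u % p) ?_ ?_
    · intro u hu
      have hu2 := (mem_filter.1 (mem_coe.1 hu)).2
      refine mem_coe.2 (mem_pi.2 fun p hp => ?_)
      have hpp := Nat.prime_of_mem_primeFactors hp
      have hpm : (p : ℤ) ∣ (m : ℤ) := Int.natCast_dvd_natCast.2 (Nat.dvd_of_mem_primeFactors hp)
      refine mem_filter.2 ⟨mem_range.2 (Nat.mod_lt _ hpp.pos), ?_⟩
      have h2 : (p : ℤ) ∣ P.eval (u : ℤ) - P.eval ((u % p : ℕ) : ℤ) := by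
        refine dvd_trans ?_ (sub_dvd_eval_sub _ _ P)
        push_cast
        exact Int.dvd_self_sub_emod
      have h3 := dvd_sub (hpm.trans hu2) h2
      simpa using h3
    · intro u hu v hv huv
      have hu1 := mem_range.1 (mem_filter.1 (mem_coe.1 hu)).1
      have hv1 := mem_range.1 (mem_filter.1 (mem_coe.1 hv)).1
      have h2 : ∀ p ∈ m.primeFactors, (p : ℤ) ∣ (v : ℤ) - u := fun p hp =>
        (Nat.modEq_iff_dvd.1 (congrFun (congrFun huv p) hp))
      have h3 : (∏ p ∈ m.primeFactors, (p : ℤ)) ∣ (v : ℤ) - u := by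
        refine Finset.prod_dvd_of_coprime ?_ h2
        intro p hp p' hp' hne
        exact Nat.isCoprime_iff_coprime.2 ((Nat.coprime_primes
          (Nat.prime_of_mem_primeFactors hp) (Nat.prime_of_mem_primeFactors hp')).2 hne)
      rw [← Nat.cast_prod, Nat.prod_primeFactors_of_squarefree hm] at h3
      have h4 : u ≡ v [MOD m] := Nat.modEq_iff_dvd.2 h3
      exact h4.eq_of_lt_of_lt hu1 hv1
  have h2 : ∀ p ∈ m.primeFactors, (R p).card ≤ D * if (p : ℤ) ∣ Ξ then p else 1 := by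
    intro p hp
    split_ifs with hd
    · calc (R p).card ≤ (range p).card := card_filter_le _ _
        _ = p := card_range p
        _ ≤ D * p := Nat.le_mul_of_pos_left _ hD1
    · rw [mul_one]
      exact card_roots_prime (Nat.prime_of_mem_primeFactors hp) P hD
        (hΞ p (Nat.prime_of_mem_primeFactors hp) (Nat.dvd_of_mem_primeFactors hp) hd)
  have h3 : (∏ p ∈ m.primeFactors, if (p : ℤ) ∣ Ξ then p else 1) ∣ Int.gcd m Ξ := by
    rw [← prod_filter]
    refine Finset.prod_primes_dvd _ ?_ ?_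
    · intro p hp
      exact (Nat.prime_of_mem_primeFactors (mem_filter.1 hp).1).prime
    · intro p hp
      have := mem_filter.1 hp
      exact Int.dvd_gcd (Int.natCast_dvd_natCast.2 (Nat.dvd_of_mem_primeFactors this.1)) this.2
  have h4 : 0 < Int.gcd m Ξ := Int.gcd_pos_of_ne_zero_left _ (by exact_mod_cast hm0)
  calc _ ≤ (m.primeFactors.pi R).card := h1
    _ = ∏ p ∈ m.primeFactors, (R p).card := card_pi _ _
    _ ≤ ∏ p ∈ m.primeFactors, D * if (p : ℤ) ∣ Ξ then p else 1 := prod_le_prod' h2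
    _ = D ^ m.primeFactors.card * ∏ p ∈ m.primeFactors, if (p : ℤ) ∣ Ξ then p else 1 := by
        rw [prod_mul_distrib, prod_const]
    _ ≤ _ := Nat.mul_le_mul_left _ (Nat.le_of_dvd h4 h3)

/-- numerator of the signed sum of shifted fractions -/
noncomputable def Pt (l r q h : ℤ) (ε t : Fin 8 → ℤ) : ℤ[X] :=
  C h * ∑ i, C (ε i) * lf (C l) (C r) (X + C (q * t i)) *
    ∏ j ∈ univ.erase i, nf (C l) (C r) (X + C (q * t j))

/-- the primes at which the numerator may vanish divide this number -/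
def Xi (l r q h : ℤ) (t : Fin 8 → ℤ) (i : Fin 8) : ℤ :=
  h * (l ^ 2 + l + 1) *
    ∏ j ∈ univ.erase i, (q * (t i - t j) * ((l ^ 2 + l + 1) ^ 2 * (q * (t i - t j)) ^ 2 + 3 * r ^ 2))

private theorem nf_eq {R : Type*} [CommRing R] (l r c : R) :
    nf (C l) (C r) (X + C c) = C (l ^ 2 + l + 1) * X ^ 2 +
      C (2 * (l ^ 2 + l + 1) * c - (2 * l + 1) * r) * X + C (nf l r c) := by
  simp only [nf, map_add, map_mul, map_sub, map_pow, map_one, map_ofNat]
  ring

private theorem lf_eq {R : Type*} [CommRing R] (l r c : R) :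
    lf (C l) (C r) (X + C c) = C (-(l ^ 2 + l + 1)) * X + C (lf l r c) := by
  simp only [lf, map_add, map_mul, map_sub, map_pow, map_one, map_ofNat, map_neg]
  ring

theorem natDegree_Pt (l r q h : ℤ) (ε t : Fin 8 → ℤ) : (Pt l r q h ε t).natDegree ≤ 16 := by
  unfold Pt
  refine (natDegree_C_mul_le _ _).trans (natDegree_sum_le_of_forall_le _ _ fun i _ => ?_)
  have h1 : (C (ε i) * lf (C l) (C r) (X + C (q * t i))).natDegree ≤ 1 := by
    refine (natDegree_C_mul_le _ _).trans ?_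
    rw [lf_eq]
    exact natDegree_linear_le
  have h2 : (∏ j ∈ univ.erase i, nf (C l) (C r) (X + C (q * t j))).natDegree ≤ 14 := by
    refine (natDegree_prod_le _ _).trans ?_
    calc _ ≤ ∑ j ∈ univ.erase i, 2 := sum_le_sum fun j _ => by
            rw [nf_eq]; exact natDegree_quadratic_le
      _ = 14 := by simp [card_erase_of_mem]
  exact natDegree_mul_le.trans (by omega)

private theorem nf_coprime {K : Type*} [Field K] (l r a b : K)
    (h : (a - b) * ((l ^ 2 + l + 1) ^ 2 * (a - b) ^ 2 + 3 * r ^ 2) ≠ 0) :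
    IsCoprime (nf (C l) (C r) (X + C a)) (nf (C l) (C r) (X + C b)) := by
  set c := (a - b) * ((l ^ 2 + l + 1) ^ 2 * (a - b) ^ 2 + 3 * r ^ 2) with hc
  set Lam : K[X] := C (l ^ 2 + l + 1) * (2 * X + C a + C b) - (2 * C l + 1) * C r +
    2 * C (l ^ 2 + l + 1) * (C a - C b) with hL
  have key : (4 * C (l ^ 2 + l + 1) * (C a - C b) - Lam) * nf (C l) (C r) (X + C a) +
      Lam * nf (C l) (C r) (X + C b) = C c := by
    simp only [hL, hc, nf, map_add, map_mul, map_sub, map_pow, map_one, map_ofNat]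
    ring
  refine ⟨C c⁻¹ * (4 * C (l ^ 2 + l + 1) * (C a - C b) - Lam), C c⁻¹ * Lam, ?_⟩
  rw [mul_assoc (C c⁻¹), mul_assoc (C c⁻¹), ← mul_add, key, ← C_mul, inv_mul_cancel₀ h, C_1]

theorem Pt_ne_zero (l r q h : ℤ) (ε t : Fin 8 → ℤ) (i : Fin 8) (hε : ε i = 1 ∨ ε i = -1)
    {p : ℕ} (hp : p.Prime) (hx : ¬ (p : ℤ) ∣ Xi l r q h t i) :
    (Pt l r q h ε t).map (Int.castRingHom (ZMod p)) ≠ 0 := by
  classical
  have := Fact.mk hp
  have hX : ((Xi l r q h t i : ℤ) : ZMod p) ≠ 0 := fun h0 =>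
    hx ((ZMod.intCast_zmod_eq_zero_iff_dvd _ _).1 h0)
  unfold Xi at hX
  push_cast at hX
  have hh : (h : ZMod p) ≠ 0 := left_ne_zero_of_mul (left_ne_zero_of_mul hX)
  have hn : (l : ZMod p) ^ 2 + l + 1 ≠ 0 := right_ne_zero_of_mul (left_ne_zero_of_mul hX)
  have hprod := prod_ne_zero_iff.1 (right_ne_zero_of_mul hX)
  set N : Fin 8 → (ZMod p)[X] := fun j =>
    nf (C (l : ZMod p)) (C (r : ZMod p)) (X + C ((q : ZMod p) * t j)) with hN
  set L : Fin 8 → (ZMod p)[X] := fun j =>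
    lf (C (l : ZMod p)) (C (r : ZMod p)) (X + C ((q : ZMod p) * t j)) with hL
  have hmap : (Pt l r q h ε t).map (Int.castRingHom (ZMod p)) =
      C (h : ZMod p) * ∑ j, C (ε j : ZMod p) * L j * ∏ k ∈ univ.erase j, N k := by
    simp only [Pt, hN, hL, nf, lf, Polynomial.map_mul, Polynomial.map_sum, Polynomial.map_prod,
      Polynomial.map_add, Polynomial.map_sub, Polynomial.map_pow, Polynomial.map_one,
      Polynomial.map_ofNat, map_X, eq_intCast, Polynomial.map_intCast,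
      map_intCast, map_mul]
  rw [hmap]
  refine mul_ne_zero (C_ne_zero.2 hh) fun h0 => ?_
  rw [← add_sum_erase _ _ (mem_univ i)] at h0
  have h1 : N i ∣ ∑ j ∈ univ.erase i, C (ε j : ZMod p) * L j * ∏ k ∈ univ.erase j, N k :=
    dvd_sum fun j hj => Dvd.dvd.mul_left
      (dvd_prod_of_mem _ (mem_erase.2 ⟨(ne_of_mem_erase hj).symm, mem_univ i⟩)) _
  have h2 : N i ∣ C (ε i : ZMod p) * L i * ∏ k ∈ univ.erase i, N k := by
    rw [eq_neg_of_add_eq_zero_left h0]
    exact h1.neg_right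
  have h3 : IsCoprime (N i) (∏ k ∈ univ.erase i, N k) := by
    refine IsCoprime.prod_right fun k hk => nf_coprime _ _ _ _ ?_
    have := hprod k hk
    rwa [← mul_sub]
  have h4 : N i ∣ C (ε i : ZMod p) * L i := h3.dvd_of_dvd_mul_right h2
  have he : (ε i : ZMod p) ≠ 0 := by rcases hε with e | e <;> simp [e]
  have hL1 : (L i).natDegree = 1 := by
    simp only [hL]
    rw [lf_eq]
    exact natDegree_linear (neg_ne_zero.2 hn)
  have hL0 : L i ≠ 0 := fun e => by simp [e] at hL1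
  have hN2 : (N i).natDegree = 2 := by
    simp only [hN]
    rw [nf_eq]
    exact natDegree_quadratic hn
  have h5 := natDegree_le_of_dvd h4 (mul_ne_zero (C_ne_zero.2 he) hL0)
  rw [natDegree_C_mul he, hL1, hN2] at h5
  omega

theorem card_degenerate {H : ℕ} (hH : 4 ≤ H) :
    ((Fintype.piFinset fun _ : Fin 8 => range H).filter
      fun t => ∀ i, ∃ j, j ≠ i ∧ t j = t i).card ≤ 4 ^ 8 * H ^ 4 := by
  classical
  have hsub : ((Fintype.piFinset fun _ : Fin 8 => range H).filter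
      fun t => ∀ i, ∃ j, j ≠ i ∧ t j = t i) ⊆
      (powersetCard 4 (range H)).biUnion fun S => Fintype.piFinset fun _ : Fin 8 => S := by
    intro t ht
    obtain ⟨ht1, ht2⟩ := mem_filter.1 ht
    have h1 : 2 * (univ.image t).card ≤ (univ : Finset (Fin 8)).card := by
      refine mul_card_image_le_card _ 2 fun b hb => ?_
      obtain ⟨i, -, rfl⟩ := mem_image.1 hb
      obtain ⟨j, hj, hji⟩ := ht2 i
      refine one_lt_card.2 ⟨j, ?_, i, ?_, hj⟩ <;> simp [hji]
    have h2 : (univ.image t).card ≤ 4 := by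
      rw [card_univ, Fintype.card_fin] at h1
      omega
    have h3 : univ.image t ⊆ range H := by
      intro b hb
      obtain ⟨i, -, rfl⟩ := mem_image.1 hb
      exact Fintype.mem_piFinset.1 ht1 i
    obtain ⟨S, hS1, hS2, hS3⟩ := exists_subsuperset_card_eq h3 h2 (by rwa [card_range])
    refine mem_biUnion.2 ⟨S, mem_powersetCard.2 ⟨hS2, hS3⟩, Fintype.mem_piFinset.2 fun i => ?_⟩
    exact hS1 (mem_image_of_mem t (mem_univ i))
  calc _ ≤ _ := card_le_card hsub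
    _ ≤ ∑ S ∈ powersetCard 4 (range H), (Fintype.piFinset fun _ : Fin 8 => S).card :=
        card_biUnion_le
    _ = ∑ S ∈ powersetCard 4 (range H), 4 ^ 8 := by
        refine sum_congr rfl fun S hS => ?_
        rw [Fintype.card_piFinset, prod_const, (mem_powersetCard.1 hS).2, card_univ,
          Fintype.card_fin]
    _ = H.choose 4 * 4 ^ 8 := by rw [sum_const, card_powersetCard, card_range, smul_eq_mul]
    _ ≤ 4 ^ 8 * H ^ 4 := by
        rw [mul_comm]
        exact Nat.mul_le_mul_left _ (Nat.choose_le_pow H 4)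

end Pool.Agent.Lib.MP_9c5702_nt.Cube
end

-- part Pool.Agent.Lib.MP_9c5702_nt.Cube.Moment
section

/-! The eighth moment of the shifted phases. -/

set_option autoImplicit false

namespace Pool.Agent.Lib.MP_9c5702_nt.Cube

open Finset

theorem norm_ph_le (m : ℕ) [NeZero m] (l r q κ s a : ℤ) : ‖ph m l r q κ s a‖ ≤ 1 := by
  unfold ph
  split_ifs
  · exact (AddChar.norm_apply _ _).le
  · simp

section Aux

variable {m : ℕ} [NeZero m]

private theorem sum_range_zmod {M : Type*} [AddCommMonoid M] (f : ZMod m → M) :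
    ∑ x ∈ range m, f (x : ZMod m) = ∑ u : ZMod m, f u := by
  refine Finset.sum_bij' (fun x _ => (x : ZMod m)) (fun u _ => u.val) ?_ ?_ ?_ ?_ ?_
  · intro x _; exact mem_univ _
  · intro u _; exact mem_range.2 (ZMod.val_lt u)
  · intro x hx; exact ZMod.val_cast_of_lt (mem_range.1 hx)
  · intro u _; exact ZMod.natCast_zmod_val u
  · intro x _; rfl

private theorem psi_sum {ι : Type*} (s : Finset ι) (f : ι → ZMod m) :
    ∏ i ∈ s, (ZMod.stdAddChar (f i) : ℂ) = ZMod.stdAddChar (∑ i ∈ s, f i) := by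
  classical
  induction s using Finset.induction_on with
  | empty => simp
  | insert a s ha ih => rw [prod_insert ha, sum_insert ha, ih, AddChar.map_add_eq_mul]

open Classical in
/-- the normalised phase -/
private noncomputable def ff (l r κ z v : ZMod m) : ℂ :=
  if IsUnit (nf l r v) then
    ZMod.stdAddChar (z * (κ * (lf l r v * Ring.inverse (nf l r v))))
  else 0

private theorem conj_ff (l r κ z v : ZMod m) :
    (starRingEnd ℂ) (ff l r κ z v) = ff l r κ (-z) v := by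
  unfold ff
  split_ifs
  · rw [← AddChar.map_neg_eq_conj, neg_mul]
  · simp

private theorem ph_eq (l r q κ s a t : ℤ) (hs : IsUnit (s : ZMod m)) :
    ph m l r q κ s (a + s * q * t) =
      ff (l : ZMod m) r (κ * Ring.inverse (q : ZMod m)) (Ring.inverse (s : ZMod m) ^ 2)
        (a * Ring.inverse (s : ZMod m) + q * t) := by
  set σ : ZMod m := (s : ZMod m) with hσ
  set τ : ZMod m := Ring.inverse σ with hτ
  set v : ZMod m := a * τ + q * t with hv
  have h1 : σ * τ = 1 := Ring.mul_inverse_cancel σ hs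
  have ha : ((a + s * q * t : ℤ) : ZMod m) = σ * v := by
    push_cast
    rw [hv, ← hσ]
    linear_combination (-(a : ZMod m)) * h1
  have hn : nf (l : ZMod m) (r * σ) (σ * v) = σ * σ * nf (l : ZMod m) r v := by
    unfold nf; ring
  have hl : lf (l : ZMod m) (r * σ) (σ * v) = σ * lf (l : ZMod m) r v := by
    unfold lf; ring
  unfold ph ff
  rw [ha, ← hσ, hn, hl]
  by_cases hu : IsUnit (nf (l : ZMod m) r v)
  · rw [if_pos ((hs.mul hs).mul hu), if_pos hu]
    congr 1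
    rw [Ring.mul_inverse_rev, Ring.mul_inverse_rev, Ring.mul_inverse_rev, ← hτ]
    linear_combination ((κ : ZMod m) * lf (l : ZMod m) r v * Ring.inverse (nf (l : ZMod m) r v) *
      Ring.inverse (q : ZMod m) * τ ^ 2) * h1
  · rw [if_neg (fun h => hu (isUnit_of_mul_isUnit_right h)), if_neg hu]

/-- the signs of the expansion of the eighth power -/
private def sg : Fin 8 → ℤ := ![1, 1, 1, 1, -1, -1, -1, -1]

private theorem sg_cases (i : Fin 8) : sg i = 1 ∨ sg i = -1 := by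
  fin_cases i <;> simp [sg]

private theorem pow_eight (l r κ z : ZMod m) (H : ℕ) (w : ℕ → ZMod m) :
    ((‖∑ t ∈ range H, ff l r κ z (w t)‖ ^ 8 : ℝ) : ℂ) =
      ∏ i : Fin 8, ∑ t ∈ range H, ff l r κ ((sg i : ZMod m) * z) (w t) := by
  have h1 : (starRingEnd ℂ) (∑ t ∈ range H, ff l r κ z (w t)) =
      ∑ t ∈ range H, ff l r κ (-z) (w t) := by
    rw [map_sum]; exact sum_congr rfl fun t _ => conj_ff _ _ _ _ _
  have h2 := Complex.mul_conj' (∑ t ∈ range H, ff l r κ z (w t))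
  rw [h1] at h2
  rw [Fin.prod_univ_eight]
  simp only [sg, Matrix.cons_val_zero, Matrix.cons_val_one, Matrix.cons_val, Int.cast_one, one_mul,
    Int.cast_neg, neg_mul]
  push_cast
  have h3 : ((‖∑ t ∈ range H, ff l r κ z (w t)‖ : ℝ) : ℂ) ^ 8 =
      (((‖∑ t ∈ range H, ff l r κ z (w t)‖ : ℝ) : ℂ) ^ 2) ^ 4 := by ring
  rw [h3, ← h2]
  ring

open Classical in
private theorem sum_prod_ff (l r κ : ZMod m) (v : Fin 8 → ZMod m) :
    ∑ z : ZMod m, ∏ i : Fin 8, ff l r κ ((sg i : ZMod m) * z) (v i) =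
      if (∀ i, IsUnit (nf l r (v i))) ∧
        κ * ∑ i, (sg i : ZMod m) * (lf l r (v i) * Ring.inverse (nf l r (v i))) = 0
      then (m : ℂ) else 0 := by
  by_cases hu : ∀ i, IsUnit (nf l r (v i))
  · have h1 : ∀ z : ZMod m, ∏ i : Fin 8, ff l r κ ((sg i : ZMod m) * z) (v i) =
        ZMod.stdAddChar (z * (κ * ∑ i, (sg i : ZMod m) *
          (lf l r (v i) * Ring.inverse (nf l r (v i))))) := by
      intro z
      rw [mul_sum, mul_sum, ← psi_sum]
      refine prod_congr rfl fun i _ => ?_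
      unfold ff
      rw [if_pos (hu i)]
      congr 1
      ring
    rw [sum_congr rfl fun z _ => h1 z, AddChar.sum_mulShift _ (ZMod.isPrimitive_stdAddChar m),
      ZMod.card]
    by_cases h0 : κ * ∑ i, (sg i : ZMod m) * (lf l r (v i) * Ring.inverse (nf l r (v i))) = 0
    · rw [if_pos h0, if_pos ⟨hu, h0⟩]
    · rw [if_neg h0, if_neg fun h => h0 h.2]; simp
  · rw [if_neg fun h => hu h.1]
    obtain ⟨i, hi⟩ := not_forall.1 hu
    refine sum_eq_zero fun z _ => prod_eq_zero (mem_univ i) ?_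
    unfold ff
    rw [if_neg hi]

omit [NeZero m] in
private theorem eval_Pt (l r q h : ℤ) (t : Fin 8 → ℤ) (x : ℤ) :
    (((Pt l r q h sg t).eval x : ℤ) : ZMod m) =
      (h : ZMod m) * ∑ i, (sg i : ZMod m) * lf (l : ZMod m) r (x + q * t i) *
        ∏ j ∈ univ.erase i, nf (l : ZMod m) r (x + q * t j) := by
  unfold Pt lf nf
  simp only [Polynomial.eval_mul, Polynomial.eval_C, Polynomial.eval_finsetSum,
    Polynomial.eval_prod, Polynomial.eval_sub, Polynomial.eval_add, Polynomial.eval_pow,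
    Polynomial.eval_X, Polynomial.eval_one, Polynomial.eval_ofNat]
  push_cast
  rfl

omit [NeZero m] in
private theorem dvd_Pt (l r q h W : ℤ) (hW : IsUnit (W : ZMod m)) (hq : IsUnit (q : ZMod m))
    (t : Fin 8 → ℤ) (x : ℤ)
    (hu : ∀ i, IsUnit (nf (l : ZMod m) r (x + q * t i)))
    (h0 : (((-(h * W) : ℤ) : ZMod m) * Ring.inverse (q : ZMod m)) * ∑ i, (sg i : ZMod m) *
      (lf (l : ZMod m) r (x + q * t i) * Ring.inverse (nf (l : ZMod m) r (x + q * t i))) = 0) :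
    (m : ℤ) ∣ (Pt l r q h sg t).eval x := by
  rw [← ZMod.intCast_zmod_eq_zero_iff_dvd, eval_Pt]
  set A : ZMod m := ∑ i, (sg i : ZMod m) *
      (lf (l : ZMod m) r (x + q * t i) * Ring.inverse (nf (l : ZMod m) r (x + q * t i))) with hA
  have h1 : (h : ZMod m) * A = 0 := by
    have h2 : (q : ZMod m) * Ring.inverse (q : ZMod m) = 1 := Ring.mul_inverse_cancel _ hq
    have h3 : (W : ZMod m) * Ring.inverse (W : ZMod m) = 1 := Ring.mul_inverse_cancel _ hW
    push_cast at h0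
    linear_combination (-(q : ZMod m) * Ring.inverse (W : ZMod m)) * h0 -
      ((h : ZMod m) * A * W * Ring.inverse (W : ZMod m)) * h2 - (h : ZMod m) * A * h3
  have h4 : ∑ i, (sg i : ZMod m) * lf (l : ZMod m) r (x + q * t i) *
        ∏ j ∈ univ.erase i, nf (l : ZMod m) r (x + q * t j) =
      A * ∏ j, nf (l : ZMod m) r (x + q * t j) := by
    rw [hA, sum_mul]
    refine sum_congr rfl fun i _ => ?_
    rw [← mul_prod_erase univ (fun j => nf (l : ZMod m) r (x + q * t j)) (mem_univ i)]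
    have h5 := Ring.mul_inverse_cancel _ (hu i)
    linear_combination (-((sg i : ZMod m) * lf (l : ZMod m) r (x + q * t i) *
      ∏ j ∈ univ.erase i, nf (l : ZMod m) r (x + q * t j))) * h5
  rw [h4, ← mul_assoc, h1, zero_mul]

private theorem sum_z_le (l r q h W : ℤ) (hW : IsUnit (W : ZMod m)) (hq : IsUnit (q : ZMod m))
    (H : ℕ) (x : ℤ) :
    ∑ z : ZMod m, ‖∑ t ∈ range H, ff (l : ZMod m) r
        (((-(h * W) : ℤ) : ZMod m) * Ring.inverse (q : ZMod m)) z (x + q * ((t : ℤ) : ZMod m))‖ ^ 8 ≤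
      m * ∑ t ∈ Fintype.piFinset (fun _ : Fin 8 => range H),
        if (m : ℤ) ∣ (Pt l r q h sg (fun i => (t i : ℤ))).eval x then (1 : ℝ) else 0 := by
  classical
  set κ : ZMod m := ((-(h * W) : ℤ) : ZMod m) * Ring.inverse (q : ZMod m) with hκ
  have h1 : ((∑ z : ZMod m, ‖∑ t ∈ range H, ff (l : ZMod m) r κ z
        (x + q * ((t : ℤ) : ZMod m))‖ ^ 8 : ℝ) : ℂ) =
      ((∑ t ∈ Fintype.piFinset (fun _ : Fin 8 => range H),
        if (∀ i, IsUnit (nf (l : ZMod m) r (x + q * ((t i : ℤ) : ZMod m)))) ∧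
          κ * ∑ i, (sg i : ZMod m) * (lf (l : ZMod m) r (x + q * ((t i : ℤ) : ZMod m)) *
            Ring.inverse (nf (l : ZMod m) r (x + q * ((t i : ℤ) : ZMod m)))) = 0
        then (m : ℝ) else 0 : ℝ) : ℂ) := by
    rw [Complex.ofReal_sum, Complex.ofReal_sum]
    rw [sum_congr rfl fun z _ => pow_eight (l : ZMod m) r κ z H
      (fun t => (x : ZMod m) + q * ((t : ℤ) : ZMod m))]
    simp only [prod_univ_sum]
    rw [sum_comm]
    refine sum_congr rfl fun t _ => ?_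
    rw [sum_prod_ff (l : ZMod m) r κ (fun i => (x : ZMod m) + q * ((t i : ℤ) : ZMod m))]
    split_ifs <;> simp
  rw [Complex.ofReal_injective h1, mul_sum]
  refine sum_le_sum fun t _ => ?_
  split_ifs with h2 h3
  · simp
  · exact absurd (dvd_Pt l r q h W hW hq (fun i => (t i : ℤ)) x h2.1 h2.2) h3
  · simp
  · simp

end Aux

private theorem gcd_Xi_le {r k : ℕ} (hr : r.Prime) (hk : 0 < k)
    {l q H Y : ℕ} {h : ℤ} (hq : q.Coprime (r * k))
    (h0 : h ≠ 0) (hh : |h| < r) (hl : l ^ 2 + l + 1 < r) (hH4 : 4 ≤ H) (hH : H ≤ r) (hrY : r ≤ Y)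
    (hqY : q ≤ Y) (t : Fin 8 → ℕ) (ht : ∀ i, t i < H) (i : Fin 8) (hi : ∀ j, j ≠ i → t j ≠ t i) :
    Int.gcd ((r * k : ℕ) : ℤ) (Xi l r q h (fun j => (t j : ℤ)) i) ≤ min k (Y ^ 65) := by
  have hrp : Prime (r : ℤ) := Nat.prime_iff_prime_int.1 hr
  have small : ∀ x : ℤ, x ≠ 0 → |x| < r → ¬ (r : ℤ) ∣ x := fun x hx hxr hd =>
    hx (Int.eq_zero_of_abs_lt_dvd hd hxr)
  have hn0 : (0 : ℤ) < (l : ℤ) ^ 2 + l + 1 := by positivity
  have hnr : ((l : ℤ) ^ 2 + l + 1) < r := by exact_mod_cast hl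
  have hn : ¬ (r : ℤ) ∣ (l : ℤ) ^ 2 + l + 1 := small _ hn0.ne' (by rwa [abs_of_pos hn0])
  have hqr : ¬ (r : ℤ) ∣ (q : ℤ) := by
    rw [Int.natCast_dvd_natCast]
    intro hd
    have h1 : r ∣ Nat.gcd q (r * k) := Nat.dvd_gcd hd (dvd_mul_right r k)
    rw [hq] at h1
    exact hr.one_lt.ne' (Nat.dvd_one.1 h1)
  have habs : ∀ j, |(t i : ℤ) - t j| < r := by
    intro j
    have h1 := ht i
    have h2 := ht j
    rw [abs_lt]
    constructor <;> omega
  have hd : ∀ j, j ≠ i → ¬ (r : ℤ) ∣ (q : ℤ) * ((t i : ℤ) - t j) := by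
    intro j hj hdv
    rcases hrp.dvd_or_dvd hdv with h1 | h1
    · exact hqr h1
    · refine small _ ?_ (habs j) h1
      have h2 := hi j hj
      omega
  have hX : ¬ (r : ℤ) ∣ Xi l r q h (fun j => (t j : ℤ)) i := by
    unfold Xi
    intro hdv
    rcases hrp.dvd_or_dvd hdv with h1 | h1
    · rcases hrp.dvd_or_dvd h1 with h2 | h2
      · exact small h h0 hh h2
      · exact hn h2
    · obtain ⟨j, hj, h2⟩ := (Prime.dvd_finsetProd_iff hrp _).1 h1
      have hji := (mem_erase.1 hj).1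
      rcases hrp.dvd_or_dvd h2 with h3 | h3
      · exact hd j hji h3
      · have h4 : (r : ℤ) ∣ 3 * (r : ℤ) ^ 2 := ⟨3 * r, by ring⟩
        have h5 := (dvd_add_left h4).1 h3
        rcases hrp.dvd_or_dvd h5 with h6 | h6
        · exact hn (hrp.dvd_of_dvd_pow h6)
        · exact hd j hji (hrp.dvd_of_dvd_pow h6)
  set Ξ := Xi l r q h (fun j => (t j : ℤ)) i with hΞ
  have hΞ0 : Ξ ≠ 0 := fun h1 => hX (h1 ▸ dvd_zero _)
  refine le_min ?_ ?_
  · have h1 : Nat.Coprime r Ξ.natAbs :=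
      (Nat.Prime.coprime_iff_not_dvd hr).2 fun h2 => hX (Int.natCast_dvd.2 h2)
    rw [Int.gcd_eq_natAbs, Int.natAbs_natCast, Nat.Coprime.gcd_mul_left_cancel k h1]
    exact Nat.gcd_le_left _ hk
  · have h1 : Int.gcd ((r * k : ℕ) : ℤ) Ξ ≤ Ξ.natAbs := by
      rw [Int.gcd_eq_natAbs]
      exact Nat.gcd_le_right _ (Int.natAbs_pos.2 hΞ0)
    refine h1.trans ?_
    have hY4 : (4 : ℤ) ≤ Y := by exact_mod_cast hH4.trans (hH.trans hrY)
    have hrY' : (r : ℤ) ≤ Y := by exact_mod_cast hrY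
    have hqY' : (q : ℤ) ≤ Y := by exact_mod_cast hqY
    have hY0 : (0 : ℤ) ≤ Y := by positivity
    have h2 : |Ξ| ≤ (Y : ℤ) ^ 65 := by
      rw [hΞ]
      unfold Xi
      rw [abs_mul, abs_mul, Finset.abs_prod]
      have h3 : ∀ j ∈ univ.erase i, |(q : ℤ) * ((t i : ℤ) - t j) *
          (((l : ℤ) ^ 2 + l + 1) ^ 2 * ((q : ℤ) * ((t i : ℤ) - t j)) ^ 2 + 3 * (r : ℤ) ^ 2)| ≤
          (Y : ℤ) ^ 9 := by
        intro j _
        have h4 : |(q : ℤ) * ((t i : ℤ) - t j)| ≤ (Y : ℤ) ^ 2 := by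
          rw [abs_mul, abs_of_nonneg (Int.natCast_nonneg q), sq]
          exact mul_le_mul hqY' ((habs j).le.trans hrY') (abs_nonneg _) hY0
        have h5 : ((q : ℤ) * ((t i : ℤ) - t j)) ^ 2 ≤ ((Y : ℤ) ^ 2) ^ 2 := by
          rw [← sq_abs]
          exact pow_le_pow_left₀ (abs_nonneg _) h4 2
        have h6 : ((l : ℤ) ^ 2 + l + 1) ^ 2 ≤ (Y : ℤ) ^ 2 :=
          pow_le_pow_left₀ hn0.le (hnr.le.trans hrY') 2
        have h7 : (r : ℤ) ^ 2 ≤ (Y : ℤ) ^ 2 := pow_le_pow_left₀ (Int.natCast_nonneg r) hrY' 2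
        have h8 : ((l : ℤ) ^ 2 + l + 1) ^ 2 * ((q : ℤ) * ((t i : ℤ) - t j)) ^ 2 ≤
            (Y : ℤ) ^ 2 * ((Y : ℤ) ^ 2) ^ 2 := mul_le_mul h6 h5 (sq_nonneg _) (sq_nonneg _)
        have h9 : (Y : ℤ) ^ 2 ≤ (Y : ℤ) ^ 6 := pow_le_pow_right₀ (by omega) (by norm_num)
        have h10 : 4 * (Y : ℤ) ^ 6 ≤ (Y : ℤ) * (Y : ℤ) ^ 6 :=
          mul_le_mul_of_nonneg_right hY4 (by positivity)
        have h11 : ((l : ℤ) ^ 2 + l + 1) ^ 2 * ((q : ℤ) * ((t i : ℤ) - t j)) ^ 2 +
            3 * (r : ℤ) ^ 2 ≤ (Y : ℤ) ^ 7 := by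
          have e1 : (Y : ℤ) ^ 2 * ((Y : ℤ) ^ 2) ^ 2 = (Y : ℤ) ^ 6 := by ring
          have e2 : (Y : ℤ) * (Y : ℤ) ^ 6 = (Y : ℤ) ^ 7 := by ring
          linarith
        rw [abs_mul, abs_of_nonneg (a := _ + _) (by positivity)]
        calc _ ≤ (Y : ℤ) ^ 2 * (Y : ℤ) ^ 7 := mul_le_mul h4 h11 (by positivity) (by positivity)
          _ = (Y : ℤ) ^ 9 := by ring
      have h12 := prod_le_prod (fun j _ => abs_nonneg _) h3
      rw [prod_const, card_erase_of_mem (mem_univ i), card_univ, Fintype.card_fin] at h12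
      have h13 : |h| * |(l : ℤ) ^ 2 + l + 1| ≤ (Y : ℤ) * Y := by
        rw [abs_of_pos hn0]
        exact mul_le_mul (hh.le.trans hrY') (hnr.le.trans hrY') hn0.le hY0
      calc _ ≤ (Y : ℤ) * Y * ((Y : ℤ) ^ 9) ^ (8 - 1) :=
            mul_le_mul h13 h12 (prod_nonneg fun j _ => abs_nonneg _) (by positivity)
        _ = (Y : ℤ) ^ 65 := by ring
    rw [← Int.natCast_natAbs] at h2
    exact_mod_cast h2

private theorem count_le {r k : ℕ} (hr : r.Prime) (hk : Squarefree k) (hrk : r.Coprime k)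
    {l q H Y T : ℕ} {h : ℤ} (hq : q.Coprime (r * k))
    (h0 : h ≠ 0) (hh : |h| < r) (hl : l ^ 2 + l + 1 < r) (hH4 : 4 ≤ H) (hH : H ≤ r) (hrY : r ≤ Y)
    (hqY : q ≤ Y) (hT : 2 ^ (r * k).primeFactors.card ≤ T) :
    ∑ t ∈ Fintype.piFinset (fun _ : Fin 8 => range H),
        ((range (r * k)).filter fun u : ℕ =>
          ((r * k : ℕ) : ℤ) ∣ (Pt l r q h sg (fun i => (t i : ℤ))).eval (u : ℤ)).card ≤
      4 ^ 8 * H ^ 4 * (r * k) + H ^ 8 * T ^ 4 * min k (Y ^ 65) := by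
  have hm : Squarefree (r * k) := (Nat.squarefree_mul hrk).2 ⟨hr.squarefree, hk⟩
  have hk0 : 0 < k := Nat.pos_of_ne_zero hk.ne_zero
  rw [← sum_filter_add_sum_filter_not _ (fun t : Fin 8 → ℕ => ∀ i, ∃ j, j ≠ i ∧ t j = t i)]
  refine add_le_add ?_ ?_
  · refine (sum_le_card_nsmul _ _ (r * k) fun t _ => ?_).trans ?_
    · exact (card_filter_le _ _).trans (card_range _).le
    · exact Nat.mul_le_mul_right _ (card_degenerate hH4)
  · refine (sum_le_card_nsmul _ _ (T ^ 4 * min k (Y ^ 65)) fun t ht => ?_).trans ?_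
    · obtain ⟨ht1, ht2⟩ := mem_filter.1 ht
      obtain ⟨i, hi⟩ := not_forall.1 ht2
      have hi' : ∀ j, j ≠ i → t j ≠ t i := fun j hj he => hi ⟨j, hj, he⟩
      refine (card_roots_sqfree hm _ (by norm_num) (natDegree_Pt _ _ _ _ _ _)
        (Xi l r q h (fun j => (t j : ℤ)) i)
        fun p hp _ hx => Pt_ne_zero _ _ _ _ _ _ i (sg_cases i) hp hx).trans ?_
      refine Nat.mul_le_mul ?_ (gcd_Xi_le hr hk0 hq h0 hh hl hH4 hH hrY hqY t
        (fun j => mem_range.1 (Fintype.mem_piFinset.1 ht1 j)) i hi')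
      calc 16 ^ (r * k).primeFactors.card = (2 ^ (r * k).primeFactors.card) ^ 4 := by
            rw [← pow_mul, mul_comm _ 4, pow_mul]
            norm_num
        _ ≤ T ^ 4 := Nat.pow_le_pow_left hT 4
    · rw [smul_eq_mul, mul_assoc]
      refine Nat.mul_le_mul_right _ ((card_filter_le _ _).trans ?_)
      rw [Fintype.card_piFinset_const, card_range]

private theorem fibre_le {m : ℕ} [NeZero m] (hm : Squarefree m) {T : ℕ}
    (hT : 2 ^ m.primeFactors.card ≤ T) (Θ : ZMod m → ℝ) (h0 : ∀ z, 0 ≤ Θ z) :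
    ∑ x ∈ (range m).filter (fun s : ℕ => s.Coprime m), Θ (Ring.inverse (x : ZMod m) ^ 2) ≤
      T * ∑ z, Θ z := by
  classical
  rw [← sum_fiberwise_of_maps_to (t := univ) (g := fun x : ℕ => Ring.inverse (x : ZMod m) ^ 2)
    (fun _ _ => mem_univ _), mul_sum]
  refine sum_le_sum fun z _ => ?_
  rw [sum_congr rfl (g := fun _ => Θ z) fun x hx => by rw [(mem_filter.1 hx).2], sum_const,
    nsmul_eq_mul]
  refine mul_le_mul_of_nonneg_right (Nat.cast_le.2 ?_) (h0 z)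
  have h1 := card_roots_sqfree hm (Polynomial.C (z.val : ℤ) * Polynomial.X ^ 2 - 1) (D := 2)
    (by norm_num) (by compute_degree) 1 (fun p hp _ _ hz => by
      have := Fact.mk hp
      have h2 := congrArg (Polynomial.eval 0) hz
      simp at h2)
  rw [Int.gcd_one_right, mul_one] at h1
  refine le_trans (card_le_card fun x hx => ?_) (h1.trans hT)
  obtain ⟨hx1, hx2⟩ := mem_filter.1 hx
  obtain ⟨hx3, hx4⟩ := mem_filter.1 hx1
  refine mem_filter.2 ⟨hx3, ?_⟩
  rw [← ZMod.intCast_zmod_eq_zero_iff_dvd]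
  have h3 := Ring.mul_inverse_cancel _ ((ZMod.isUnit_iff_coprime x m).2 hx4)
  simp only [Polynomial.eval_sub, Polynomial.eval_mul, Polynomial.eval_C, Polynomial.eval_pow,
    Polynomial.eval_X, Polynomial.eval_one]
  push_cast
  rw [ZMod.natCast_zmod_val, ← hx2]
  linear_combination ((x : ZMod m) * Ring.inverse (x : ZMod m) + 1) * h3

theorem moment {r k : ℕ} [NeZero (r * k)] (hr : r.Prime) (hk : Squarefree k) (hrk : r.Coprime k)
    {l q H Y T : ℕ} {W h : ℤ} (hW : IsCoprime W ((r * k : ℕ) : ℤ)) (hq : q.Coprime (r * k))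
    (h0 : h ≠ 0) (hh : |h| < r) (hl : l ^ 2 + l + 1 < r) (hH4 : 4 ≤ H) (hH : H ≤ r) (hrY : r ≤ Y)
    (hqY : q ≤ Y) (hT : 2 ^ (r * k).primeFactors.card ≤ T) (S N : ℕ) (a0 : ℤ) :
    ∑ s ∈ (Icc 1 S).filter (fun s : ℕ => s.Coprime (r * k)), ∑ a ∈ Ico a0 (a0 + N),
        ‖∑ t ∈ range H, ph (r * k) l r q (-(h * W)) s (a + s * q * t)‖ ^ 8 ≤
      ((S : ℝ) / (r * k) + 1) * ((N : ℝ) / (r * k) + 1) * T * (r * k) *
        (4 ^ 8 * H ^ 4 * (r * k) + H ^ 8 * T ^ 4 * (min k (Y ^ 65) : ℕ)) := by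
  have hc := count_le hr hk hrk hq h0 hh hl hH4 hH hrY hqY hT
  have hm : Squarefree (r * k) := (Nat.squarefree_mul hrk).2 ⟨hr.squarefree, hk⟩
  have hcast : (r : ℝ) * k = ((r * k : ℕ) : ℝ) := by push_cast; rfl
  rw [hcast]
  generalize r * k = m at *
  have hm0 : 0 < m := Nat.pos_of_ne_zero hm.ne_zero
  have hWu : IsUnit (W : ZMod m) := (ZMod.coe_int_isUnit_iff_isCoprime W m).2 hW.symm
  have hqu : IsUnit (((q : ℕ) : ℤ) : ZMod m) := by
    rw [Int.cast_natCast]; exact (ZMod.isUnit_iff_coprime q m).2 hq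
  set θ : ZMod m → ZMod m → ℝ := fun z u => ‖∑ t ∈ range H, ff (((l : ℕ) : ℤ) : ZMod m)
    (((r : ℕ) : ℤ) : ZMod m) (((-(h * W) : ℤ) : ZMod m) * Ring.inverse (((q : ℕ) : ℤ) : ZMod m)) z
      (u + (((q : ℕ) : ℤ) : ZMod m) * ((t : ℤ) : ZMod m))‖ ^ 8 with hθ
  have hθ0 : ∀ z u, 0 ≤ θ z u := fun z u => by positivity
  have hΘ0 : ∀ z, 0 ≤ ∑ u, θ z u := fun z => sum_nonneg fun u _ => hθ0 z u
  have step1 : ∀ s ∈ (Icc 1 S).filter (fun s : ℕ => s.Coprime m), ∑ a ∈ Ico a0 (a0 + N),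
      ‖∑ t ∈ range H, ph m l r q (-(h * W)) s (a + s * q * t)‖ ^ 8 ≤
      ((N : ℝ) / m + 1) * ∑ u, θ (Ring.inverse (s : ZMod m) ^ 2) u := by
    intro s hs
    have hsu : IsUnit (s : ZMod m) := (ZMod.isUnit_iff_coprime s m).2 (mem_filter.1 hs).2
    have hsu' : IsUnit ((s : ℤ) : ZMod m) := by rwa [Int.cast_natCast]
    have h1 : ∀ a : ℤ, ‖∑ t ∈ range H, ph m l r q (-(h * W)) s (a + s * q * t)‖ ^ 8 =
        θ (Ring.inverse (s : ZMod m) ^ 2) (a * Ring.inverse (s : ZMod m)) := by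
      intro a
      rw [sum_congr rfl fun (t : ℕ) _ => ph_eq (m := m) l r q (-(h * W)) s a t hsu',
        Int.cast_natCast s]
    rw [sum_congr rfl fun a _ => h1 a]
    refine (sum_le_periods hm0
      (fun a : ℤ => θ (Ring.inverse (s : ZMod m) ^ 2) (a * Ring.inverse (s : ZMod m)))
      (fun a => by simp) (fun a => hθ0 _ _) a0 N).trans (le_of_eq ?_)
    congr 1
    simp only [Int.cast_natCast]
    rw [sum_range_zmod
      (fun u => θ (Ring.inverse (s : ZMod m) ^ 2) (u * Ring.inverse (s : ZMod m)))]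
    exact Equiv.sum_comp (hsu.ringInverse.unit.mulRight)
      (fun u => θ (Ring.inverse (s : ZMod m) ^ 2) u)
  have step2 : ∑ s ∈ (Icc 1 S).filter (fun s : ℕ => s.Coprime m),
      ∑ u, θ (Ring.inverse (s : ZMod m) ^ 2) u ≤ ((S : ℝ) / m + 1) * (T * ∑ z, ∑ u, θ z u) := by
    classical
    set G : ℤ → ℝ := fun x =>
      if IsUnit (x : ZMod m) then ∑ u, θ (Ring.inverse (x : ZMod m) ^ 2) u else 0 with hG
    have hG1 : ∀ A : Finset ℕ, ∑ s ∈ A.filter (fun s : ℕ => s.Coprime m),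
        ∑ u, θ (Ring.inverse (s : ZMod m) ^ 2) u = ∑ s ∈ A, G s := by
      intro A
      rw [sum_filter]
      refine sum_congr rfl fun s _ => ?_
      simp only [hG, Int.cast_natCast, ZMod.isUnit_iff_coprime]
    have hG0 : ∀ x, 0 ≤ G x := fun x => by
      simp only [hG]
      split_ifs
      · exact hΘ0 _
      · exact le_rfl
    have h2 : ∑ s ∈ Icc 1 S, G s = ∑ x ∈ Ico (1 : ℤ) (1 + S), G x := by
      refine Finset.sum_bij' (fun x _ => (x : ℤ)) (fun u _ => u.toNat) ?_ ?_ ?_ ?_ ?_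
      · intro x hx
        rw [mem_Icc] at hx
        rw [mem_Ico]
        omega
      · intro x hx
        rw [mem_Ico] at hx
        rw [mem_Icc]
        omega
      · intro x _; simp
      · intro x hx
        rw [mem_Ico] at hx
        omega
      · intro x _; rfl
    rw [hG1, h2]
    refine (sum_le_periods hm0 G (fun x => by simp [hG]) hG0 1 S).trans ?_
    rw [← hG1]
    exact mul_le_mul_of_nonneg_left (fibre_le hm hT (fun z => ∑ u, θ z u) hΘ0) (by positivity)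
  have step3 : ∑ z, ∑ u, θ z u ≤
      m * (4 ^ 8 * H ^ 4 * (m : ℝ) + H ^ 8 * T ^ 4 * (min k (Y ^ 65) : ℕ)) := by
    rw [sum_comm, ← sum_range_zmod (fun u => ∑ z, θ z u)]
    have h1 : ∀ x ∈ range m, ∑ z, θ z (x : ZMod m) ≤
        m * ∑ t ∈ Fintype.piFinset (fun _ : Fin 8 => range H),
          if (m : ℤ) ∣ (Pt l r q h sg (fun i => (t i : ℤ))).eval (x : ℤ) then (1 : ℝ) else 0 := by
      intro x _
      have h2 := sum_z_le (m := m) l r q h W hWu hqu H x
      rw [Int.cast_natCast x] at h2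
      exact h2
    refine (sum_le_sum h1).trans ?_
    rw [← mul_sum, sum_comm]
    refine mul_le_mul_of_nonneg_left ?_ (by positivity)
    simp only [sum_boole]
    exact_mod_cast hc
  calc _ ≤ ∑ s ∈ (Icc 1 S).filter (fun s : ℕ => s.Coprime m),
        ((N : ℝ) / m + 1) * ∑ u, θ (Ring.inverse (s : ZMod m) ^ 2) u := sum_le_sum step1
    _ ≤ ((N : ℝ) / m + 1) * (((S : ℝ) / m + 1) * (T * (m * (4 ^ 8 * H ^ 4 * (m : ℝ) +
        H ^ 8 * T ^ 4 * (min k (Y ^ 65) : ℕ))))) := by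
      rw [← mul_sum]
      refine mul_le_mul_of_nonneg_left (step2.trans ?_) (by positivity)
      exact mul_le_mul_of_nonneg_left (mul_le_mul_of_nonneg_left step3 (by positivity))
        (by positivity)
    _ = _ := by ring

end Pool.Agent.Lib.MP_9c5702_nt.Cube
end

-- part Pool.Agent.Lib.MP_9c5702_nt.Cube.Chi
section

/-! The quadratic characters of the square sieve. -/

set_option autoImplicit false

namespace Pool.Agent.Lib.MP_9c5702_nt.Cube

open Finset

theorem chi_a (ε c c2 k w l r s a e : ℤ) (q : ℕ) :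
    jacobiSym (gpar ε c c2 k w l r s (a + q) e) q = jacobiSym (gpar ε c c2 k w l r s a e) q := by
  apply jacobiSym.mod_left'
  apply (ZMod.intCast_eq_intCast_iff _ _ q).1
  simp [gpar, gq, nf]

theorem chi_e (ε c c2 k w l r s a e : ℤ) (q : ℕ) :
    jacobiSym (gpar ε c c2 k w l r s a (e + q)) q = jacobiSym (gpar ε c c2 k w l r s a e) q := by
  apply jacobiSym.mod_left'
  apply (ZMod.intCast_eq_intCast_iff _ _ q).1
  simp [gpar, gq, nf]

private theorem chi_zero {q : ℕ} (hq : q.Prime) {n : ℤ} (h : (q : ℤ) ∣ n) : jacobiSym n q = 0 := by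
  rw [jacobiSym.mod_left, Int.emod_eq_zero_of_dvd h]
  exact jacobiSym.zero_left hq.one_lt

private theorem dvd_gq (ε D S W : ℤ) : D ∣ gq ε D S W :=
  ⟨12 * (1 - 2 * ε) * ((S - ε * D) ^ 3 - W ^ 3) - 3 * ε * D ^ 3, by unfold gq; ring⟩

theorem chi_dvd (ε c c2 k w l r s a e : ℤ) {q : ℕ} (hq : q.Prime) (h : (q : ℤ) ∣ k * r * s) :
    jacobiSym (gpar ε c c2 k w l r s a e) q = 0 := by
  apply chi_zero hq
  refine (h.trans ?_).trans (dvd_gq _ _ _ _)
  exact ⟨c2 * nf l (r * s) a, by ring⟩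

private theorem cube_inj {q : ℕ} [Fact q.Prime] (h3 : q % 3 = 2) {x y : ZMod q}
    (h : x ^ 3 = y ^ 3) : x = y := by
  have key : ∀ x : ZMod q, (x ^ 3) ^ (2 * (q / 3) + 1) = x := by
    intro x
    have h1 : 3 * (2 * (q / 3) + 1) = q + (q - 1) := by omega
    have h2 : q - 1 + 1 = q := by omega
    rw [← pow_mul, h1, pow_add, ZMod.pow_card, ← pow_succ', h2, ZMod.pow_card]
  rw [← key x, h, key y]

theorem chi_sum {ε : ℤ} (hε : ε = 0 ∨ ε = 1) (c c2 k w l r s a : ℤ) {q : ℕ} (hq : q.Prime)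
    (h3 : q % 3 = 2) (h4 : 3 < q) :
    ∑ e ∈ range q, jacobiSym (gpar ε c c2 k w l r s a e) q = 0 := by
  have := Fact.mk hq
  set N : ℤ := nf l (r * s) a with hN
  set D : ℤ := c2 * k * N * (r * s) with hD
  by_cases hqD : (q : ℤ) ∣ D
  · exact sum_eq_zero fun e _ => chi_zero hq (hqD.trans (dvd_gq _ _ _ _))
  have hD0 : (D : ZMod q) ≠ 0 := by rwa [Ne, ZMod.intCast_zmod_eq_zero_iff_dvd]
  have hN0 : (N : ZMod q) ≠ 0 := by
    intro h
    apply hD0
    rw [hD]
    push_cast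
    rw [h]
    ring
  have h2 : (2 : ZMod q) ≠ 0 := by
    have : ((2 : ℕ) : ZMod q) ≠ 0 := by
      rw [Ne, ZMod.natCast_eq_zero_iff]
      exact fun h => by have := Nat.le_of_dvd (by norm_num) h; omega
    exact_mod_cast this
  have h3' : (3 : ZMod q) ≠ 0 := by
    have : ((3 : ℕ) : ZMod q) ≠ 0 := by
      rw [Ne, ZMod.natCast_eq_zero_iff]
      exact fun h => by have := Nat.le_of_dvd (by norm_num) h; omega
    exact_mod_cast this
  have h12 : (12 : ZMod q) * (1 - 2 * (ε : ZMod q)) ≠ 0 := by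
    have h12 : (12 : ZMod q) ≠ 0 := by
      have : (12 : ZMod q) = 2 * 2 * 3 := by norm_num
      rw [this]
      exact mul_ne_zero (mul_ne_zero h2 h2) h3'
    refine mul_ne_zero h12 ?_
    rcases hε with rfl | rfl
    · simp
    · have : (1 : ZMod q) - 2 * ((1 : ℤ) : ZMod q) = -1 := by push_cast; ring
      rw [this]
      simp
  set C0 : ℤ := c * w * ((l + 1) * (r * s) - (l ^ 2 + l + 1) * a) with hC0
  set W : ℤ := c * w * (r * s) with hW
  let G : ZMod q → ZMod q := fun x => 12 * (1 - 2 * (ε : ZMod q)) * D *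
    (((N : ZMod q) * x - C0 - ε * D) ^ 3 - (W : ZMod q) ^ 3) - 3 * ε * (D : ZMod q) ^ 4
  have hG : Function.Injective G := by
    intro x y h
    have h1 := mul_left_cancel₀ (mul_ne_zero h12 hD0) (sub_left_inj.1 h)
    have h2 := cube_inj h3 (sub_left_inj.1 h1)
    exact mul_left_cancel₀ hN0 (sub_left_inj.1 (sub_left_inj.1 h2))
  have hterm : ∀ e : ℕ, jacobiSym (gpar ε c c2 k w l r s a e) q =
      quadraticChar (ZMod q) (G (e : ZMod q)) := by
    intro e
    rw [← jacobiSym.legendreSym.to_jacobiSym, legendreSym]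
    congr 1
    simp only [gpar, gq, G, ← hN, ← hD, ← hC0, ← hW]
    push_cast
    ring
  rw [sum_congr rfl fun e _ => hterm e]
  have hsum : ∑ e ∈ range q, quadraticChar (ZMod q) (G (e : ZMod q)) =
      ∑ x : ZMod q, quadraticChar (ZMod q) (G x) := by
    refine sum_bij (fun e _ => (e : ZMod q)) (fun _ _ => mem_univ _) ?_ ?_ fun _ _ => rfl
    · intro a ha b hb h
      rw [ZMod.natCast_eq_natCast_iff', Nat.mod_eq_of_lt (mem_range.1 ha),
        Nat.mod_eq_of_lt (mem_range.1 hb)] at h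
      exact h
    · intro x _
      exact ⟨x.val, mem_range.2 (ZMod.val_lt x), ZMod.natCast_zmod_val x⟩
  rw [hsum, (Finite.injective_iff_bijective.1 hG).sum_comp (fun x => quadraticChar (ZMod q) x)]
  apply quadraticChar_sum_zero
  rw [ZMod.ringChar_zmod_n]
  omega

theorem chi_sq {w T : ℕ} (hdiv : Div w T) (Qs : Finset ℕ) (hQs : ∀ q ∈ Qs, q.Prime ∧ 3 < q)
    {n1 n2 n3 n4 : ℕ} (h1 : 1 ≤ n1 ∧ n1 ≤ 27 * w ^ 3) (h2 : 1 ≤ n2 ∧ n2 ≤ 27 * w ^ 3)
    (h3 : 1 ≤ n3 ∧ n3 ≤ 27 * w ^ 3) (h4 : 1 ≤ n4 ∧ n4 ≤ 27 * w ^ 3) {n0 : ℕ}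
    (h0 : n0 = 3 ∨ n0 = 6) :
    (Qs.card : ℤ) ≤ ∑ q ∈ Qs, jacobiSym (((n0 * (n1 * n2) ^ 2 * n3 * n4 : ℕ) : ℤ) ^ 2) q + 4 * T := by
  set B := n1.divisors ∪ n2.divisors ∪ n3.divisors ∪ n4.divisors with hB
  have hBc : B.card ≤ 4 * T := by
    have a1 := hdiv n1 h1.1 h1.2
    have a2 := hdiv n2 h2.1 h2.2
    have a3 := hdiv n3 h3.1 h3.2
    have a4 := hdiv n4 h4.1 h4.2
    have b1 := card_union_le (n1.divisors ∪ n2.divisors ∪ n3.divisors) n4.divisors
    have b2 := card_union_le (n1.divisors ∪ n2.divisors) n3.divisors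
    have b3 := card_union_le n1.divisors n2.divisors
    rw [hB]
    omega
  have key : ∀ q ∈ Qs, (1 : ℤ) ≤
      jacobiSym (((n0 * (n1 * n2) ^ 2 * n3 * n4 : ℕ) : ℤ) ^ 2) q + if q ∈ B then 1 else 0 := by
    intro q hq
    obtain ⟨hp, hq3⟩ := hQs q hq
    split_ifs with h
    · rw [jacobiSym.pow_left]
      have := sq_nonneg (jacobiSym ((n0 * (n1 * n2) ^ 2 * n3 * n4 : ℕ) : ℤ) q)
      omega
    · rw [jacobiSym.sq_one']
      · simp
      · rw [Int.gcd_natCast_natCast]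
        apply Nat.Coprime.symm
        rw [hp.coprime_iff_not_dvd]
        simp only [hB, mem_union, Nat.mem_divisors, not_or, not_and, not_not] at h
        intro hd
        rcases (Nat.Prime.dvd_mul hp).1 hd with hd | hd
        · rcases (Nat.Prime.dvd_mul hp).1 hd with hd | hd
          · rcases (Nat.Prime.dvd_mul hp).1 hd with hd | hd
            · have h6 : q ∣ 2 * 3 := by
                rcases h0 with rfl | rfl
                · exact hd.mul_left 2
                · exact hd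
              rcases (Nat.Prime.dvd_mul hp).1 h6 with h | h <;>
              · have := Nat.le_of_dvd (by norm_num) h
                omega
            · rcases (Nat.Prime.dvd_mul hp).1 (hp.dvd_of_dvd_pow hd) with hd | hd
              · have := h.1.1.1 hd
                omega
              · have := h.1.1.2 hd
                omega
          · have := h.1.2 hd
            omega
        · have := h.2 hd
          omega
  have h5 := sum_le_sum key
  rw [sum_add_distrib, sum_const, sum_boole] at h5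
  have h6 : (Qs.filter fun q => q ∈ B).card ≤ B.card :=
    card_le_card fun q hq => (mem_filter.1 hq).2
  simp only [nsmul_eq_mul, mul_one] at h5
  have h7 : ((Qs.filter fun q => q ∈ B).card : ℤ) ≤ 4 * T := by exact_mod_cast h6.trans hBc
  linarith

end Pool.Agent.Lib.MP_9c5702_nt.Cube
end

-- part Pool.Agent.Lib.MP_9c5702_nt.Cube.Reduce
section

/-! Reduction to counting the good sums. -/

set_option autoImplicit false

namespace Pool.Agent.Lib.MP_9c5702_nt.Cube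

open Finset

private theorem red_range {w x y z : ℕ} (hx : 0 < x) (hy : 0 < y) (hz : 0 < z)
    (h : x ^ 3 + y ^ 3 + z ^ 3 = w ^ 3) : w < x + y + z ∧ x + y + z < 3 * w ∧
      (x + y + z) ^ 3 - w ^ 3 = 3 * (x + y) * (y + z) * (x + z) := by
  have hx3 : 0 < x ^ 3 := by positivity
  have hy3 : 0 < y ^ 3 := by positivity
  have hz3 : 0 < z ^ 3 := by positivity
  have e : (x + y + z) ^ 3 = w ^ 3 + 3 * (x + y) * (y + z) * (x + z) := by
    rw [← h]
    ring
  have p : 0 < 3 * (x + y) * (y + z) * (x + z) := by positivity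
  have a : x < w := lt_of_pow_lt_pow_left₀ 3 (Nat.zero_le _) (by omega)
  have b : y < w := lt_of_pow_lt_pow_left₀ 3 (Nat.zero_le _) (by omega)
  have c : z < w := lt_of_pow_lt_pow_left₀ 3 (Nat.zero_le _) (by omega)
  exact ⟨lt_of_pow_lt_pow_left₀ 3 (Nat.zero_le _) (by omega), by omega, by omega⟩

private theorem red_mult (n δ : ℕ) :
    (((Ioc 0 n).filter fun m => δ ∣ m).card : ℝ) ≤ (n : ℝ) / δ := by
  rw [Nat.Ioc_filter_dvd_card_eq_div]
  exact Nat.cast_div_le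

open Classical in
private theorem red_bad {w T U : ℕ} (hw : 1 ≤ w) (hU : 1 ≤ U) (hdiv : Div w T) :
    (((Ioo w (3 * w)).filter fun σ => ¬ Good w U σ).card : ℝ) ≤ (2 * T + 3) * w / U := by
  have hU0 : (0 : ℝ) < U := by exact_mod_cast hU
  have hw0 : (0 : ℝ) ≤ w := Nat.cast_nonneg w
  set M1 := Ioc 0 (w / U) with hM1
  set M2 := (w.divisors.filter fun δ => U < δ).biUnion
    fun δ => (Ioc 0 (2 * w)).filter fun m => δ ∣ m with hM2
  set M3 := (Ioc U (U + 2 * w)).biUnion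
    fun j => (Ioc 0 (2 * w)).filter fun m => j ^ 2 ∣ m with hM3
  have hsub : ((Ioo w (3 * w)).filter fun σ => ¬ Good w U σ) ⊆
      (M1 ∪ M2 ∪ M3).image fun m => m + w := by
    intro σ hσ
    obtain ⟨h1, h2⟩ := mem_filter.1 hσ
    obtain ⟨h3, h4⟩ := mem_Ioo.1 h1
    refine mem_image.2 ⟨σ - w, ?_, by omega⟩
    have hm : σ - w ∈ Ioc 0 (2 * w) := mem_Ioc.2 ⟨by omega, by omega⟩
    by_cases a1 : w ≤ U * (σ - w)
    · by_cases a2 : Nat.gcd σ w ≤ U
      · have a3 : ¬ ∀ j : ℕ, j ^ 2 ∣ σ - w → j ≤ U := fun a3 => h2 ⟨h3, h4, a1, a2, a3⟩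
        push Not at a3
        obtain ⟨j, hj1, hj2⟩ := a3
        refine mem_union_right _ (mem_biUnion.2 ⟨j, mem_Ioc.2 ⟨hj2, ?_⟩, mem_filter.2 ⟨hm, hj1⟩⟩)
        have b1 := Nat.le_of_dvd (by omega) hj1
        have b2 : j ≤ j ^ 2 := Nat.le_self_pow (by norm_num) j
        omega
      · refine mem_union_left _ (mem_union_right _ (mem_biUnion.2 ⟨Nat.gcd σ w, mem_filter.2
          ⟨Nat.mem_divisors.2 ⟨Nat.gcd_dvd_right _ _, by omega⟩, by omega⟩,
          mem_filter.2 ⟨hm, Nat.dvd_sub (Nat.gcd_dvd_left _ _) (Nat.gcd_dvd_right _ _)⟩⟩))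
    · refine mem_union_left _ (mem_union_left _ (mem_Ioc.2 ⟨by omega, ?_⟩))
      rw [Nat.le_div_iff_mul_le (by omega), mul_comm]
      omega
  have c1 : (M1.card : ℝ) ≤ w / U := by
    rw [hM1, Nat.card_Ioc, Nat.sub_zero]
    exact Nat.cast_div_le
  have c2 : (M2.card : ℝ) ≤ T * (2 * w / U) := by
    have d1 : (M2.card : ℝ) ≤ ∑ δ ∈ w.divisors.filter fun δ => U < δ,
        (((Ioc 0 (2 * w)).filter fun m => δ ∣ m).card : ℝ) := by
      exact_mod_cast card_biUnion_le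
    have d2 : ∀ δ ∈ w.divisors.filter fun δ => U < δ,
        (((Ioc 0 (2 * w)).filter fun m => δ ∣ m).card : ℝ) ≤ 2 * w / U := by
      intro δ hδ
      refine (red_mult _ _).trans ?_
      push_cast
      exact div_le_div_of_nonneg_left (by positivity) hU0
        (by exact_mod_cast (mem_filter.1 hδ).2.le)
    have d3 := sum_le_card_nsmul _ _ _ d2
    rw [nsmul_eq_mul] at d3
    have d4 : (w.divisors.filter fun δ => U < δ).card ≤ T := by
      refine (card_filter_le _ _).trans (hdiv w hw ?_)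
      have : w ≤ w ^ 3 := Nat.le_self_pow (by norm_num) w
      omega
    exact d1.trans (d3.trans (mul_le_mul_of_nonneg_right (by exact_mod_cast d4) (by positivity)))
  have c3 : (M3.card : ℝ) ≤ 2 * w / U := by
    have d1 : (M3.card : ℝ) ≤ ∑ j ∈ Ioc U (U + 2 * w),
        (((Ioc 0 (2 * w)).filter fun m => j ^ 2 ∣ m).card : ℝ) := by
      exact_mod_cast card_biUnion_le
    have d2 : ∀ j ∈ Ioc U (U + 2 * w),
        (((Ioc 0 (2 * w)).filter fun m => j ^ 2 ∣ m).card : ℝ) ≤ 2 * w * ((j : ℝ) ^ 2)⁻¹ := by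
      intro j _
      refine (red_mult _ _).trans (le_of_eq ?_)
      push_cast
      rw [div_eq_mul_inv]
    have d3 := sum_le_sum d2
    rw [← mul_sum] at d3
    have d4 := sum_Ioc_inv_sq_le_sub (α := ℝ) (k := U) (n := U + 2 * w) (by omega) (by omega)
    have d5 : (0 : ℝ) ≤ (((U + 2 * w : ℕ) : ℝ))⁻¹ := by positivity
    refine d1.trans (d3.trans ?_)
    rw [div_eq_mul_inv]
    exact mul_le_mul_of_nonneg_left (by linarith) (by positivity)
  have c4 := (card_le_card hsub).trans card_image_le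
  have c5 := card_union_le (M1 ∪ M2) M3
  have c6 := card_union_le M1 M2
  have c7 : (((Ioo w (3 * w)).filter fun σ => ¬ Good w U σ).card : ℝ) ≤
      M1.card + M2.card + M3.card := by exact_mod_cast (by omega)
  have c8 : (2 * T + 3) * (w : ℝ) / U = w / U + T * (2 * w / U) + 2 * w / U := by ring
  linarith

open Classical in
theorem reduce {w T U : ℕ} (hw : 1 ≤ w) (hU : 1 ≤ U) (hdiv : Div w T) :
    (r33 (w ^ 3) : ℝ) ≤ T ^ 2 *
      (((range (3 * w)).filter fun σ => Good w U σ ∧ ∃ x y z : ℕ, 0 < x ∧ 0 < y ∧ 0 < z ∧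
        x ^ 3 + y ^ 3 + z ^ 3 = w ^ 3 ∧ σ = x + y + z).card + (2 * T + 3) * w / U) := by
  set S := ((Icc 1 (w ^ 3)) ×ˢ (Icc 1 (w ^ 3)) ×ˢ (Icc 1 (w ^ 3))).filter
    (fun p : ℕ × ℕ × ℕ => p.1 ^ 3 + p.2.1 ^ 3 + p.2.2 ^ 3 = w ^ 3) with hS
  set G := (range (3 * w)).filter fun σ => Good w U σ ∧ ∃ x y z : ℕ, 0 < x ∧ 0 < y ∧ 0 < z ∧
    x ^ 3 + y ^ 3 + z ^ 3 = w ^ 3 ∧ σ = x + y + z with hG
  have hmem : ∀ p ∈ S, 0 < p.1 ∧ 0 < p.2.1 ∧ 0 < p.2.2 ∧
      p.1 ^ 3 + p.2.1 ^ 3 + p.2.2 ^ 3 = w ^ 3 := by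
    intro p hp
    obtain ⟨h1, h2⟩ := mem_filter.1 hp
    simp only [mem_product, mem_Icc] at h1
    exact ⟨h1.1.1, h1.2.1.1, h1.2.2.1, h2⟩
  have h1 : S.card ≤ T ^ 2 * (S.image fun p => p.1 + p.2.1 + p.2.2).card := by
    refine card_le_mul_card_image S _ fun σ hσ => ?_
    obtain ⟨p0, hp0, rfl⟩ := mem_image.1 hσ
    obtain ⟨a1, a2, a3, a4⟩ := hmem p0 hp0
    obtain ⟨b1, b2, b3⟩ := red_range a1 a2 a3 a4
    set σ := p0.1 + p0.2.1 + p0.2.2 with hσd
    have hn1 : 1 ≤ σ ^ 3 - w ^ 3 := by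
      rw [b3]
      exact Nat.succ_le_of_lt (by positivity)
    have hn2 : σ ^ 3 - w ^ 3 ≤ 27 * w ^ 3 := by
      have : σ ^ 3 ≤ (3 * w) ^ 3 := Nat.pow_le_pow_left b2.le 3
      rw [mul_pow] at this
      omega
    have hd := hdiv _ hn1 hn2
    have hc : (S.filter fun p => p.1 + p.2.1 + p.2.2 = σ).card ≤
        ((σ ^ 3 - w ^ 3).divisors ×ˢ (σ ^ 3 - w ^ 3).divisors).card := by
      refine card_le_card_of_injOn (fun p => (p.1 + p.2.1, p.2.1 + p.2.2)) ?_ ?_
      · intro p hp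
        obtain ⟨hp1, hp2⟩ := mem_filter.1 (mem_coe.1 hp)
        obtain ⟨c1, c2, c3, c4⟩ := hmem p hp1
        have e := (red_range c1 c2 c3 c4).2.2
        rw [hp2] at e
        refine mem_coe.2 (mem_product.2 ⟨Nat.mem_divisors.2 ⟨?_, by omega⟩,
          Nat.mem_divisors.2 ⟨?_, by omega⟩⟩)
        · exact ⟨3 * (p.2.1 + p.2.2) * (p.1 + p.2.2), by rw [e]; ring⟩
        · exact ⟨3 * (p.1 + p.2.1) * (p.1 + p.2.2), by rw [e]; ring⟩
      · intro p hp q hq h
        have e1 := (mem_filter.1 (mem_coe.1 hp)).2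
        have e2 := (mem_filter.1 (mem_coe.1 hq)).2
        simp only [Prod.mk.injEq] at h
        ext <;> omega
    rw [card_product] at hc
    exact hc.trans (by rw [sq]; exact Nat.mul_le_mul hd hd)
  have h2 : (S.image fun p => p.1 + p.2.1 + p.2.2) ⊆
      G ∪ (Ioo w (3 * w)).filter fun σ => ¬ Good w U σ := by
    intro σ hσ
    obtain ⟨p, hp, rfl⟩ := mem_image.1 hσ
    obtain ⟨a1, a2, a3, a4⟩ := hmem p hp
    obtain ⟨b1, b2, -⟩ := red_range a1 a2 a3 a4
    by_cases hg : Good w U (p.1 + p.2.1 + p.2.2)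
    · exact mem_union_left _ (mem_filter.2 ⟨mem_range.2 b2, hg, _, _, _, a1, a2, a3, a4, rfl⟩)
    · exact mem_union_right _ (mem_filter.2 ⟨mem_Ioo.2 ⟨b1, b2⟩, hg⟩)
  have h3 := (card_le_card h2).trans (card_union_le _ _)
  have h4 := red_bad hw hU hdiv
  have h5 : (r33 (w ^ 3) : ℝ) ≤ T ^ 2 * ((G.card : ℝ) +
      (((Ioo w (3 * w)).filter fun σ => ¬ Good w U σ).card : ℝ)) := by
    exact_mod_cast h1.trans (Nat.mul_le_mul_left _ h3)
  exact h5.trans (mul_le_mul_of_nonneg_left (by linarith) (by positivity))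

end Pool.Agent.Lib.MP_9c5702_nt.Cube
end
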