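import Pool.Agent.Lib.MP_9c5702_nt.Cube.Dir
import Pool.Agent.Lib.MP_9c5702_nt.Cube.Primes
import Pool.Agent.Lib.MP_9c5702_nt.Cube.Reduce

/-! The bound in terms of the scale `T`. -/

set_option autoImplicit false

namespace Pool.Agent.Lib.MP_9c5702_nt.Cube

open Finset

theorem sqrt_facts {w k M : ℕ} (hk : 1 ≤ k) (h3 : k ^ 3 ≤ 2 * w) (hM : M ^ 3 ≤ 2 * w) :
    k ≤ w ∧ k ≤ Nat.sqrt (2 * w / k) ∧ M ≤ Nat.sqrt (2 * w / k) ∧
      Nat.sqrt (2 * w / k) ^ 2 * k ≤ 2 * w := by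
  have h1 : k ≤ Nat.sqrt (2 * w / k) :=
    Nat.le_sqrt'.2 ((Nat.le_div_iff_mul_le hk).2 (by rw [← pow_succ]; exact h3))
  refine ⟨?_, h1, ?_, (Nat.le_div_iff_mul_le hk).1 (Nat.sqrt_le' _)⟩
  · rcases hk.eq_or_lt with rfl | h
    · omega
    · have : 2 * k ≤ k ^ 3 := by nlinarith [Nat.mul_le_mul h h]
      omega
  · by_contra h
    have h2 : 2 * w / k < (Nat.sqrt (2 * w / k) + 1) ^ 2 := Nat.lt_succ_sqrt' _
    rw [Nat.div_lt_iff_lt_mul hk] at h2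
    have h4 : (Nat.sqrt (2 * w / k) + 1) ^ 2 * k ≤ M ^ 2 * M :=
      Nat.mul_le_mul (Nat.pow_le_pow_left (by omega) _) (by omega)
    rw [← pow_succ] at h4
    exact absurd (h2.trans_le (h4.trans hM)) (lt_irrefl _)

open Classical in
theorem count_k {w T : ℕ} (hT : 100 ≤ T) (hdiv : Div w T) (Qs : Finset ℕ)
    (hQs : ∀ q ∈ Qs, q.Prime ∧ q % 3 = 2 ∧ 3 < q ∧ q ≤ T ^ 1143) (hQc : T ^ 1142 ≤ Qs.card)
    (R : Finset ℕ) (hR : ∀ r ∈ R, r.Prime ∧ T ^ 89999 ≤ r ∧ r ≤ T ^ 90000)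
    (hRw : ∀ r ∈ R, ¬ r ∣ w) (hRc : 2 * T ^ 89999 ≤ R.card)
    {k c c2 A : ℕ} (hk : 1 ≤ k) (hkw : k ≤ w) (hkA : k ≤ A) (hA : T ^ 6120000 ≤ A)
    (hAw : A ^ 2 ≤ 2 * w) (hc : 1 ≤ c) (hc' : c ≤ T ^ 16) (hc2 : c2 ≤ T ^ 26) :
    (((range (3 * w)).filter fun σ => Good w (T ^ 5) σ ∧ ∃ a b : ℤ, |a| ≤ A ∧ |b| ≤ A ∧
      Rep w σ k c c2 a b).card : ℝ) ≤ 2 * (A : ℝ) ^ 2 / T ^ 49 := by
  have pw : ∀ a b : ℕ, a ≤ b → T ^ a ≤ T ^ b := fun a b h => Nat.pow_le_pow_right (by omega) h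
  have h0 : (0 : ℝ) < T := by exact_mod_cast (by omega : 0 < T)
  have h1 : (1 : ℝ) ≤ T := by exact_mod_cast (by omega : 1 ≤ T)
  have hb := count_bad hT hdiv hk hkw ((pw _ _ (by norm_num)).trans hA)
    ((Nat.le_self_pow (by norm_num) A).trans hAw) R hR hRc
  set Bad := ((Icc (-(A : ℤ)) A) ×ˢ (Icc (-(A : ℤ)) A)).filter fun p : ℤ × ℤ =>
      ∀ l ∈ range (T ^ 144), ∀ r ∈ R, ¬ Dir k A (T ^ 290) r l p.1 p.2 with hBad
  let X : ℤ × ℤ → Finset ℕ := fun p =>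
    (range (3 * w)).filter fun σ => Good w (T ^ 5) σ ∧ Rep w σ k c c2 p.1 p.2
  let Y : ℕ × ℕ → Finset ℕ := fun i =>
    (range (3 * w)).filter fun σ => Good w (T ^ 5) σ ∧ ∃ a b : ℤ, |a| ≤ A ∧ |b| ≤ A ∧
      Rep w σ k c c2 a b ∧ Dir k A (T ^ 290) i.2 i.1 a b
  have hsub : ((range (3 * w)).filter fun σ => Good w (T ^ 5) σ ∧ ∃ a b : ℤ, |a| ≤ A ∧ |b| ≤ A ∧
      Rep w σ k c c2 a b) ⊆ Bad.biUnion X ∪ (range (T ^ 144) ×ˢ R).biUnion Y := by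
    intro σ hσ
    obtain ⟨h2, hg, a, b, ha, hb, hrep⟩ := mem_filter.1 hσ
    by_cases h : ∀ l ∈ range (T ^ 144), ∀ r ∈ R, ¬ Dir k A (T ^ 290) r l a b
    · refine mem_union_left _ (mem_biUnion.2 ⟨(a, b), ?_, mem_filter.2 ⟨h2, hg, hrep⟩⟩)
      exact (@mem_filter _ _ (_) _ _).2
        ⟨mem_product.2 ⟨mem_Icc.2 (abs_le.1 ha), mem_Icc.2 (abs_le.1 hb)⟩, h⟩
    · push Not at h
      obtain ⟨l, hl, r, hr, hd⟩ := h
      exact mem_union_right _ (mem_biUnion.2 ⟨(l, r), mem_product.2 ⟨hl, hr⟩,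
        mem_filter.2 ⟨h2, hg, a, b, ha, hb, hrep, hd⟩⟩)
  have hX : ∀ p ∈ Bad, (X p).card ≤ T ^ 90 := by
    intro p _
    refine (mult w (T ^ 5) k c c2 hc p.1 p.2).trans ?_
    have h2 : (T ^ 5) ^ 3 * c2 * c ^ 3 ≤ T ^ 89 := by
      calc _ ≤ (T ^ 5) ^ 3 * T ^ 26 * (T ^ 16) ^ 3 := by gcongr
        _ = _ := by rw [← pow_mul, ← pow_mul, ← pow_add, ← pow_add]
    have h3 := five_le hT (Nat.one_le_pow 89 T (by omega))
    have h4 : 7 * T ^ 89 ≤ T * T ^ 89 := Nat.mul_le_mul_right _ (by omega)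
    have h5 := Nat.one_le_pow 89 T (by omega)
    rw [pow_succ' T 89, mul_assoc, mul_assoc, ← mul_assoc ((T ^ 5) ^ 3)]
    omega
  have hY : ∀ i ∈ range (T ^ 144) ×ˢ R,
      ((Y i).card : ℝ) ≤ (A : ℝ) ^ 2 / (T ^ 89999 * T ^ 194) := by
    rintro ⟨l, r⟩ hi
    obtain ⟨hl, hr⟩ := mem_product.1 hi
    obtain ⟨r1, r2, r3⟩ := hR r hr
    refine (count_dir hT hdiv Qs hQs hQc hk hkA hA hAw hc hc' hc2 (mem_range.1 hl) r1 r2 r3
      (hRw r hr)).trans ?_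
    have : (T : ℝ) ^ 89999 ≤ r := by exact_mod_cast r2
    gcongr
  have hRc' : R.card ≤ T ^ 90000 := by
    have : R ⊆ Icc 1 (T ^ 90000) := fun r hr => mem_Icc.2 ⟨(hR r hr).1.pos, (hR r hr).2.2⟩
    exact (card_le_card this).trans ((Nat.card_Icc _ _).trans (Nat.add_sub_cancel _ _)).le
  have h2 := (card_le_card hsub).trans ((card_union_le _ _).trans
    (add_le_add (card_biUnion_le_card_mul _ _ _ hX) card_biUnion_le))
  have h3 : ∑ i ∈ range (T ^ 144) ×ˢ R, ((Y i).card : ℝ) ≤ (A : ℝ) ^ 2 / T ^ 49 := by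
    refine (sum_le_card_nsmul _ _ _ hY).trans ?_
    have h4 : ((range (T ^ 144) ×ˢ R).card : ℝ) ≤ T ^ 144 * (T ^ 89999 * T) := by
      have h5 : T ^ 144 * R.card ≤ T ^ 144 * (T ^ 89999 * T) :=
        Nat.mul_le_mul_left _ (hRc'.trans (pow_succ T 89999).le)
      rw [card_product, card_range, ← Nat.cast_pow, ← Nat.cast_pow, ← Nat.cast_mul, ← Nat.cast_mul]
      exact Nat.cast_le.2 h5
    rw [nsmul_eq_mul, show (T : ℝ) ^ 194 = T ^ 144 * T * T ^ 49 by rw [← pow_succ, ← pow_add]]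
    have ha : 0 < (T : ℝ) ^ 144 := by positivity
    have hb : 0 < (T : ℝ) ^ 89999 := by positivity
    generalize (T : ℝ) ^ 144 = a at *
    generalize (T : ℝ) ^ 89999 = b at *
    refine (mul_le_mul_of_nonneg_right h4 (by positivity)).trans (le_of_eq ?_)
    field_simp
  have h4 : (Bad.card : ℝ) * T ^ 90 ≤ (A : ℝ) ^ 2 / T ^ 49 := by
    calc _ ≤ (A : ℝ) ^ 2 / T ^ 140 * T ^ 90 := by gcongr
      _ = (A : ℝ) ^ 2 / T ^ 50 := by field_simp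
      _ ≤ _ := by gcongr; norm_num
  calc _ ≤ (Bad.card : ℝ) * T ^ 90 + ∑ i ∈ range (T ^ 144) ×ˢ R, ((Y i).card : ℝ) := by
        exact_mod_cast h2
    _ ≤ _ := by rw [mul_div_assoc]; linarith

theorem main_T {w T : ℕ} (hT : 100 ≤ T) (hw : T ^ 18450000 ≤ w) (hdiv : Div w T)
    (hlog : ∑ k ∈ Icc 1 w, (1 : ℝ) / k ≤ T) (Qs : Finset ℕ)
    (hQs : ∀ q ∈ Qs, q.Prime ∧ q % 3 = 2 ∧ 3 < q ∧ q ≤ T ^ 1143) (hQc : T ^ 1142 ≤ Qs.card)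
    (R : Finset ℕ) (hR : ∀ r ∈ R, r.Prime ∧ T ^ 89999 ≤ r ∧ r ≤ T ^ 90000)
    (hRc : 3 * T ^ 89999 ≤ R.card) :
    (r33 (w ^ 3) : ℝ) ≤ w / T := by
  classical
  have pw : ∀ a b : ℕ, a ≤ b → T ^ a ≤ T ^ b := fun a b h => Nat.pow_le_pow_right (by omega) h
  have ht : (100 : ℝ) ≤ T := by exact_mod_cast hT
  have h0 : (0 : ℝ) < T := by linarith
  have hw1 : 1 ≤ w := (Nat.one_le_pow _ _ (by omega)).trans hw
  have hw3 := le_cube w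
  have hRc' : 2 * T ^ 89999 ≤ (R \ w.divisors).card := by
    have h1 := le_card_sdiff w.divisors R
    have h2 := hdiv w hw1 (by omega)
    have h3 : T ≤ T ^ 89999 := Nat.le_self_pow (by norm_num) T
    generalize T ^ 89999 = X at *
    omega
  have hM : (T ^ 6120000) ^ 3 ≤ 2 * w := by
    rw [← pow_mul]
    exact (pw _ _ (by norm_num)).trans (hw.trans (by omega))
  let K := (Icc 1 w).filter fun k => k ^ 3 ≤ 2 * w
  let X : ℕ × ℕ × ℕ → Finset ℕ := fun i =>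
    (range (3 * w)).filter fun σ => Good w (T ^ 5) σ ∧ ∃ a b : ℤ, |a| ≤ Nat.sqrt (2 * w / i.1) ∧
      |b| ≤ Nat.sqrt (2 * w / i.1) ∧ Rep w σ i.1 i.2.1 i.2.2 a b
  have hX : ∀ i ∈ K ×ˢ Icc 1 (T ^ 16) ×ˢ Icc 1 (T ^ 26),
      ((X i).card : ℝ) ≤ 4 * w / T ^ 49 * (1 / i.1) := by
    rintro ⟨k, c, c2⟩ hi
    simp only [K, mem_product, mem_filter, mem_Icc] at hi
    obtain ⟨⟨⟨k1, -⟩, k3⟩, ⟨c1, c3⟩, -, c4⟩ := hi
    obtain ⟨s1, s2, s3, s4⟩ := sqrt_facts k1 k3 hM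
    refine (count_k hT hdiv Qs hQs hQc (R \ w.divisors) (fun r hr => hR r (mem_sdiff.1 hr).1)
      (fun r hr h => (mem_sdiff.1 hr).2 (Nat.mem_divisors.2 ⟨h, by omega⟩)) hRc' k1 s1 s2 s3
      ((Nat.le_mul_of_pos_right _ k1).trans s4) c1 c3 c4).trans ?_
    have hk0 : (0 : ℝ) < k := by exact_mod_cast k1
    have h1 : (Nat.sqrt (2 * w / k) : ℝ) ^ 2 ≤ 2 * w / k := by
      rw [le_div_iff₀ hk0]; exact_mod_cast s4
    calc _ ≤ 2 * (2 * w / k : ℝ) / T ^ 49 := by gcongr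
      _ = _ := by ring
  have hsub : ((range (3 * w)).filter fun σ => Good w (T ^ 5) σ ∧ ∃ x y z : ℕ, 0 < x ∧ 0 < y ∧
      0 < z ∧ x ^ 3 + y ^ 3 + z ^ 3 = w ^ 3 ∧ σ = x + y + z) ⊆
      (K ×ˢ Icc 1 (T ^ 16) ×ˢ Icc 1 (T ^ 26)).biUnion X := by
    intro σ hσ
    obtain ⟨h1, hg, x, y, z, hx, hy, hz, h, hs⟩ := mem_filter.1 hσ
    obtain ⟨k, c, c2, a, b, k1, k3, c1, c3, c4, c5, ha, hb, hrep⟩ := struct hg hx hy hz h hs
    refine mem_biUnion.2 ⟨(k, c, c2), ?_, mem_filter.2 ⟨h1, hg, a, b, ha, hb, hrep⟩⟩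
    simp only [K, mem_product, mem_filter, mem_Icc]
    refine ⟨⟨⟨k1, (sqrt_facts k1 k3 hM).1⟩, k3⟩, ⟨c1, c3.trans ?_⟩, c4, c5.trans ?_⟩
    · rw [← pow_mul, pow_succ' T 15]; exact Nat.mul_le_mul_right _ (by omega)
    · rw [← pow_mul, pow_succ' T 25]; exact Nat.mul_le_mul_right _ (by omega)
  have h1 := (card_le_card hsub).trans card_biUnion_le
  have h2 : ∑ i ∈ K ×ˢ Icc 1 (T ^ 16) ×ˢ Icc 1 (T ^ 26), ((X i).card : ℝ) ≤ 4 * w / T ^ 6 := by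
    refine (sum_le_sum hX).trans ?_
    rw [sum_product]
    simp only [sum_const, card_product, Nat.card_Icc, Nat.add_sub_cancel, nsmul_eq_mul]
    rw [← mul_sum, ← mul_sum]
    have h3 : ∑ k ∈ K, (1 : ℝ) / k ≤ T :=
      (sum_le_sum_of_subset_of_nonneg (filter_subset _ _) fun _ _ _ => by positivity).trans hlog
    calc _ ≤ ((T ^ 16 * T ^ 26 : ℕ) : ℝ) * (4 * w / T ^ 49 * T) := by gcongr
      _ = _ := by push_cast; field_simp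
  refine (reduce (U := T ^ 5) hw1 (Nat.one_le_pow _ _ (by omega)) hdiv).trans ?_
  have h3 := le_trans ((Nat.cast_le.2 h1).trans (Nat.cast_sum _ _).le) h2
  have hw0 : (0 : ℝ) ≤ w := by positivity
  calc _ ≤ (T : ℝ) ^ 2 * (4 * w / T ^ 6 + (2 * T + 3) * w / (T ^ 5 : ℕ)) := by gcongr
    _ = w / T * ((4 + (2 * T + 3) * T) / T ^ 3) := by push_cast; field_simp
    _ ≤ w / T * 1 := by
      gcongr
      rw [div_le_one (by positivity)]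
      nlinarith [mul_le_mul_of_nonneg_right ht (sq_nonneg (T : ℝ))]
    _ = _ := mul_one _

end Pool.Agent.Lib.MP_9c5702_nt.Cube
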